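import Pool.Agent.H830.OT.Flags

/-!
# Statements of the lemmas (interfaces)

Project OT of helper830 for `MP_42180a_gt`: a closed connected oriented *ordered* triangulation
with `n` pentachora satisfies `2 β₂ + 2 ≤ n + 2 β₃`.
Every `S_X : Prop` below has been checked by computer on thousands of random ordered gluings.
-/

namespace Pool.Agent.H830.OT

/-- **S_A** (three involutions). `D` finite, `a, b, c` fixed point free involutions:
`2 (orb(a,b) + orb(b,c) + orb(a,c)) ≤ |D| + 4 orb(a,b,c)`.

Proof: over `k = ZMod 2` let `A, B, C ⊆ (D → k)` be the subspaces of the functions invariant under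
`a`, `b`, `c`. `finrank (A ⊓ B) = ncl (a,b)` etc. (the invariant functions are the functions on the
quotient, `Quot r → k`).
(i) For `f, g ∈ A`: `∑ x, f x * g x = 0` (`Finset.sum_involution`), so `A ⊆ A^⊥` and
`2 finrank A ≤ |D|`, likewise for `B`, `C`.
(ii) A linear functional `f ↦ ∑ x, h x * f x` which vanishes on `A ⊔ B ⊔ C` has `h` invariant under
`a, b, c` (take for `f` the indicator function of `{x, a x}`: `h x + h (a x) = 0`). Hence
`|D| - finrank (A ⊔ B ⊔ C) ≤ finrank (A ⊓ B ⊓ C)`.
(iii) `(A ⊓ B) ⊔ (A ⊓ C) ≤ A ⊓ (B ⊔ C)` and `Submodule.finrank_sup_add_finrank_inf_eq` (three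
times) give `dim AB + dim AC ≤ dim A⊓(B⊔C) + dim ABC`,
`dim A⊓(B⊔C) = dim A + dim (B⊔C) - dim (A⊔B⊔C)`, `dim (B⊔C) = dim B + dim C - dim BC`. Add up. -/
def S_A : Prop := ∀ (D : Type) [Finite D] (a b c : D → D),
  (∀ x, a (a x) = x) → (∀ x, a x ≠ x) → (∀ x, b (b x) = x) → (∀ x, b x ≠ x) →
  (∀ x, c (c x) = x) → (∀ x, c x ≠ x) →
  2 * (ncl (fun x y => y = a x ∨ y = b x) + ncl (fun x y => y = b x ∨ y = c x) +
    ncl (fun x y => y = a x ∨ y = c x)) ≤
  Nat.card D + 4 * ncl (fun x y => y = a x ∨ y = b x ∨ y = c x)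

/-- **S_B** (three involutions, parity). `D` finite, `a, b, c` involutions which change the
sign `s`. Then `2 (orb(a,b) + orb(b,c) + orb(a,c)) ≡ |D| mod 4`.

Proof: let `D⁺ = {x | s x = true}`, `|D| = 2 |D⁺|` (`a` is a bijection `D⁺ → D⁻`). The compositions
`ab, bc, ca` restrict to permutations of `D⁺`, with product `(ab)(bc)(ca) = 1`. Each orbit of the
dihedral group `⟨a, b⟩` on `D` consists of one cycle of `ab` in `D⁺` and one in `D⁻`, so `orb(a,b)`
is the number of cycles (with the fixed points) of `ab` on `D⁺`, i.e. `Quot r` for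
`r x y := y = a x ∨ y = b x` is in bijection with the `SameCycle` classes of `ab` on `D⁺`:
for `x ∈ D⁻` use `a x`; note `a (b (a x)) ` is a power of `ab` applied to ...: `a x ~ b x = (ba)(a x)`.
The sign of a permutation `σ` of a finite type `α` is `(-1) ^ (|α| + #cycles)`, where `#cycles`
counts the orbits (see `Equiv.Perm.sign_of_cycleType`, `Equiv.Perm.card_cycleType_...`; or prove it
by induction on `σ` with `Equiv.Perm.swap_induction_on`). So
`1 = sign(ab) sign(bc) sign(ca) = (-1) ^ (3 |D⁺| + orb(a,b) + orb(b,c) + orb(a,c))`. -/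
def S_B : Prop := ∀ (D : Type) [Finite D] (s : D → Bool) (a b c : D → D),
  (∀ x, a (a x) = x) → (∀ x, s (a x) = !s x) → (∀ x, b (b x) = x) → (∀ x, s (b x) = !s x) →
  (∀ x, c (c x) = x) → (∀ x, s (c x) = !s x) →
  (2 * (ncl (fun x y => y = a x ∨ y = b x) + ncl (fun x y => y = b x ∨ y = c x) +
    ncl (fun x y => y = a x ∨ y = c x))) % 4 = Nat.card D % 4

/-- **S_W** (counting classes with weights, lower bound). If each `x` is in a set `N x` which is
closed under `r` in both directions, and the total weight of `N x` is at most one, then the number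
of classes is at least the total weight.
Proof: `∑ x, w x = ∑ over q : Quot r, ∑ x with mk x = q, w x` (`Finset.sum_fiberwise`), and for
each class the inner sum is over a subset of `N x` (`x` any element of the class), so `≤ 1`. -/
def S_W : Prop := ∀ (D : Type) [Fintype D] (r : D → D → Prop) (w : D → ℚ) (N : D → Finset D),
  (∀ x, x ∈ N x) → (∀ x y z, y ∈ N x → r y z → z ∈ N x) → (∀ x y z, y ∈ N x → r z y → z ∈ N x) →
  (∀ x, 0 ≤ w x) → (∀ x, ∑ y ∈ N x, w y ≤ 1) → ∑ x, w x ≤ ncl r

/-- **S_W'** (counting classes, exact). If `N x` is exactly the class of `x` then the number of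
classes is `∑ x, 1 / |N x|`. -/
def S_W' : Prop := ∀ (D : Type) [Fintype D] (r : D → D → Prop) (N : D → Finset D),
  (∀ x y, y ∈ N x ↔ Relation.EqvGen r x y) → ∑ x, (1 : ℚ) / (N x).card = ncl r

/-- **S_L1**. The functions `al` (swap `j,k`), `be` (swap `i,k`) on `P × LF`, see `Flags.lean`.
Proof: `S_W` with `w = 1/6`, `N (p, x)` = the pairs `(p, y)`, `y` one of the six orderings of `x` (or simpler:
all `y` with the same set `{i,j,k}`); `Fintype.card LF = 60` by `decide`/`rfl`. -/
def S_L1 : Prop := ∀ (P : Type) [Finite P],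
  10 * Nat.card P ≤ ncl (fun x y : P × LF => y = CG.al x ∨ y = CG.be x)

/-- **S_L2**. Proof: `S_W` with: `w = 1/4` for the flags `x = (p,(i,j,k))` with uncapped facet `j`, where
`N x = {x, be x, gamL x, be (gamL x)}` (`be` and `gamL` commute there, as `tr p j k = gm j (ix p j)` does
not depend on `k`). For capped `j`: the flag `(p,(i,j,k))` is *special* if `{i, k}` are the elements of
ranks 1, 2 of `V \ {j}` (2 of the 12 flags `(·,j,·)`), else *main* (10 flags); `w = 1/2`, resp. `1/10`,
and `N x` = the special, resp. main, flags `(p,(·,j,·))`; closed under `gamL` (`cc j k`) by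
`decide`. The total weight is `(12/4) (5 m - K) + (1 + 1) K = 15 m - K`. -/
def S_L2 : Prop := ∀ (P : Type) [Finite P] (X : CG P),
  15 * Nat.card P ≤ X.K + ncl (fun x y : P × LF => y = CG.be x ∨ y = X.gamL x)

/-- **S_L3**. Proof: the map `(p,(i,j,k)) ↦ (mk (p,(j,k)), rank of i in V \ {j,k})` from `P × LF` to
`Quot X.relT × Fin 3` is constant on classes (`X.tr p j k` is order preserving on `V \ {j,k}`) and
surjective; `Nat.card_le_card_of_surjective` (or `Finite.card_le_of_surjective`). -/
def S_L3 : Prop := ∀ (P : Type) [Finite P] (X : CG P),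
  3 * X.T ≤ ncl (fun x y : P × LF => y = CG.al x ∨ y = X.gamL x)

/-- **S_L4**. Proof: map an edge `(p,(a,b)) : P × EF` to the class of a flag `(p,(i,j,k))` with
`{i,j,k} = V \ {a,b}` (all six such flags are equivalent under `al`, `be`). It is constant on the classes of
`relE`: for `j, k ∉ {a,b}`, `j ≠ k`, let `i` be the remaining vertex; `gamL (p,(i,j,k))` is a flag of the
edge `(nb p j, (tr p j k a, tr p j k b))`. So it induces a surjection
`Quot X.relE → Quot (al, be, gamL)`. -/
def S_L4 : Prop := ∀ (P : Type) [Finite P] (X : CG P),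
  ncl (fun x y : P × LF => y = CG.al x ∨ y = CG.be x ∨ y = X.gamL x) ≤ X.E

/-- **S_L** (`3 T ≤ 5 m + K + 2 E`): `S_A` for `al`, `be`, `gamL` on `P × LF` (`60 m` elements) and
`S_L1` … `S_L4`: `2 (10 m + (15 m - K) + 3 T) ≤ 60 m + 4 E`. -/
def S_L : Prop := ∀ (P : Type) [Finite P] (X : CG P),
  3 * X.T ≤ 5 * Nat.card P + X.K + 2 * X.E

/-- **S_S1**. `Xc = X.cap F hF` (all facets of the symmetric set `F` are capped),
`X` without capped facets. Proof: `S_A` for `iota`, `g = X.gamT`, `h = Xc.gamT` on `P × TF`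
(`20 m` elements) gives `2 (T + orb(g,h) + Tc) ≤ 20 m + 4 orb(iota,g,h)` (`CG.T_eq`), and
`orb(g,h) ≥ 10 m - Kc` by `S_W`: for facets `(p,j)` not in `F`: `g = h` on `(p,(j,·))`, `N x = {x, g x}`,
weight `1/2`; for facets in `F`: `h = nu` there, `g` and `nu` commute (`gm_rev`),
`N x = {x, g x, nu x, g (nu x)}`, weight `1/4`. `Kc = ` number of facets in `F`. -/
def S_S1 : Prop := ∀ (P : Type) [Finite P] (X : CG P), (∀ p j, ¬ X.Capped p j) →
  ∀ (F : P → Fin 5 → Prop) (hF : ∀ p j, F p j → F (X.nb p j) (X.ix p j)),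
  X.T + (X.cap F hF).T ≤ (X.cap F hF).K +
    2 * ncl (fun x y => y = CG.iota x ∨ y = X.gamT x ∨ y = (X.cap F hF).gamT x)

/-- **S_S2**. `Xc = X.cap F hF`, `X` without capped facets.
Proof: over the field `ℚ` let `𝓔c ⊆ (P × EF → ℚ)` be the functions invariant under
`Xc.relE` (dimension `Ec`), `𝓣c ⊆ (P × TF → ℚ)` the functions invariant under `iota`, `Xc.gamT`
(dimension `Tc`), `𝓣gc ⊆ 𝓣c` those which are also invariant under `X.gamT` (dimension `Tgc`, the `ncl` in
the statement), and `𝓔gc ⊆ 𝓔c` those also invariant under `X.relE` (dimension `≤ E`). The linear map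
`Θ φ (p,(j,k)) = φ (p, (min, max) of V \ {j,k})` (long edge of the triangle) maps `𝓔c` to `𝓣c` (the maps
`tr p j k` are order preserving on `V \ {j,k}`), and
`Θ φ ∈ 𝓣gc` implies `φ ∈ 𝓔gc`: only the facets in `F` matter; for a facet `j ∈ F` of `p` glued in `X` to
facet `i` of `q` (`i ∈ F` for `q`), `φ` has one value on the five edges of `(p, V \ {j})` other than the edge
`(min, max)` of `V \ {j}` (they are identified by the cap), and this is `Θφ (p,(j,k))` for `k` of
rank 0; the value on the edge `(min,max)` is `Θφ (p,(j,k))` for `k` of rank 1; same for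
`(q, V \ {i})`; and `Θφ` is invariant under `X.gamT`. So `𝓔c / 𝓔gc → 𝓣c / 𝓣gc` is injective,
`Ec - E ≤ Ec - dim 𝓔gc ≤ Tc - Tgc`. (dimension of invariant functions = number of classes: functions on
`Quot r`.) -/
def S_S2 : Prop := ∀ (P : Type) [Finite P] (X : CG P), (∀ p j, ¬ X.Capped p j) →
  ∀ (F : P → Fin 5 → Prop) (hF : ∀ p j, F p j → F (X.nb p j) (X.ix p j)),
  ncl (fun x y => y = CG.iota x ∨ y = X.gamT x ∨ y = (X.cap F hF).gamT x) + (X.cap F hF).E ≤
    (X.cap F hF).T + X.E

/-- **S_S** (capping): `T + 2 Ec ≤ Tc + 2 E + Kc`, the sum of `S_S1` and twice `S_S2`. -/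
def S_S : Prop := ∀ (P : Type) [Finite P] (X : CG P), (∀ p j, ¬ X.Capped p j) →
  ∀ (F : P → Fin 5 → Prop) (hF : ∀ p j, F p j → F (X.nb p j) (X.ix p j)),
  X.T + 2 * (X.cap F hF).E ≤ (X.cap F hF).T + 2 * X.E + (X.cap F hF).K

/-- **S_G1** (growth, with caps).
Proof. For `S : Finset P` let `K_S = {z ∈ Z | z p = 0 for p ∈ S}`, `d_S = w - finrank K_S`, `E_S` the
number of edge classes (elements of `Quot relE`) with a representative in `S`, `u_S` the number of
`p ∈ S` without capped facet. Claim `3 d_S ≤ E_S + u_S + 1` for the sets `S` obtained from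
`{p₀}`, `p₀` a pentachoron with a capped facet, by adding neighbours.
Start: a cocycle vanishing on a facet of `p₀` is determined on `p₀` by one number, so
`d ≤ 1`; if `d = 1` then `E_S ≥ 2` as the edge classes of an edge of the capped facet (all `z` vanish)
and of an edge where some `z ≠ 0` are different.
Step: `q ∈ S`, `p = nb q j ∉ S`, glued along the facet `i = ix q j` of `p`. `z ∈ K_S` vanishes on the
facet `i` of `p`, so `dim K_S ≤ dim K_{S ∪ p} + 1`, and if `K_S ≠ K_{S ∪ p}` there is `z ∈ K_S` with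
`z p i a = c ≠ 0` for all `a ≠ i`. Then `p` has no capped facet (a capped facet `i' ≠ i` contains
`i` and some `a`, and facet `i` is not capped), so `u` increases by one; the edges `i a` are
not in classes of `S` (there `z = 0`), and they are in at least two classes: the class of an edge
`(a,b)`, `a < b`, determines the value `z' p a b` for all `z' ∈ Z`; the four edges at `i` have the
`z`-values `c` (`i < a`) or `-c` (`a < i`), so if all were in one class then `z' p i a` would be
independent of `a` for all `z' ∈ Z`, and `i` would be a flat facet. So `E_S` increases by at least 2.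
End: `S = P`: `d = w` (`K_P = 0`), `E_S = E`, `u = m - K` since every `p` has at most one cap. -/
def S_G1 : Prop := ∀ (P : Type) [Finite P] (X : CG P), X.Conn → X.NF →
  (∃ p j, X.Capped p j) → (∀ p j j', X.Capped p j → X.Capped p j' → j = j') →
  3 * X.w + X.K ≤ X.E + Nat.card P + 1

/-- **S_G2** (growth, no caps).
Proof. As for `S_G1`, with `3 d_S ≤ E_S + |S| + 2`. Start `S = {p₀}`: `d = d_S ≤ 4` and
`E_S ≥ d (d + 1) / 2 ≥ 3 d - 3`: add the vertices `0, 1, 2, 3, 4` of `p₀` one by one. Let
`A = {0, …, v - 1}`, `d_A` the rank of the restriction of `Z` to the edges of `A`. If the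
rank increases by one when `v` is added, there is `z ∈ Z` with `z p₀ a b = 0` on `A` and `z p₀ a v ≠ 0`
for all `a ∈ A`, so that the edges `(a, v)` are not in the classes of the edges of `A`, and they are in at
least `d_A + 1` classes, because the functionals `z ↦ z p₀ a v`, `a ∈ A`, are constant on classes, and
their differences `z ↦ z p₀ a b` span a space of dimension `d_A`
(`finrank_vectorSpan_range_le` or by hand). So `E_S ≥ 1 + 2 + … + d`.
Step as for `S_G1`; now no facet is capped, so `|S|` increases by one and `E_S` by `≥ 2` if `d_S` does. -/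
def S_G2 : Prop := ∀ (P : Type) [Finite P] [Nonempty P] (X : CG P), X.Conn → X.NF →
  (∀ p j, ¬ X.Capped p j) → 3 * X.w ≤ X.E + Nat.card P + 2

/-- **S_Par** (parity): `T + m + K` is even for oriented gluings (capped facets allowed).

Proof: apply `S_B` to `D = P × TF` (`|D| = 20 m`), `a = CG.iota`, `b = X.gamT`, `c = CG.nu` (`Flags.lean`), and the sign
`s (p,(j,k)) = [ε p * (-1) ^ j * (-1) ^ (rk j k) = 1]`; all three involutions change it:
`ι`: `(-1)^(j + rk j k) = -(-1)^(k + rk k j)` by `decide`; `ν`: `rk j (rev j k) = 3 - rk j k`;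
`γ` uncapped: orientation, and `rk` is preserved by `gm`; `γ` capped: `γ = ν` (`cc j k k = rev j k`).
`orb(ι,γ) = T` (the relation `relT` has the same classes). `orb(γ,ν) = 5 m + K`
by `S_W'`: classes `{x, γ x, ν x, γ ν x}` with four elements if `j` is not capped (`γ ν = ν γ`), and
`{x, ν x}` if `j` is capped: `4 (5 m - K) / 4 + 4 K / 2 = 5 m + K`. `orb(ν,ι) = 2 m`: on
the 20 elements of `TF` the group generated by `ν` and `ι` has exactly two orbits (of sizes 14 and 6).
So `2 (T + 5 m + K + 2 m) ≡ 20 m mod 4`. -/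
def S_Par : Prop := ∀ (P : Type) [Finite P] (X : CG P), X.Oriented →
  Even (X.T + Nat.card P + X.K)

/-- the inequality for gluings with caps -/
def CG.Psi {P : Type} (X : CG P) : Prop :=
  X.T + 4 * X.w + X.K ≤ 3 * Nat.card P + 2 * X.E

/-- **S_Pure**: a connected `X` in which all uncapped facets are nonflat and in which some
pentachoron has two capped facets.
Proof: all `z ∈ Z` vanish on `p` (two facets of `p`: the edges of the two facets connect all the
vertices), so every facet of `p` is flat, hence capped by `NF`; by `Conn`, `P = {p}`. `w = 0`,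
`m = 1`, `K = 5`. `T ≤ 2`: the relation `relT` on `TF` (now `(j,k) ~ (k,j) ~ (k, rev k j)` …) has
two classes. `E ≥ 2`: `φ (a,b) = [a = 0 and b = 4]` is invariant under `relE`
(`cc j k` with `j, k ∉ {a,b}`), and takes two values. So `T + 0 + 5 ≤ 3 + 4`. -/
def S_Pure : Prop := ∀ (P : Type) [Finite P] (X : CG P), X.Conn → X.NF →
  (∃ p j j', j ≠ j' ∧ X.Capped p j ∧ X.Capped p j') → X.Psi

/-- **S_Comp** (reduction to connected gluings).
Proof: let `c p q := EqvGen (∃ j, q = X.nb p j)`, `Q = Quot …` the set of components; for a component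
`C` the sub-gluing `X_C` on `{p // mk p = C}` satisfies `Conn`, `Oriented`, `NF` (the restriction of
`z ∈ X.Z` is in `X_C.Z`), has a capped facet and is nonempty. `T`, `E`, `K`, `m` are
additive over the components (`P × TF ≃ Σ C, {p // mk p = C} × TF`, classes stay in one component), and
`X.w ≤ ∑ X_C.w` since the restriction `X.Z → Π C, X_C.Z` is injective. Add up `Psi`. -/
def S_Comp : Prop :=
  (∀ (Q : Type) [Finite Q] [Nonempty Q] (Y : CG Q), Y.Conn → Y.Oriented → Y.NF →
    (∃ q j, Y.Capped q j) → Y.Psi) →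
  ∀ (P : Type) [Finite P] (X : CG P), X.Oriented → X.NF →
    (∀ S : Set P, S.Nonempty → (∀ p ∈ S, ∀ j, X.nb p j ∈ S) → ∃ p ∈ S, ∃ j, X.Capped p j) →
    X.Psi

/-- **S_Main** the main inequality (follows from the lemmas above, `T_Main`). -/
def S_Main : Prop := ∀ (P : Type) [Finite P] [Nonempty P] (X : CG P), X.Conn → X.Oriented →
  (∀ p j, ¬ X.Capped p j) → X.T + X.w ≤ 2 * Nat.card P + X.E

end Pool.Agent.H830.OT
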