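import Pool.Agent.H830.OT.Tri

/-!
# Assembly
-/

namespace Pool.Agent.H830.OT

theorem card_LF : Fintype.card LF = 60 := by decide

theorem card_TF : Fintype.card TF = 20 := by decide

theorem T_L (hA : S_A) (h1 : S_L1) (h2 : S_L2) (h3 : S_L3) (h4 : S_L4) : S_L := by
  intro P _ X
  have hA' := hA (P × LF) CG.al CG.be X.gamL CG.al_al CG.al_ne CG.be_be CG.be_ne
    X.gamL_gamL X.gamL_ne
  have h1' := h1 P
  have h2' := h2 P X
  have h3' := h3 P X
  have h4' := h4 P X
  have hc : Nat.card (P × LF) = 60 * Nat.card P := by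
    rw [Nat.card_prod, Nat.card_eq_fintype_card (α := LF), card_LF, mul_comm]
  omega

theorem T_S (h1 : S_S1) (h2 : S_S2) : S_S := by
  intro P _ X hX F hF
  have h1' := h1 P X hX F hF
  have h2' := h2 P X hX F hF
  omega

namespace CG

variable {P : Type} (X : CG P)

/-- the inequality for a connected gluing with caps -/
theorem psi_conn (hL : S_L) (hG1 : S_G1) (hPar : S_Par) (hPure : S_Pure) [Finite P] [Nonempty P]
    (hc : X.Conn) (ho : X.Oriented) (hn : X.NF) (hk : ∃ q j, X.Capped q j) : X.Psi := by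
  by_cases h : ∃ p j j', j ≠ j' ∧ X.Capped p j ∧ X.Capped p j'
  · exact hPure P X hc hn h
  · push Not at h
    have hG := hG1 P X hc hn hk (fun p j j' h1 h2 => by
      by_contra h3
      exact h p j j' h3 h1 h2)
    have hL' := hL P X
    obtain ⟨r, hr⟩ := hPar P X ho
    unfold Psi
    omega

theorem flat_symm {p : P} {j : Fin 5} (h : X.Flat p j) : X.Flat (X.nb p j) (X.ix p j) := by
  intro z hz a b ha hb
  have h1 : gm j (X.ix p j) (gm (X.ix p j) j a) = a := gm_gm _ _ _
  have h2 : gm j (X.ix p j) (gm (X.ix p j) j b) = b := gm_gm _ _ _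
  rw [← h1, ← h2, hz.2.2 p j _ _ (gm_ne ha) (gm_ne hb)]
  exact h z hz _ _ (gm_ne ha) (gm_ne hb)

theorem cap_capped (hX : ∀ p j, ¬ X.Capped p j) (F : P → Fin 5 → Prop)
    (hF : ∀ p j, F p j → F (X.nb p j) (X.ix p j)) (p : P) (j : Fin 5) :
    (X.cap F hF).Capped p j ↔ F p j := by
  unfold Capped cap
  constructor
  · intro h
    by_contra h'
    simp only [h', if_false] at h
    exact hX p j h
  · intro h
    simp [h]

theorem cap_Z (hX : ∀ p j, ¬ X.Capped p j) :
    (X.cap X.Flat (fun _ _ h => X.flat_symm h)).Z = X.Z := by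
  have hcc := X.cap_capped hX X.Flat (fun _ _ h => X.flat_symm h)
  have hsym : ∀ p j, X.Flat p j → X.Flat (X.nb p j) (X.ix p j) := fun _ _ h => X.flat_symm h
  ext z
  constructor
  · rintro ⟨h1, h2, h3⟩
    refine ⟨h1, fun p j hc => absurd hc (hX p j), fun p j a b ha hb => ?_⟩
    by_cases hf : X.Flat p j
    · rw [h2 p j ((hcc p j).2 hf) a b ha hb]
      exact h2 _ _ ((hcc _ _).2 (hsym p j hf)) _ _ (gm_ne ha) (gm_ne hb)
    · have := h3 p j a b ha hb
      simpa [cap, hf] using this
  · rintro h
    have h' := h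
    obtain ⟨h1, h2, h3⟩ := h
    refine ⟨h1, fun p j hc a b ha hb => ((hcc p j).1 hc) z h' a b ha hb,
      fun p j a b ha hb => ?_⟩
    by_cases hf : X.Flat p j
    · simp [cap, hf, gm_id]
    · simpa [cap, hf] using h3 p j a b ha hb

theorem cap_flat (hX : ∀ p j, ¬ X.Capped p j) (p : P) (j : Fin 5) :
    (X.cap X.Flat (fun _ _ h => X.flat_symm h)).Flat p j ↔ X.Flat p j := by
  have hZ := X.cap_Z hX
  constructor
  · intro h z hz
    exact h z (by rw [hZ]; exact hz)
  · intro h z hz
    exact h z (by rw [hZ] at hz; exact hz)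

end CG

theorem T_Main (hL : S_L) (hS : S_S) (hG1 : S_G1) (hG2 : S_G2) (hPar : S_Par) (hPure : S_Pure)
    (hComp : S_Comp) : S_Main := by
  intro P _ _ X hc ho hX
  have hK : X.K = 0 := by
    unfold CG.K
    have : IsEmpty {x : P × Fin 5 // X.Capped x.1 x.2} := ⟨fun x => hX _ _ x.2⟩
    exact Nat.card_of_isEmpty
  have hL' := hL P X
  by_cases hflat : ∃ p j, X.Flat p j
  · have hsym : ∀ p j, X.Flat p j → X.Flat (X.nb p j) (X.ix p j) := fun _ _ h => X.flat_symm h
    have hS' := hS P X hX X.Flat hsym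
    have hpsi : (X.cap X.Flat hsym).Psi := by
      refine hComp (fun Q _ _ Y h1 h2 h3 h4 => Y.psi_conn hL hG1 hPar hPure h1 h2 h3 h4) P _
        ?_ ?_ ?_
      · obtain ⟨ε, h1, h2⟩ := ho
        refine ⟨ε, h1, fun p j hc' => ?_⟩
        have hf : ¬ X.Flat p j := fun hf => hc' ((X.cap_capped hX _ _ p j).2 hf)
        have := h2 p j (hX p j)
        simpa [CG.cap, hf] using this
      · intro p j hc' hf
        exact hc' ((X.cap_capped hX _ _ p j).2 ((X.cap_flat hX p j).1 hf))
      · intro S hS1 hS2
        by_contra hcon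
        push Not at hcon
        have hnf : ∀ p ∈ S, ∀ j, ¬ X.Flat p j := fun p hp j hf =>
          hcon p hp j ((X.cap_capped hX _ _ p j).2 hf)
        have hSu : S = Set.univ := by
          refine hc S hS1 (fun p hp j => ?_)
          have := hS2 p hp j
          simpa [CG.cap, hnf p hp j] using this
        obtain ⟨p, j, hf⟩ := hflat
        exact hnf p (by rw [hSu]; trivial) j hf
    have hw : (X.cap X.Flat hsym).w = X.w := by
      unfold CG.w
      rw [show (X.cap X.Flat hsym).Z = X.Z from X.cap_Z hX]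
    unfold CG.Psi at hpsi
    rw [hw] at hpsi
    omega
  · push Not at hflat
    have := hG2 P X hc (fun p j _ => hflat p j) hX
    omega

open OrderedTriangulation (coboundary)

theorem rank_nullity {P : Type} [Finite P] (X : OrderedTriangulation P) (k : ℕ) :
    Module.finrank ℚ ((X.cochains k).map coboundary) + Module.finrank ℚ (X.cocycles k) =
      Module.finrank ℚ (X.cochains k) := by
  cases nonempty_fintype P
  have h := LinearMap.finrank_range_add_finrank_ker
    ((coboundary (P := P)).domRestrict (X.cochains k))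
  rw [LinearMap.range_domRestrict] at h
  rw [← h]
  congr 1
  rw [LinearMap.ker_domRestrict]
  unfold OrderedTriangulation.cocycles
  have h2 : (LinearMap.ker (coboundary (P := P))).submoduleOf (X.cochains k) =
      (LinearMap.ker (coboundary (P := P))).comap (X.cochains k).subtype := rfl
  rw [← h2]
  have e := Submodule.submoduleOfEquivOfLe (M := P → Finset (Fin 5) → ℚ)
    (p := X.cochains k ⊓ LinearMap.ker coboundary) (q := X.cochains k) inf_le_left
  rw [← e.finrank_eq]
  have h3 : (X.cochains k ⊓ LinearMap.ker coboundary).submoduleOf (X.cochains k) =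
      (LinearMap.ker (coboundary (P := P))).submoduleOf (X.cochains k) := by
    ext x
    simp [Submodule.submoduleOf]
  rw [h3]

theorem T_Final (hMain : S_Main) (hc2 : S_c2) (hc1 : S_c1) (hz1 : S_z1) (hc3 : S_c3)
    (hr3 : S_r3) (hb2 : S_b2) (hb3 : S_b3) : S_Final := by
  intro P _ _ X hconn hor
  have hM := hMain P X.toCG
    (by
      intro S hS hcl
      obtain ⟨p, hp⟩ := hS
      ext q
      simp only [Set.mem_univ, iff_true]
      have := hconn p q
      induction this with
      | refl => exact hp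
      | tail _ hbc ih =>
        obtain ⟨i, rfl⟩ := hbc
        exact hcl _ ih i)
    (by
      obtain ⟨ε, h1, h2⟩ := hor
      exact ⟨ε, h1, fun p j _ => h2 p j⟩)
    (fun p j h => X.ne p j h)
  have h1 := hc2 P X
  have h2 := hc1 P X
  have h3 := hz1 P X
  have h4 := hc3 P X
  have h5 := hr3 P X hor
  have h6 := hb2 P X
  have h7 := hb3 P X
  have h8 := rank_nullity X 1
  omega

end Pool.Agent.H830.OT
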