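import Mathlib

/-!
# Ordered gluings of pentachora: combinatorial set-up

`V = Fin 5` are the vertices of a pentachoron, facet `j` is the one opposite to the vertex `j`,
i.e. the tetrahedron `V \ {j}`.  All gluings preserve the order of the vertices.
A facet `j` of `p` which is glued to itself is called *capped*; the four triangles of a capped
facet `V \ {j}` are identified in pairs by the order preserving maps: the triangle without the
vertex of rank `0` with the triangle without the vertex of rank `3`, and the triangle without the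
vertex of rank `1` with the triangle without the vertex of rank `2`.
-/

namespace Pool.Agent.H830.OT

/-- the rank (`0, 1, 2, 3`) of `a` in `V \ {i}`, for `a ≠ i` -/
def rk (i a : Fin 5) : ℕ := if a < i then a.val else a.val - 1

/-- the element of rank `r` (`0, 1, 2, 3`) of `V \ {j}` -/
def el (j : Fin 5) (r : ℕ) : Fin 5 := if r < j.val then Fin.ofNat 5 r else Fin.ofNat 5 (r + 1)

/-- the order preserving bijection `V \ {i} → V \ {j}`, extended by `i ↦ j` -/
def gm (i j a : Fin 5) : Fin 5 := if a = i then j else el j (rk i a)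

/-- the order reversing bijection of `V \ {j}`, extended by `j ↦ j` -/
def rev (j a : Fin 5) : Fin 5 := if a = j then j else el j (3 - rk j a)

/-- the permutation of `V` which fixes `j` and is used at a capped facet `j` for the triangle
`V \ {j, k}`: it maps `k` to `rev j k` and is order preserving on `V \ {j, k}` -/
def cc (j k a : Fin 5) : Fin 5 :=
  if a = j then j
  else if rk j k = 3 then el j ((rk j a + 1) % 4)
  else if rk j k = 0 then el j ((rk j a + 3) % 4)
  else if rk j a = 1 then el j 2
  else if rk j a = 2 then el j 1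
  else a

/-- triangles of a pentachoron with one of the two facets which contain them:
`(j, k)` is the triangle `V \ {j, k}` in the facet `V \ {j}` -/
abbrev TF : Type := {x : Fin 5 × Fin 5 // x.1 ≠ x.2}

/-- flags of a pentachoron: `(i, j, k)` is the edge `V \ {i, j, k}` in the triangle `V \ {j, k}`
in the facet `V \ {j}` -/
abbrev LF : Type :=
  {x : Fin 5 × Fin 5 × Fin 5 // x.1 ≠ x.2.1 ∧ x.1 ≠ x.2.2 ∧ x.2.1 ≠ x.2.2}

/-- edges of a pentachoron -/
abbrev EF : Type := {x : Fin 5 × Fin 5 // x.1 < x.2}

/-- the number of classes of the equivalence relation generated by `r` -/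
noncomputable def ncl {D : Type} (r : D → D → Prop) : ℕ := Nat.card (Quot r)

/-- An order preserving gluing of the facets of the pentachora `p : P`. -/
structure CG (P : Type) where
  nb : P → Fin 5 → P
  ix : P → Fin 5 → Fin 5
  nb_nb : ∀ p i, nb (nb p i) (ix p i) = p
  ix_ix : ∀ p i, ix (nb p i) (ix p i) = i

namespace CG

variable {P : Type} (X : CG P)

/-- facet `j` of `p` is capped (glued to itself) -/
def Capped (p : P) (j : Fin 5) : Prop := X.nb p j = p ∧ X.ix p j = j

open Classical in
/-- the vertex map when crossing facet `j` of `p` through the triangle `V \ {j, k}` -/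
noncomputable def tr (p : P) (j k a : Fin 5) : Fin 5 :=
  if X.Capped p j then cc j k a else gm j (X.ix p j) a

/-- `x, y` are adjacent triangles: same triangle, other facet; or crossing the facet -/
def relT (x y : P × TF) : Prop :=
  (y.1 = x.1 ∧ y.2.1 = (x.2.1.2, x.2.1.1)) ∨
  (y.1 = X.nb x.1 x.2.1.1 ∧
    y.2.1 = (X.tr x.1 x.2.1.1 x.2.1.2 x.2.1.1, X.tr x.1 x.2.1.1 x.2.1.2 x.2.1.2))

/-- the edge `x` is glued to the edge `y` by crossing some facet `j` through a triangle
`V \ {j, k}` of this facet -/
def relE (x y : P × EF) : Prop :=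
  ∃ j k : Fin 5, j ≠ k ∧ j ≠ x.2.1.1 ∧ j ≠ x.2.1.2 ∧ k ≠ x.2.1.1 ∧ k ≠ x.2.1.2 ∧
    y.1 = X.nb x.1 j ∧ y.2.1 = (X.tr x.1 j k x.2.1.1, X.tr x.1 j k x.2.1.2)

/-- number of triangle classes -/
noncomputable def T : ℕ := ncl X.relT

/-- number of edge classes -/
noncomputable def E : ℕ := ncl X.relE

/-- number of capped sides -/
noncomputable def K : ℕ := Nat.card {x : P × Fin 5 // X.Capped x.1 x.2}

/-- one-cocycles which vanish on the capped facets -/
def Z : Submodule ℚ (P → Fin 5 → Fin 5 → ℚ) where
  carrier := {z | (∀ p a b c, z p a b + z p b c = z p a c) ∧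
    (∀ p j, X.Capped p j → ∀ a b, a ≠ j → b ≠ j → z p a b = 0) ∧
    (∀ p j, ∀ a b, a ≠ j → b ≠ j →
      z (X.nb p j) (gm j (X.ix p j) a) (gm j (X.ix p j) b) = z p a b)}
  add_mem' := by
    rintro f g ⟨hf1, hf2, hf3⟩ ⟨hg1, hg2, hg3⟩
    refine ⟨fun p a b c => ?_, fun p j hc a b ha hb => ?_, fun p j a b ha hb => ?_⟩
    · have h1 := hf1 p a b c
      have h2 := hg1 p a b c
      simp only [Pi.add_apply]
      linarith
    · simp [hf2 p j hc a b ha hb, hg2 p j hc a b ha hb]
    · simp [hf3 p j a b ha hb, hg3 p j a b ha hb]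
  zero_mem' := by
    refine ⟨fun p a b c => by simp, fun p j _ a b _ _ => rfl, fun p j a b _ _ => rfl⟩
  smul_mem' := by
    rintro t f ⟨hf1, hf2, hf3⟩
    refine ⟨fun p a b c => ?_, fun p j hc a b ha hb => ?_, fun p j a b ha hb => ?_⟩
    · have h1 := hf1 p a b c
      simp only [Pi.smul_apply, smul_eq_mul]
      rw [← h1]; ring
    · simp [hf2 p j hc a b ha hb]
    · simp [hf3 p j a b ha hb]

/-- the dimension of the space of one-cocycles -/
noncomputable def w : ℕ := Module.finrank ℚ X.Z

/-- all one-cocycles vanish on the facet `j` of `p` -/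
def Flat (p : P) (j : Fin 5) : Prop :=
  ∀ z ∈ X.Z, ∀ a b, a ≠ j → b ≠ j → z p a b = 0

/-- all uncapped facets are nonflat -/
def NF : Prop := ∀ p j, ¬ X.Capped p j → ¬ X.Flat p j

/-- connected -/
def Conn : Prop := ∀ S : Set P, S.Nonempty → (∀ p ∈ S, ∀ j, X.nb p j ∈ S) → S = Set.univ

/-- oriented: the facets are glued by orientation reversing maps (the sign of facet `j` of `p`
is `ε p * (-1) ^ j`) -/
def Oriented : Prop := ∃ ε : P → ℤ, (∀ p, ε p = 1 ∨ ε p = -1) ∧
  ∀ p j, ¬ X.Capped p j → ε (X.nb p j) * (-1) ^ (X.ix p j).val = - (ε p * (-1) ^ j.val)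

open Classical in
/-- cap all the facets of a symmetric set `F` of facets -/
noncomputable def cap (F : P → Fin 5 → Prop) (hF : ∀ p j, F p j → F (X.nb p j) (X.ix p j)) :
    CG P where
  nb p j := if F p j then p else X.nb p j
  ix p j := if F p j then j else X.ix p j
  nb_nb p j := by
    by_cases h : F p j
    · simp [h]
    · have h' : ¬ F (X.nb p j) (X.ix p j) := fun h' => h (by
        have := hF _ _ h'
        rwa [X.nb_nb, X.ix_ix] at this)
      simp [h, h', X.nb_nb]
  ix_ix p j := by
    by_cases h : F p j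
    · simp [h]
    · have h' : ¬ F (X.nb p j) (X.ix p j) := fun h' => h (by
        have := hF _ _ h'
        rwa [X.nb_nb, X.ix_ix] at this)
      simp [h, h', X.ix_ix]

end CG

end Pool.Agent.H830.OT
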