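import Mathlib

/-!
# Ordered triangulations and their Betti numbers

`V = Fin 5` are the vertices of a pentachoron (4-simplex); the facet `i` is the tetrahedron opposite
to the vertex `i`; its vertices are `i.succAbove r`, `r : Fin 4`, in increasing order.
-/

namespace Pool.Agent.H830.OT

/-- An ordered triangulation (`Δ`-complex structure) without boundary, with the set `P` of
pentachora: the facet `i` (opposite to the vertex `i`) of the pentachoron `p` is glued to the facet
`ix p i` of the pentachoron `nb p i`, by the affine bijection which preserves the order of the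
vertices. -/
structure OrderedTriangulation (P : Type) where
  nb : P → Fin 5 → P
  ix : P → Fin 5 → Fin 5
  nb_nb : ∀ p i, nb (nb p i) (ix p i) = p
  ix_ix : ∀ p i, ix (nb p i) (ix p i) = i
  ne : ∀ p i, ¬ (nb p i = p ∧ ix p i = i)

namespace OrderedTriangulation

variable {P : Type} (X : OrderedTriangulation P)

/-- The `k`-dimensional rational cochains: functions `f` on the `k`-dimensional faces of the
pentachora (`f p s` is the value on the face of `p` with the vertex set `s`), which agree on faces
which are identified: facet `i` of `p` has the vertices `i.succAbove r`, `r : Fin 4`. -/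
def cochains (k : ℕ) : Submodule ℚ (P → Finset (Fin 5) → ℚ) where
  carrier := {f | (∀ p s, s.card ≠ k + 1 → f p s = 0) ∧
    ∀ p i (t : Finset (Fin 4)),
      f (X.nb p i) (t.map (X.ix p i).succAboveEmb) = f p (t.map i.succAboveEmb)}
  add_mem' := by
    rintro f g ⟨hf1, hf2⟩ ⟨hg1, hg2⟩
    exact ⟨fun p s h => by simp [hf1 p s h, hg1 p s h], fun p i t => by simp [hf2, hg2]⟩
  zero_mem' := ⟨fun _ _ _ => rfl, fun _ _ _ => rfl⟩
  smul_mem' := by
    rintro c f ⟨hf1, hf2⟩
    exact ⟨fun p s h => by simp [hf1 p s h], fun p i t => by simp [hf2]⟩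

/-- The simplicial coboundary operator. -/
def coboundary : (P → Finset (Fin 5) → ℚ) →ₗ[ℚ] (P → Finset (Fin 5) → ℚ) where
  toFun f p s := ∑ v ∈ s, (-1) ^ (s.filter (· < v)).card * f p (s.erase v)
  map_add' f g := by
    funext p s
    simp [mul_add, Finset.sum_add_distrib]
  map_smul' c f := by
    funext p s
    simp only [Pi.smul_apply, smul_eq_mul, RingHom.id_apply, Finset.mul_sum]
    exact Finset.sum_congr rfl fun v _ => by ring

/-- The `k`-cocycles. -/
def cocycles (k : ℕ) : Submodule ℚ (P → Finset (Fin 5) → ℚ) :=
  X.cochains k ⊓ LinearMap.ker coboundary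

/-- The `k`-coboundaries. -/
def coboundaries : ℕ → Submodule ℚ (P → Finset (Fin 5) → ℚ)
  | 0 => ⊥
  | k + 1 => (X.cochains k).map coboundary

/-- The `k`-th rational Betti number, the dimension of `H^k(X; ℚ)`. -/
noncomputable def betti (k : ℕ) : ℕ :=
  Module.finrank ℚ (↥(X.cocycles k) ⧸ (X.coboundaries k).submoduleOf (X.cocycles k))

/-- The triangulated space is connected. -/
def Connected : Prop := ∀ p q, Relation.ReflTransGen (fun a b => ∃ i, b = X.nb a i) p q

/-- The gluing maps reverse the orientations for some choice of orientations `ε p = ±1` of the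
pentachora; facet `i` of `p` has the sign `ε p * (-1) ^ i`. -/
def Orientable : Prop := ∃ ε : P → ℤ, (∀ p, ε p = 1 ∨ ε p = -1) ∧
  ∀ p i, ε (X.nb p i) * (-1) ^ (X.ix p i).val = - (ε p * (-1) ^ i.val)

end OrderedTriangulation

end Pool.Agent.H830.OT
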