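import Pool.Agent.H830.OT.Basic

/-!
# The flag involutions
-/

namespace Pool.Agent.H830.OT

/-! ### facts on the vertex maps -/

theorem gm_self (i j : Fin 5) : gm i j i = j := by simp [gm]

theorem gm_id (i a : Fin 5) : gm i i a = a := by revert i a; decide

theorem gm_gm (i j a : Fin 5) : gm j i (gm i j a) = a := by revert i j a; decide

theorem gm_trans (i j k a : Fin 5) : gm j k (gm i j a) = gm i k a := by revert i j k a; decide

theorem gm_inj {i j a b : Fin 5} (h : gm i j a = gm i j b) : a = b := by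
  rw [← gm_gm i j a, h, gm_gm]

theorem gm_ne {i j a : Fin 5} (h : a ≠ i) : gm i j a ≠ j := by
  intro h'; exact h (gm_inj (j := j) (by rw [h', gm_self]))

theorem gm_lt (i j a b : Fin 5) : a ≠ i → b ≠ i → a < b → gm i j a < gm i j b := by
  revert i j a b; decide

theorem rk_gm (i j a : Fin 5) : a ≠ i → rk j (gm i j a) = rk i a := by revert i j a; decide

theorem rev_self (j : Fin 5) : rev j j = j := by simp [rev]

theorem rev_rev (j a : Fin 5) : rev j (rev j a) = a := by revert j a; decide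

theorem rev_ne (j a : Fin 5) : a ≠ j → rev j a ≠ a := by revert j a; decide

theorem rev_ne' (j a : Fin 5) : a ≠ j → rev j a ≠ j := by revert j a; decide

theorem rk_rev (j a : Fin 5) : a ≠ j → rk j (rev j a) = 3 - rk j a := by revert j a; decide

theorem rk_le (j a : Fin 5) : a ≠ j → rk j a ≤ 3 := by revert j a; decide

theorem gm_rev (i j a : Fin 5) : gm i j (rev i a) = rev j (gm i j a) := by revert i j a; decide

theorem cc_self (j k : Fin 5) : cc j k j = j := by simp [cc]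

theorem cc_k (j k : Fin 5) : j ≠ k → cc j k k = rev j k := by revert j k; decide

theorem cc_cc (j k a : Fin 5) : j ≠ k → cc j (rev j k) (cc j k a) = a := by revert j k a; decide

theorem cc_inj {j k a b : Fin 5} (hjk : j ≠ k) (h : cc j k a = cc j k b) : a = b := by
  rw [← cc_cc j k a hjk, h, cc_cc j k b hjk]

theorem cc_lt (j k a b : Fin 5) : a ≠ j → a ≠ k → b ≠ j → b ≠ k → j ≠ k → a < b →
    cc j k a < cc j k b := by
  revert j k a b; decide

namespace CG

variable {P : Type} (X : CG P)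

theorem tr_self (p : P) (j k : Fin 5) : X.tr p j k j = X.ix p j := by
  unfold tr
  split_ifs with h
  · rw [cc_self, h.2]
  · exact gm_self _ _

theorem tr_inj {p : P} {j k a b : Fin 5} (hjk : j ≠ k) (h : X.tr p j k a = X.tr p j k b) :
    a = b := by
  unfold tr at h
  split_ifs at h
  · exact cc_inj hjk h
  · exact gm_inj h

theorem tr_lt (p : P) (j k a b : Fin 5) (haj : a ≠ j) (hak : a ≠ k) (hbj : b ≠ j) (hbk : b ≠ k)
    (hjk : j ≠ k) (hab : a < b) : X.tr p j k a < X.tr p j k b := by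
  unfold tr
  split_ifs
  · exact cc_lt j k a b haj hak hbj hbk hjk hab
  · exact gm_lt j _ a b haj hbj hab

theorem Capped.symm' {X : CG P} {p : P} {j : Fin 5} (h : X.Capped (X.nb p j) (X.ix p j)) :
    X.Capped p j := by
  obtain ⟨h1, h2⟩ := h
  rw [X.nb_nb] at h1
  rw [X.ix_ix] at h2
  exact ⟨h1.symm, h2.symm⟩

/-- crossing back -/
theorem tr_tr (p : P) (j k a : Fin 5) (hjk : j ≠ k) :
    X.tr (X.nb p j) (X.ix p j) (X.tr p j k k) (X.tr p j k a) = a := by
  by_cases h : X.Capped p j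
  · have h1 := h.1
    have h2 := h.2
    have e1 : ∀ b, X.tr p j k b = cc j k b := fun b => by unfold tr; rw [if_pos h]
    have e2 : ∀ k' b, X.tr (X.nb p j) (X.ix p j) k' b = cc j k' b := fun k' b => by
      rw [h1, h2]; unfold tr; rw [if_pos h]
    rw [e2, e1, e1, cc_k j k hjk, cc_cc j k a hjk]
  · have h' : ¬ X.Capped (X.nb p j) (X.ix p j) := fun h' => h h'.symm'
    unfold tr
    rw [if_neg h, if_neg h, if_neg h', X.ix_ix, gm_gm]

/-- swap of the facets of a triangle -/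
def iota (x : P × TF) : P × TF := (x.1, ⟨(x.2.1.2, x.2.1.1), x.2.2.symm⟩)

/-- crossing the facet -/
noncomputable def gamT (x : P × TF) : P × TF :=
  (X.nb x.1 x.2.1.1,
    ⟨(X.tr x.1 x.2.1.1 x.2.1.2 x.2.1.1, X.tr x.1 x.2.1.1 x.2.1.2 x.2.1.2),
      fun h => x.2.2 (X.tr_inj x.2.2 h)⟩)

/-- reversal of the facet -/
def nu (x : P × TF) : P × TF :=
  (x.1, ⟨(x.2.1.1, rev x.2.1.1 x.2.1.2), fun h => rev_ne' x.2.1.1 x.2.1.2 x.2.2.symm h.symm⟩)

theorem iota_iota (x : P × TF) : iota (iota x) = x := rfl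

theorem iota_ne (x : P × TF) : iota x ≠ x := by
  intro h
  have h1 := congrArg (fun y : P × TF => y.2.1.1) h
  exact x.2.2 h1.symm

theorem nu_nu (x : P × TF) : nu (nu x) = x := by
  obtain ⟨p, ⟨⟨j, k⟩, h⟩⟩ := x
  simp [nu, rev_rev]

theorem nu_ne (x : P × TF) : nu x ≠ x := by
  intro h
  have h1 := congrArg (fun y : P × TF => y.2.1.2) h
  exact rev_ne x.2.1.1 x.2.1.2 x.2.2.symm h1

theorem ext_TF {x y : P × TF} (h1 : x.1 = y.1) (h2 : x.2.1.1 = y.2.1.1)
    (h3 : x.2.1.2 = y.2.1.2) : x = y := by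
  obtain ⟨p, ⟨⟨j, k⟩, h⟩⟩ := x
  obtain ⟨p', ⟨⟨j', k'⟩, h'⟩⟩ := y
  simp only at h1 h2 h3
  subst h1 h2 h3
  rfl

theorem gamT_gamT (x : P × TF) : X.gamT (X.gamT x) = x := by
  obtain ⟨p, ⟨⟨j, k⟩, h⟩⟩ := x
  have hj : X.tr p j k j = X.ix p j := X.tr_self p j k
  refine ext_TF ?_ ?_ ?_
  · simp only [gamT, hj, X.nb_nb]
  · simp only [gamT, hj]
    have := X.tr_tr p j k j h
    rwa [hj] at this
  · simp only [gamT, hj]
    exact X.tr_tr p j k k h

theorem gamT_ne (x : P × TF) : X.gamT x ≠ x := by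
  obtain ⟨p, ⟨⟨j, k⟩, h⟩⟩ := x
  intro h'
  have h1 : X.nb p j = p := congrArg (fun y : P × TF => y.1) h'
  have h2 : X.tr p j k j = j := congrArg (fun y : P × TF => y.2.1.1) h'
  have h3 : X.tr p j k k = k := congrArg (fun y : P × TF => y.2.1.2) h'
  rw [X.tr_self] at h2
  have hc : X.Capped p j := ⟨h1, h2⟩
  unfold tr at h3
  rw [if_pos hc, cc_k j k h] at h3
  exact rev_ne j k h.symm h3

theorem relT_iff (x y : P × TF) : X.relT x y ↔ (y = iota x ∨ y = X.gamT x) := by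
  constructor
  · rintro (⟨h1, h2⟩ | ⟨h1, h2⟩)
    · left
      exact Prod.ext h1 (Subtype.ext h2)
    · right
      exact Prod.ext h1 (Subtype.ext h2)
  · rintro (h | h)
    · left; subst h; exact ⟨rfl, rfl⟩
    · right; subst h; exact ⟨rfl, rfl⟩

theorem T_eq : X.T = ncl (fun x y => y = iota x ∨ y = X.gamT x) := by
  unfold T
  congr 1
  funext x y
  exact propext (X.relT_iff x y)

/-! ### edge flags: `(i, j, k)` is the edge `V \ {i, j, k}` in the triangle `V \ {j, k}` in the facet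
`V \ {j}` -/

/-- swap `j, k` -/
def al (x : P × LF) : P × LF :=
  (x.1, ⟨(x.2.1.1, x.2.1.2.2, x.2.1.2.1), x.2.2.2.1, x.2.2.1, x.2.2.2.2.symm⟩)

/-- swap `i, k` -/
def be (x : P × LF) : P × LF :=
  (x.1, ⟨(x.2.1.2.2, x.2.1.2.1, x.2.1.1), x.2.2.2.2.symm, x.2.2.2.1.symm, x.2.2.1.symm⟩)

/-- crossing the facet -/
noncomputable def gamL (x : P × LF) : P × LF :=
  (X.nb x.1 x.2.1.2.1,
    ⟨(X.tr x.1 x.2.1.2.1 x.2.1.2.2 x.2.1.1, X.tr x.1 x.2.1.2.1 x.2.1.2.2 x.2.1.2.1,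
      X.tr x.1 x.2.1.2.1 x.2.1.2.2 x.2.1.2.2),
      fun h => x.2.2.1 (X.tr_inj x.2.2.2.2 h), fun h => x.2.2.2.1 (X.tr_inj x.2.2.2.2 h),
      fun h => x.2.2.2.2 (X.tr_inj x.2.2.2.2 h)⟩)

theorem ext_LF {x y : P × LF} (h1 : x.1 = y.1) (h2 : x.2.1.1 = y.2.1.1)
    (h3 : x.2.1.2.1 = y.2.1.2.1) (h4 : x.2.1.2.2 = y.2.1.2.2) : x = y := by
  obtain ⟨p, ⟨⟨i, j, k⟩, h⟩⟩ := x
  obtain ⟨p', ⟨⟨i', j', k'⟩, h'⟩⟩ := y
  simp only at h1 h2 h3 h4
  subst h1 h2 h3 h4
  rfl

theorem al_al (x : P × LF) : al (al x) = x := rfl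

theorem al_ne (x : P × LF) : al x ≠ x := by
  intro h
  have h1 := congrArg (fun y : P × LF => y.2.1.2.1) h
  exact x.2.2.2.2 h1.symm

theorem be_be (x : P × LF) : be (be x) = x := rfl

theorem be_ne (x : P × LF) : be x ≠ x := by
  intro h
  have h1 := congrArg (fun y : P × LF => y.2.1.1) h
  exact x.2.2.2.1 h1.symm

theorem gamL_gamL (x : P × LF) : X.gamL (X.gamL x) = x := by
  obtain ⟨p, ⟨⟨i, j, k⟩, h1, h2, h3⟩⟩ := x
  simp only at h1 h2 h3
  have hj : X.tr p j k j = X.ix p j := X.tr_self p j k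
  refine ext_LF ?_ ?_ ?_ ?_
  · simp only [gamL, hj, X.nb_nb]
  · simp only [gamL, hj]
    exact X.tr_tr p j k i h3
  · simp only [gamL, hj]
    have := X.tr_tr p j k j h3
    rwa [hj] at this
  · simp only [gamL, hj]
    exact X.tr_tr p j k k h3

theorem gamL_ne (x : P × LF) : X.gamL x ≠ x := by
  obtain ⟨p, ⟨⟨i, j, k⟩, g1, g2, g3⟩⟩ := x
  simp only at g1 g2 g3
  intro h'
  have h1 : X.nb p j = p := congrArg (fun y : P × LF => y.1) h'
  have h2 : X.tr p j k j = j := congrArg (fun y : P × LF => y.2.1.2.1) h'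
  have h3 : X.tr p j k k = k := congrArg (fun y : P × LF => y.2.1.2.2) h'
  rw [X.tr_self] at h2
  have hc : X.Capped p j := ⟨h1, h2⟩
  unfold tr at h3
  rw [if_pos hc, cc_k j k g3] at h3
  exact rev_ne j k g3.symm h3

end CG

end Pool.Agent.H830.OT
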