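import Pool.Agent.H830.OT.Stm

/-! S_A (helper353). -/

namespace Pool.Agent.H830.OT

namespace TA

open Module

variable {D : Type} [Fintype D] [DecidableEq D]

/-- functions invariant under a relation -/
def Inv (r : D → D → Prop) : Submodule (ZMod 2) (D → ZMod 2) where
  carrier := {f | ∀ x y, r x y → f x = f y}
  zero_mem' := fun _ _ _ => rfl
  add_mem' := by
    intro f g hf hg x y h
    simp only [Pi.add_apply]
    rw [hf x y h, hg x y h]
  smul_mem' := by
    intro c f hf x y h
    simp only [Pi.smul_apply]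
    rw [hf x y h]

omit [Fintype D] [DecidableEq D] in
theorem mem_Inv {r : D → D → Prop} {f : D → ZMod 2} : f ∈ Inv r ↔ ∀ x y, r x y → f x = f y := Iff.rfl

/-- invariant functions are functions on the quotient -/
def invEquiv (r : D → D → Prop) : Inv r ≃ₗ[ZMod 2] (Quot r → ZMod 2) where
  toFun f := Quot.lift f.1 f.2
  map_add' f g := by
    funext q
    induction q using Quot.ind
    rfl
  map_smul' c f := by
    funext q
    induction q using Quot.ind
    rfl
  invFun g := ⟨fun x => g (Quot.mk r x), fun x y h => congrArg g (Quot.sound h)⟩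
  left_inv f := rfl
  right_inv g := by
    funext q
    induction q using Quot.ind
    rfl

omit [DecidableEq D] in
theorem finrank_Inv (r : D → D → Prop) : finrank (ZMod 2) (Inv r) = ncl r := by
  classical
  have : Fintype (Quot r) := Fintype.ofFinite _
  rw [(invEquiv r).finrank_eq, finrank_pi, ncl, Nat.card_eq_fintype_card]

/-- functions invariant under a map -/
abbrev IA (a : D → D) : Submodule (ZMod 2) (D → ZMod 2) := Inv (fun x y => y = a x)

omit [Fintype D] [DecidableEq D] in
theorem mem_IA {a : D → D} {f : D → ZMod 2} : f ∈ IA a ↔ ∀ x, f (a x) = f x := by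
  rw [mem_Inv]
  constructor
  · intro h x
    exact (h x _ rfl).symm
  · rintro h x _ rfl
    exact (h x).symm

theorem two_add (x : ZMod 2) : x + x = 0 := by revert x; decide

theorem dp_apply (f g : D → ZMod 2) : dotProductEquiv (ZMod 2) D f g = ∑ x, f x * g x := rfl

omit [DecidableEq D] in
theorem half {a : D → D} (ha : ∀ x, a (a x) = x) (ha' : ∀ x, a x ≠ x) :
    2 * finrank (ZMod 2) (IA a) ≤ Fintype.card D := by
  classical
  have h1 : (IA a).map (dotProductEquiv (ZMod 2) D).toLinearMap ≤ (IA a).dualAnnihilator := by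
    rintro _ ⟨f, hf, rfl⟩
    rw [Submodule.mem_dualAnnihilator]
    intro g hg
    show dotProductEquiv (ZMod 2) D f g = 0
    rw [dp_apply]
    refine Finset.sum_involution (fun x _ => a x) ?_ ?_ (fun _ _ => Finset.mem_univ _) ?_
    · intro x _
      rw [mem_IA.1 hf, mem_IA.1 hg]
      exact two_add _
    · intro x _ _
      exact ha' x
    · intro x _
      exact ha x
  have h2 := Submodule.finrank_mono h1
  have h3 := LinearEquiv.finrank_map_eq (dotProductEquiv (ZMod 2) D) (IA a)
  have h4 := Subspace.finrank_add_finrank_dualAnnihilator_eq (IA a)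
  rw [finrank_fintype_fun_eq_card] at h4
  have h5 : finrank (ZMod 2) ((IA a).map (dotProductEquiv (ZMod 2) D).toLinearMap) =
    finrank (ZMod 2) (IA a) := h3
  omega

/-- the indicator function of `{x, a x}` -/
def ind (a : D → D) (x y : D) : ZMod 2 := if y = x ∨ y = a x then 1 else 0

omit [Fintype D] in
theorem ind_mem {a : D → D} (ha : ∀ x, a (a x) = x) (x : D) : ind a x ∈ IA a := by
  rw [mem_IA]
  intro y
  unfold ind
  have : (a y = x ∨ a y = a x) ↔ (y = x ∨ y = a x) := by
    constructor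
    · rintro (h | h)
      · right; rw [← h, ha]
      · left; rw [← ha y, h, ha]
    · rintro (h | h)
      · right; rw [h]
      · left; rw [h, ha]
  simp only [this]

theorem ann {a : D → D} (ha : ∀ x, a (a x) = x) (ha' : ∀ x, a x ≠ x) (W : Submodule (ZMod 2) (D → ZMod 2))
    (hW : IA a ≤ W) (h : D → ZMod 2) (hh : dotProductEquiv (ZMod 2) D h ∈ W.dualAnnihilator) :
    h ∈ IA a := by
  rw [Submodule.mem_dualAnnihilator] at hh
  rw [mem_IA]
  intro x
  have h1 := hh _ (hW (ind_mem ha x))
  rw [dp_apply] at h1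
  have h2 : ∑ y, h y * ind a x y = ∑ y ∈ ({x, a x} : Finset D), h y := by
    rw [← Finset.sum_filter_add_sum_filter_not Finset.univ (fun y => y = x ∨ y = a x)]
    have e1 : Finset.univ.filter (fun y => y = x ∨ y = a x) = ({x, a x} : Finset D) := by
      ext y; simp
    have e2 : ∑ y ∈ Finset.univ.filter (fun y => ¬ (y = x ∨ y = a x)), h y * ind a x y = 0 := by
      apply Finset.sum_eq_zero
      intro y hy
      rw [Finset.mem_filter] at hy
      unfold ind
      rw [if_neg hy.2, mul_zero]
    rw [e1, e2, add_zero]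
    apply Finset.sum_congr rfl
    intro y hy
    unfold ind
    rw [if_pos (by simpa using hy), mul_one]
  rw [h2, Finset.sum_pair (ha' x).symm] at h1
  calc h (a x) = h x + h x + h (a x) := by rw [two_add, zero_add]
    _ = h x := by rw [add_assoc, h1, add_zero]

end TA

open TA Module in
theorem T_A : S_A := by
  intro D _ a b c ha ha' hb hb' hc hc'
  classical
  have := Fintype.ofFinite D
  have fAB : Inv (fun x y : D => y = a x ∨ y = b x) = IA a ⊓ IA b := by
    ext f
    rw [Submodule.mem_inf, mem_IA, mem_IA, mem_Inv]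
    constructor
    · intro h
      exact ⟨fun x => (h x _ (Or.inl rfl)).symm, fun x => (h x _ (Or.inr rfl)).symm⟩
    · rintro ⟨h1, h2⟩ x y (rfl | rfl)
      · exact (h1 x).symm
      · exact (h2 x).symm
  have fBC : Inv (fun x y : D => y = b x ∨ y = c x) = IA b ⊓ IA c := by
    ext f
    rw [Submodule.mem_inf, mem_IA, mem_IA, mem_Inv]
    constructor
    · intro h
      exact ⟨fun x => (h x _ (Or.inl rfl)).symm, fun x => (h x _ (Or.inr rfl)).symm⟩
    · rintro ⟨h1, h2⟩ x y (rfl | rfl)
      · exact (h1 x).symm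
      · exact (h2 x).symm
  have fAC : Inv (fun x y : D => y = a x ∨ y = c x) = IA a ⊓ IA c := by
    ext f
    rw [Submodule.mem_inf, mem_IA, mem_IA, mem_Inv]
    constructor
    · intro h
      exact ⟨fun x => (h x _ (Or.inl rfl)).symm, fun x => (h x _ (Or.inr rfl)).symm⟩
    · rintro ⟨h1, h2⟩ x y (rfl | rfl)
      · exact (h1 x).symm
      · exact (h2 x).symm
  have fABC : Inv (fun x y : D => y = a x ∨ y = b x ∨ y = c x) = IA a ⊓ IA b ⊓ IA c := by
    ext f
    rw [Submodule.mem_inf, Submodule.mem_inf, mem_IA, mem_IA, mem_IA, mem_Inv]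
    constructor
    · intro h
      exact ⟨⟨fun x => (h x _ (Or.inl rfl)).symm, fun x => (h x _ (Or.inr (Or.inl rfl))).symm⟩,
        fun x => (h x _ (Or.inr (Or.inr rfl))).symm⟩
    · rintro ⟨⟨h1, h2⟩, h3⟩ x y (rfl | rfl | rfl)
      · exact (h1 x).symm
      · exact (h2 x).symm
      · exact (h3 x).symm
  rw [← finrank_Inv, ← finrank_Inv, ← finrank_Inv, ← finrank_Inv, fAB, fBC, fAC, fABC,
    Nat.card_eq_fintype_card]
  set A := IA a
  set B := IA b
  set C := IA c
  have hA : 2 * finrank (ZMod 2) A ≤ Fintype.card D := half ha ha'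
  have hB : 2 * finrank (ZMod 2) B ≤ Fintype.card D := half hb hb'
  have hC : 2 * finrank (ZMod 2) C ≤ Fintype.card D := half hc hc'
  have e1 := Submodule.finrank_sup_add_finrank_inf_eq (A ⊓ B) (A ⊓ C)
  have e2 := Submodule.finrank_sup_add_finrank_inf_eq A (B ⊔ C)
  have e3 := Submodule.finrank_sup_add_finrank_inf_eq B C
  have e4 : (A ⊓ B) ⊓ (A ⊓ C) = A ⊓ B ⊓ C := by
    rw [inf_inf_inf_comm, inf_idem, inf_assoc]
  rw [e4] at e1
  have e5 : finrank (ZMod 2) ((A ⊓ B) ⊔ (A ⊓ C) : Submodule (ZMod 2) (D → ZMod 2)) ≤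
      finrank (ZMod 2) (A ⊓ (B ⊔ C) : Submodule (ZMod 2) (D → ZMod 2)) :=
    Submodule.finrank_mono (sup_le (inf_le_inf_left _ le_sup_left) (inf_le_inf_left _ le_sup_right))
  have e6 := Subspace.finrank_add_finrank_dualAnnihilator_eq (A ⊔ (B ⊔ C))
  rw [finrank_fintype_fun_eq_card] at e6
  have e7 : (A ⊔ (B ⊔ C)).dualAnnihilator ≤
      (A ⊓ B ⊓ C).map (dotProductEquiv (ZMod 2) D).toLinearMap := by
    intro φ hφ
    obtain ⟨h, rfl⟩ := (dotProductEquiv (ZMod 2) D).surjective φ
    refine ⟨h, ?_, rfl⟩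
    refine ⟨⟨ann ha ha' _ le_sup_left h hφ,
      ann hb hb' _ (le_sup_left.trans le_sup_right) h hφ⟩,
      ann hc hc' _ (le_sup_right.trans le_sup_right) h hφ⟩
  have e8 := Submodule.finrank_mono e7
  have e9 : finrank (ZMod 2) ((A ⊓ B ⊓ C).map (dotProductEquiv (ZMod 2) D).toLinearMap) =
    finrank (ZMod 2) (A ⊓ B ⊓ C : Submodule (ZMod 2) (D → ZMod 2)) :=
    LinearEquiv.finrank_map_eq (dotProductEquiv (ZMod 2) D) (A ⊓ B ⊓ C)
  have e10 := e8.trans e9.le
  omega

end Pool.Agent.H830.OT
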