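import Pool.Agent.H830.OT.Stm

/-!
# OT, B: parity of the orbit counts of three sign changing involutions (helper784)
-/

namespace Pool.Agent.H830.OT

namespace TBaux

open Equiv Equiv.Perm

/-! ### the sign of a permutation and the number of its orbits -/

section sign

variable {α : Type} [Fintype α] [DecidableEq α] (f : Perm α)

/-- the class of `x`: a nontrivial cycle or a fixed point -/
def cls (x : α) : f.cycleFactorsFinset ⊕ {x : α // f x = x} :=
  if h : f x = x then Sum.inr ⟨x, h⟩
  else Sum.inl ⟨f.cycleOf x, cycleOf_mem_cycleFactorsFinset_iff.2 (mem_support.2 h)⟩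

theorem cls_eq_iff (x y : α) : cls f x = cls f y ↔ f.SameCycle x y := by
  unfold cls
  by_cases hx : f x = x
  · by_cases hy : f y = y
    · rw [dif_pos hx, dif_pos hy, Sum.inr.injEq, Subtype.mk.injEq]
      constructor
      · rintro rfl
        exact SameCycle.refl _ _
      · rintro ⟨i, hi⟩
        rw [zpow_apply_eq_self_of_apply_eq_self hx] at hi
        exact hi
    · rw [dif_pos hx, dif_neg hy]
      constructor
      · intro h
        cases h
      · rintro ⟨i, hi⟩
        rw [zpow_apply_eq_self_of_apply_eq_self hx] at hi
        rw [hi] at hx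
        exact absurd hx hy
  · by_cases hy : f y = y
    · rw [dif_neg hx, dif_pos hy]
      constructor
      · intro h
        cases h
      · intro h
        obtain ⟨i, hi⟩ := h.symm
        rw [zpow_apply_eq_self_of_apply_eq_self hy] at hi
        rw [hi] at hy
        exact absurd hy hx
    · rw [dif_neg hx, dif_neg hy, Sum.inl.injEq, Subtype.mk.injEq]
      constructor
      · intro h
        have h1 : y ∈ (f.cycleOf y).support := by
          rw [mem_support_cycleOf_iff]
          exact ⟨SameCycle.refl _ _, mem_support.2 hy⟩
        rw [← h, mem_support_cycleOf_iff] at h1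
        exact h1.1
      · intro h
        exact h.cycleOf_eq

theorem cls_surj : Function.Surjective (cls f) := by
  rintro (⟨c, hc⟩ | ⟨x, hx⟩)
  · have hc2 := (mem_cycleFactorsFinset_iff.1 hc).1
    obtain ⟨x, hx⟩ := hc2.nonempty_support
    have h1 : c = f.cycleOf x := cycle_is_cycleOf hx hc
    have h2 : ¬ f x = x := by
      have h3 : f.cycleOf x ∈ f.cycleFactorsFinset := h1 ▸ hc
      exact mem_support.1 (cycleOf_mem_cycleFactorsFinset_iff.1 h3)
    refine ⟨x, ?_⟩
    unfold cls
    rw [dif_neg h2, Sum.inl.injEq, Subtype.mk.injEq]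
    exact h1.symm
  · refine ⟨x, ?_⟩
    unfold cls
    rw [dif_pos hx]

/-- the orbits of `f` -/
theorem card_orbits : Nat.card (Quotient (SameCycle.setoid f)) =
    f.cycleFactorsFinset.card + Fintype.card {x : α // f x = x} := by
  have h1 : Nat.card (Quotient (SameCycle.setoid f)) =
      Nat.card (f.cycleFactorsFinset ⊕ {x : α // f x = x}) := by
    refine Nat.card_eq_of_bijective (Quotient.lift (cls f) (fun x y h => (cls_eq_iff f x y).2 h)) ?_
    constructor
    · intro q q'
      refine Quotient.inductionOn₂ q q' fun x y h => ?_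
      exact Quotient.sound ((cls_eq_iff f x y).1 h)
    · intro z
      obtain ⟨x, hx⟩ := cls_surj f z
      exact ⟨Quotient.mk _ x, hx⟩
  rw [h1, Nat.card_eq_fintype_card, Fintype.card_sum, Fintype.card_coe]

theorem sign_eq : (Perm.sign f : ℤ) = (-1) ^ (Fintype.card α +
    Nat.card (Quotient (SameCycle.setoid f))) := by
  rw [sign_of_cycleType, card_orbits f]
  have h1 : f.cycleType.sum = f.support.card := sum_cycleType f
  have h2 : Multiset.card f.cycleType = f.cycleFactorsFinset.card := by
    rw [cycleType_def, Multiset.card_map]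
    rfl
  have h3 : Fintype.card α = f.support.card + Fintype.card {x : α // f x = x} := by
    rw [Fintype.card_subtype, ← Finset.card_univ,
      ← Finset.card_filter_add_card_filter_not (s := (Finset.univ : Finset α)) (fun x => f x ≠ x)]
    congr 1
    simp
  rw [h1, h2, h3]
  push_cast
  have h4 : f.support.card + Fintype.card {x : α // f x = x} +
      (f.cycleFactorsFinset.card + Fintype.card {x : α // f x = x}) =
      (f.support.card + f.cycleFactorsFinset.card) + 2 * Fintype.card {x : α // f x = x} := by ring
  rw [h4, pow_add _ _ (2 * _), pow_mul]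
  norm_num

end sign

/-! ### two involutions -/

section two

variable {D : Type} {s : D → Bool} {a b : D → D}

/-- the composition on the positive elements -/
def sg (a b : D → D) (ha : ∀ x, a (a x) = x) (has : ∀ x, s (a x) = !s x)
    (hb : ∀ x, b (b x) = x) (hbs : ∀ x, s (b x) = !s x) : Perm {x : D // s x = true} where
  toFun x := ⟨a (b x.1), by rw [has, hbs, x.2]; rfl⟩
  invFun x := ⟨b (a x.1), by rw [hbs, has, x.2]; rfl⟩
  left_inv x := by
    apply Subtype.ext
    show b (a (a (b x.1))) = x.1
    rw [ha, hb]
  right_inv x := by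
    apply Subtype.ext
    show a (b (b (a x.1))) = x.1
    rw [hb, ha]

theorem zpow_inv {β γ : Type} (f : Perm β) (g : β → γ) (hg : ∀ x, g (f x) = g x) (i : ℤ) (x : β) :
    g ((f ^ i) x) = g x := by
  have hg' : ∀ x, g (f⁻¹ x) = g x := fun x => by
    rw [← hg (f⁻¹ x)]
    simp
  induction i using Int.induction_on with
  | zero => simp
  | succ n ih => rw [add_comm, zpow_add, Perm.mul_apply, zpow_one, hg, ih]
  | pred n ih => rw [sub_eq_add_neg, add_comm, zpow_add, Perm.mul_apply, zpow_neg_one, hg', ih]

theorem ncl_eq (ha : ∀ x, a (a x) = x) (has : ∀ x, s (a x) = !s x)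
    (hb : ∀ x, b (b x) = x) (hbs : ∀ x, s (b x) = !s x) :
    ncl (fun x y => y = a x ∨ y = b x) =
      Nat.card (Quotient (SameCycle.setoid (sg a b ha has hb hbs))) := by
  set f := sg a b ha has hb hbs with hf
  have hfx : ∀ x, (f x).1 = a (b x.1) := fun x => rfl
  -- the map to the cycles
  have hs1 : ∀ x : D, ¬ s x = true → s (a x) = true := fun x hx => by
    rw [has]
    simpa using hx
  set F : D → Quotient (SameCycle.setoid f) := fun x =>
    if h : s x = true then Quotient.mk _ ⟨x, h⟩ else Quotient.mk _ ⟨a x, hs1 x h⟩ with hF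
  have hFa : ∀ x, F (a x) = F x := by
    intro x
    by_cases h : s x = true
    · have h' : ¬ s (a x) = true := by rw [has, h]; simp
      simp only [hF, dif_pos h, dif_neg h']
      congr 1
      apply Subtype.ext
      exact ha x
    · have h' : s (a x) = true := hs1 x h
      simp only [hF, dif_neg h, dif_pos h']
  have hFb : ∀ x, F (b x) = F x := by
    intro x
    by_cases h : s x = true
    · have h' : ¬ s (b x) = true := by rw [hbs, h]; simp
      simp only [hF, dif_pos h, dif_neg h']
      apply Quotient.sound
      refine ⟨-1, ?_⟩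
      rw [zpow_neg_one, Perm.inv_eq_iff_eq]
      apply Subtype.ext
      rfl
    · have h' : s (b x) = true := by rw [hbs]; simpa using h
      simp only [hF, dif_neg h, dif_pos h']
      apply Quotient.sound
      refine ⟨1, ?_⟩
      rw [zpow_one]
      apply Subtype.ext
      rw [hfx, hb]
  have hFr : ∀ x y, (y = a x ∨ y = b x) → F x = F y := by
    rintro x y (rfl | rfl)
    · exact (hFa x).symm
    · exact (hFb x).symm
  unfold ncl
  refine Nat.card_congr ⟨Quot.lift F hFr, Quotient.lift
    (fun x => Quot.mk (fun x y => y = a x ∨ y = b x) x.1) ?_, ?_, ?_⟩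
  · rintro x y ⟨i, hi⟩
    rw [← hi]
    refine (zpow_inv f (fun x => Quot.mk (fun x y => y = a x ∨ y = b x) x.1) ?_ i x).symm
    intro z
    show Quot.mk _ (a (b z.1)) = Quot.mk _ z.1
    have h1 : Quot.mk (fun x y => y = a x ∨ y = b x) z.1 = Quot.mk _ (b z.1) :=
      Quot.sound (Or.inr rfl)
    have h2 : Quot.mk (fun x y => y = a x ∨ y = b x) (b z.1) = Quot.mk _ (a (b z.1)) :=
      Quot.sound (Or.inl rfl)
    rw [h1, h2]
  · intro q
    induction q using Quot.inductionOn with
    | h x =>
      show Quotient.lift _ _ (F x) = _
      by_cases h : s x = true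
      · simp only [hF, dif_pos h]
        rfl
      · simp only [hF, dif_neg h]
        show Quot.mk (fun x y : D => y = a x ∨ y = b x) (a x) =
          Quot.mk (fun x y : D => y = a x ∨ y = b x) x
        exact (Quot.sound (r := fun x y : D => y = a x ∨ y = b x)
          (a := x) (b := a x) (Or.inl rfl)).symm
  · intro q
    induction q using Quotient.inductionOn with
    | h x =>
      show F x.1 = _
      simp only [hF, dif_pos x.2]

end two

end TBaux

open TBaux Equiv Equiv.Perm in
theorem T_B : S_B := by
  intro D _ s a b c ha has hb hbs hc hcs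
  classical
  have : Fintype D := Fintype.ofFinite D
  have hac : ncl (fun x y => y = a x ∨ y = c x) = ncl (fun x y : D => y = c x ∨ y = a x) := by
    have : (fun x y : D => y = a x ∨ y = c x) = (fun x y : D => y = c x ∨ y = a x) := by
      funext x y
      exact propext or_comm
    rw [this]
  rw [hac, ncl_eq ha has hb hbs, ncl_eq hb hbs hc hcs, ncl_eq hc hcs ha has]
  have h1 := sign_eq (sg a b ha has hb hbs)
  have h2 := sign_eq (sg b c hb hbs hc hcs)
  have h3 := sign_eq (sg c a hc hcs ha has)
  have h4 : sg a b ha has hb hbs * sg b c hb hbs hc hcs * sg c a hc hcs ha has = 1 := by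
    apply Equiv.ext
    intro x
    apply Subtype.ext
    show a (b (b (c (c (a x.1))))) = x.1
    rw [hb, hc, ha]
  have h5 := congrArg (fun g => ((Perm.sign g : ℤˣ) : ℤ)) h4
  simp only [Perm.sign_mul, Units.val_mul, Perm.sign_one, Units.val_one] at h5
  rw [h1, h2, h3, ← pow_add, ← pow_add] at h5
  have h6 : Nat.card D = 2 * Fintype.card {x : D // s x = true} := by
    rw [Nat.card_eq_fintype_card]
    have e1 : Fintype.card D = Fintype.card {x : D // s x = true} +
        Fintype.card {x : D // ¬ s x = true} := by
      rw [Fintype.card_subtype_compl]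
      have := Fintype.card_subtype_le (fun x : D => s x = true)
      omega
    have e2 : Fintype.card {x : D // ¬ s x = true} = Fintype.card {x : D // s x = true} := by
      refine Fintype.card_congr ⟨fun x => ⟨a x.1, ?_⟩, fun x => ⟨a x.1, ?_⟩, fun x => ?_, fun x => ?_⟩
      · rw [has]
        simpa using x.2
      · rw [has, x.2]
        simp
      · exact Subtype.ext (ha x.1)
      · exact Subtype.ext (ha x.1)
    omega
  rw [h6]
  rcases Nat.even_or_odd (Fintype.card {x : D // s x = true} +
    Nat.card (Quotient (SameCycle.setoid (sg a b ha has hb hbs))) +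
    (Fintype.card {x : D // s x = true} +
      Nat.card (Quotient (SameCycle.setoid (sg b c hb hbs hc hcs)))) +
    (Fintype.card {x : D // s x = true} +
      Nat.card (Quotient (SameCycle.setoid (sg c a hc hcs ha has))))) with h | h
  · obtain ⟨k, hk⟩ := h
    omega
  · rw [h.neg_one_pow] at h5
    norm_num at h5

end Pool.Agent.H830.OT
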