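import Pool.Agent.H830.OT.Tri

/-!
# S_b2 and S_b3 (helper249 for helper830)
-/

namespace Pool.Agent.H830.OT

open OrderedTriangulation (coboundary)

namespace BBaux

open Module

section

variable {E : Type} [AddCommGroup E] [Module ℚ E] [FiniteDimensional ℚ E]

omit [FiniteDimensional ℚ E] in
theorem finrank_comap (C D : Submodule ℚ E) :
    finrank ℚ (D.comap C.subtype) = finrank ℚ (C ⊓ D : Submodule ℚ E) := by
  rw [← Submodule.map_comap_subtype, Submodule.finrank_map_subtype_eq]

theorem rk_null (C : Submodule ℚ E) (d : E →ₗ[ℚ] E) :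
    finrank ℚ (C.map d) + finrank ℚ (C ⊓ LinearMap.ker d : Submodule ℚ E) = finrank ℚ C := by
  have h := LinearMap.finrank_range_add_finrank_ker (d.domRestrict C)
  rw [LinearMap.range_domRestrict, LinearMap.ker_domRestrict] at h
  rw [← finrank_comap]
  exact h

end

variable {P : Type}

theorem cob_apply (f : P → Finset (Fin 5) → ℚ) (p : P) (s : Finset (Fin 5)) :
    coboundary f p s = ∑ v ∈ s, (-1) ^ (s.filter (· < v)).card * f p (s.erase v) := rfl

theorem cob_map (f : P → Finset (Fin 5) → ℚ) (q : P) (i : Fin 5) (t : Finset (Fin 4)) :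
    coboundary f q (t.map i.succAboveEmb) =
      ∑ r ∈ t, (-1) ^ (t.filter (· < r)).card * f q ((t.erase r).map i.succAboveEmb) := by
  rw [cob_apply, Finset.sum_map]
  refine Finset.sum_congr rfl fun r _ => ?_
  rw [Finset.map_erase, Finset.filter_map, Finset.card_map]
  have h : ((fun x => x < i.succAboveEmb r) ∘ i.succAboveEmb) = fun x => x < r := by
    funext x
    exact propext (Fin.succAbove_lt_succAbove_iff)
  simp only [h]

theorem card_erase_filter {s : Finset (Fin 5)} {v w : Fin 5} (hv : v ∈ s) :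
    ((s.erase v).filter (· < w)).card + (if v < w then 1 else 0) = (s.filter (· < w)).card := by
  by_cases h : v < w
  · rw [if_pos h, Finset.filter_erase]
    rw [Finset.card_erase_of_mem (Finset.mem_filter.2 ⟨hv, h⟩)]
    have : 0 < (s.filter (· < w)).card := Finset.card_pos.2 ⟨v, Finset.mem_filter.2 ⟨hv, h⟩⟩
    omega
  · rw [if_neg h, add_zero, Finset.filter_erase, Finset.erase_eq_of_notMem]
    intro hm
    exact h (Finset.mem_filter.1 hm).2

theorem sign_cancel {s : Finset (Fin 5)} {v w : Fin 5} (hv : v ∈ s) (hw : w ∈ s) (hvw : v ≠ w) :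
    ((-1 : ℚ) ^ (s.filter (· < v)).card * (-1) ^ ((s.erase v).filter (· < w)).card) +
      (-1 : ℚ) ^ (s.filter (· < w)).card * (-1) ^ ((s.erase w).filter (· < v)).card = 0 := by
  have h1 := card_erase_filter (w := w) hv
  have h2 := card_erase_filter (w := v) hw
  rw [← h1, ← h2]
  rcases lt_or_gt_of_ne hvw with h | h
  · rw [if_pos h, if_neg (not_lt.2 h.le), add_zero]
    ring
  · rw [if_pos h, if_neg (not_lt.2 h.le), add_zero]
    ring

theorem dd (f : P → Finset (Fin 5) → ℚ) : coboundary (coboundary f) = 0 := by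
  funext p s
  rw [cob_apply]
  have h1 : ∀ v ∈ s, (-1 : ℚ) ^ (s.filter (· < v)).card * coboundary f p (s.erase v) =
      ∑ w ∈ s.erase v, ((-1 : ℚ) ^ (s.filter (· < v)).card *
        (-1) ^ ((s.erase v).filter (· < w)).card) * f p ((s.erase v).erase w) := by
    intro v _
    rw [cob_apply, Finset.mul_sum]
    refine Finset.sum_congr rfl fun w _ => ?_
    ring
  rw [Finset.sum_congr rfl h1, Finset.sum_sigma']
  refine Finset.sum_involution (fun x _ => ⟨x.2, x.1⟩) ?_ ?_ ?_ ?_
  · rintro ⟨v, w⟩ h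
    simp only [Finset.mem_sigma, Finset.mem_erase] at h
    obtain ⟨h1, h2, h3⟩ := h
    have h4 := sign_cancel h1 h3 (Ne.symm h2)
    simp only
    rw [Finset.erase_right_comm (a := w) (b := v), ← add_mul, h4, zero_mul]
  · rintro ⟨v, w⟩ h _ he
    simp only [Finset.mem_sigma, Finset.mem_erase] at h
    have h5 := congrArg Sigma.fst he
    exact h.2.1 h5
  · rintro ⟨v, w⟩ h
    simp only [Finset.mem_sigma, Finset.mem_erase] at h ⊢
    exact ⟨h.2.2, Ne.symm h.2.1, h.1⟩
  · rintro ⟨v, w⟩ _
    rfl

theorem cob_mem (X : OrderedTriangulation P) (k : ℕ) (f : P → Finset (Fin 5) → ℚ)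
    (hf : f ∈ X.cochains k) : coboundary f ∈ X.cochains (k + 1) := by
  obtain ⟨hf1, hf2⟩ := hf
  refine ⟨fun p s hs => ?_, fun p i t => ?_⟩
  · rw [cob_apply]
    refine Finset.sum_eq_zero fun v hv => ?_
    rw [hf1 p (s.erase v), mul_zero]
    rw [Finset.card_erase_of_mem hv]
    have : 0 < s.card := Finset.card_pos.2 ⟨v, hv⟩
    omega
  · rw [cob_map, cob_map]
    refine Finset.sum_congr rfl fun r _ => ?_
    rw [hf2 p i (t.erase r)]

theorem le_cocycles (X : OrderedTriangulation P) (k : ℕ) :
    X.coboundaries (k + 1) ≤ X.cocycles (k + 1) := by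
  intro g hg
  obtain ⟨f, hf, rfl⟩ := (Submodule.mem_map.1 hg : ∃ f ∈ X.cochains k, coboundary f = g)
  refine Submodule.mem_inf.2 ⟨cob_mem X k f hf, ?_⟩
  rw [LinearMap.mem_ker]
  exact dd f

theorem betti_eq [Finite P] (X : OrderedTriangulation P) (k : ℕ) :
    X.betti k + finrank ℚ (X.cocycles k ⊓ X.coboundaries k : Submodule ℚ _) =
      finrank ℚ (X.cocycles k) := by
  have h := Submodule.finrank_quotient_add_finrank ((X.coboundaries k).submoduleOf (X.cocycles k))
  have h2 : finrank ℚ ((X.coboundaries k).submoduleOf (X.cocycles k)) =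
      finrank ℚ (X.cocycles k ⊓ X.coboundaries k : Submodule ℚ _) :=
    finrank_comap (X.cocycles k) (X.coboundaries k)
  rw [h2] at h
  exact h

end BBaux

open BBaux in
theorem T_b2 : S_b2 := by
  intro P _ X
  have h1 := betti_eq X 2
  have h2 := rk_null (X.cochains 2) (coboundary (P := P))
  have h3 : X.cocycles 2 ⊓ X.coboundaries 2 = (X.cochains 1).map coboundary :=
    inf_eq_right.2 (le_cocycles X 1)
  have h4 : X.cocycles 2 = X.cochains 2 ⊓ LinearMap.ker coboundary := rfl
  rw [h3, h4] at h1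
  omega

open BBaux in
theorem T_b3 : S_b3 := by
  intro P _ X
  have h1 := betti_eq X 3
  have h2 := rk_null (X.cochains 3) (coboundary (P := P))
  have h3 : Module.finrank ℚ (X.cocycles 3 ⊓ X.coboundaries 3 : Submodule ℚ _) ≤
      Module.finrank ℚ (X.coboundaries 3) := Submodule.finrank_mono inf_le_right
  have h5 : Module.finrank ℚ (X.coboundaries 3) =
    Module.finrank ℚ ((X.cochains 2).map coboundary) := rfl
  have h4 : Module.finrank ℚ (X.cocycles 3) =
    Module.finrank ℚ (X.cochains 3 ⊓ LinearMap.ker coboundary : Submodule ℚ _) := rfl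
  omega

end Pool.Agent.H830.OT
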