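import Pool.Agent.H830.OT.Tri
import Pool.Agent.H830.OT.Flags

/-!
# Cochains and classes
-/

set_option autoImplicit false

namespace Pool.Agent.H830.OT

namespace C12aux

open OrderedTriangulation

theorem gm_sA (i j : Fin 5) (r : Fin 4) : gm i j (i.succAbove r) = j.succAbove r := by
  revert i j r; decide

theorem map_compl (i j k : Fin 5) : k ≠ i →
    (Finset.univ.filter fun r : Fin 4 => i.succAbove r ≠ k).map j.succAboveEmb = {j, gm i j k}ᶜ := by
  revert i j k; decide

theorem exists_sA (j a : Fin 5) : a ≠ j → ∃ r : Fin 4, j.succAbove r = a := by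
  revert j a; decide

theorem sA_lt (j : Fin 5) (r s : Fin 4) : r < s → j.succAbove r < j.succAbove s := by
  revert j r s; decide

theorem sA_lt' (j : Fin 5) (r s : Fin 4) : j.succAbove r < j.succAbove s → r < s := by
  revert j r s; decide

theorem exists_other (j a b : Fin 5) : ∃ k : Fin 5, j ≠ k ∧ k ≠ a ∧ k ≠ b := by
  revert j a b; decide

theorem map_pair (j : Fin 5) (r s : Fin 4) :
    ({r, s} : Finset (Fin 4)).map j.succAboveEmb = {j.succAbove r, j.succAbove s} := by
  simp [Finset.map_insert, Finset.map_singleton]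

theorem card3 (s : Finset (Fin 5)) : s.card = 3 → ∃ j k : Fin 5, j ≠ k ∧ s = {j, k}ᶜ := by
  revert s; decide

theorem card2 (s : Finset (Fin 5)) : s.card = 2 → ∃ a b : Fin 5, a < b ∧ s = {a, b} := by
  revert s; decide

theorem card2' (s : Finset (Fin 4)) : s.card = 2 → ∃ a b : Fin 4, a < b ∧ s = {a, b} := by
  revert s; decide

theorem pair_inj (a b c d : Fin 5) : a < b → c < d → ({a, b} : Finset (Fin 5)) = {c, d} →
    a = c ∧ b = d := by
  revert a b c d; decide

variable {P : Type} (X : OrderedTriangulation P)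

theorem not_capped (p : P) (j : Fin 5) : ¬ X.toCG.Capped p j := X.ne p j

theorem tr_eq (p : P) (j k a : Fin 5) : X.toCG.tr p j k a = gm j (X.ix p j) a := by
  unfold CG.tr
  rw [if_neg (not_capped X p j)]
  rfl

/-- the value of a two-cochain on a triangle flag -/
def v2 (f : P → Finset (Fin 5) → ℚ) (x : P × TF) : ℚ := f x.1 {x.2.1.1, x.2.1.2}ᶜ

theorem v2_rel {f : P → Finset (Fin 5) → ℚ} (hf : f ∈ X.cochains 2) (x y : P × TF)
    (h : X.toCG.relT x y) : v2 f x = v2 f y := by
  obtain ⟨p, ⟨⟨j, k⟩, hjk⟩⟩ := x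
  obtain ⟨q, ⟨⟨j', k'⟩, hjk'⟩⟩ := y
  rcases h with ⟨h1, h2⟩ | ⟨h1, h2⟩
  · simp only at h1 h2
    subst h1
    rw [Prod.mk.injEq] at h2
    obtain ⟨h2, h3⟩ := h2
    subst h2 h3
    simp only [v2]
    rw [Finset.pair_comm]
  · simp only [tr_eq, Prod.mk.injEq, gm_self] at h1 h2
    obtain ⟨h2, h3⟩ := h2
    subst h2 h3
    change q = X.nb p j at h1
    subst h1
    simp only [v2]
    have h4 := hf.2 p j (Finset.univ.filter fun r : Fin 4 => j.succAbove r ≠ k)
    rw [map_compl j _ k hjk.symm, map_compl j j k hjk.symm, gm_id] at h4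
    exact h4.symm

/-- two-cochains as functions on the triangle classes -/
noncomputable def L2 : X.cochains 2 →ₗ[ℚ] (Quot X.toCG.relT → ℚ) where
  toFun f := Quot.lift (v2 f.1) (v2_rel X f.2)
  map_add' f g := by
    funext x
    induction x using Quot.ind
    rfl
  map_smul' c f := by
    funext x
    induction x using Quot.ind
    rfl

theorem L2_inj : Function.Injective (L2 X) := by
  rw [injective_iff_map_eq_zero]
  intro f hf
  apply Subtype.ext
  funext p s
  by_cases hs : s.card = 3
  · obtain ⟨j, k, hjk, rfl⟩ := card3 s hs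
    exact congrFun hf (Quot.mk _ (p, ⟨(j, k), hjk⟩))
  · exact f.2.1 p s hs

/-- the one-cochain of a function on the edge classes -/
noncomputable def f1 (φ : Quot X.toCG.relE → ℚ) (p : P) (s : Finset (Fin 5)) : ℚ :=
  ∑ e : EF, if s = {e.1.1, e.1.2} then φ (Quot.mk _ (p, e)) else 0

theorem f1_pair (φ : Quot X.toCG.relE → ℚ) (p : P) (a b : Fin 5) (hab : a < b) :
    f1 X φ p {a, b} = φ (Quot.mk _ (p, ⟨(a, b), hab⟩)) := by
  unfold f1
  rw [Finset.sum_eq_single (⟨(a, b), hab⟩ : EF)]
  · simp
  · rintro ⟨⟨c, d⟩, hcd⟩ _ hne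
    rw [if_neg]
    intro h
    obtain ⟨h1, h2⟩ := pair_inj a b c d hab hcd h
    exact hne (by subst h1 h2; rfl)
  · intro h
    exact absurd (Finset.mem_univ _) h

theorem f1_zero (φ : Quot X.toCG.relE → ℚ) (p : P) (s : Finset (Fin 5)) (hs : s.card ≠ 2) :
    f1 X φ p s = 0 := by
  unfold f1
  apply Finset.sum_eq_zero
  rintro ⟨⟨c, d⟩, hcd⟩ _
  rw [if_neg]
  rintro rfl
  exact hs (Finset.card_pair (ne_of_lt hcd))

theorem f1_mem (φ : Quot X.toCG.relE → ℚ) : f1 X φ ∈ X.cochains 1 := by
  refine ⟨fun p s hs => f1_zero X φ p s hs, fun p i t => ?_⟩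
  by_cases ht : t.card = 2
  · obtain ⟨r, s, hrs, rfl⟩ := card2' t ht
    rw [map_pair, map_pair, f1_pair X φ _ _ _ (sA_lt _ _ _ hrs), f1_pair X φ _ _ _ (sA_lt _ _ _ hrs)]
    congr 1
    symm
    apply Quot.sound
    obtain ⟨k, hk1, hk2, hk3⟩ := exists_other i (i.succAbove r) (i.succAbove s)
    refine ⟨i, k, hk1, (Fin.succAbove_ne i r).symm, (Fin.succAbove_ne i s).symm, hk2, hk3, rfl, ?_⟩
    simp only [tr_eq, gm_sA]
  · rw [f1_zero, f1_zero]
    · rwa [Finset.card_map]
    · rwa [Finset.card_map]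

/-- functions on the edge classes as one-cochains -/
noncomputable def L1 : (Quot X.toCG.relE → ℚ) →ₗ[ℚ] X.cochains 1 where
  toFun φ := ⟨f1 X φ, f1_mem X φ⟩
  map_add' φ ψ := by
    apply Subtype.ext
    funext p s
    change f1 X (φ + ψ) p s = f1 X φ p s + f1 X ψ p s
    unfold f1
    rw [← Finset.sum_add_distrib]
    apply Finset.sum_congr rfl
    intro e _
    split_ifs <;> simp
  map_smul' c φ := by
    apply Subtype.ext
    funext p s
    change f1 X (c • φ) p s = c * f1 X φ p s
    unfold f1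
    rw [Finset.mul_sum]
    apply Finset.sum_congr rfl
    intro e _
    split_ifs <;> simp

theorem L1_inj : Function.Injective (L1 X) := by
  rw [injective_iff_map_eq_zero]
  intro φ hφ
  funext x
  induction x using Quot.ind with
  | mk x =>
    obtain ⟨p, ⟨⟨a, b⟩, hab⟩⟩ := x
    have h1 : f1 X φ = 0 := congrArg Subtype.val hφ
    have h2 := f1_pair X φ p a b hab
    rw [h1] at h2
    exact h2.symm

/-- the function on the pairs of vertices -/
def zz (f : P → Finset (Fin 5) → ℚ) (p : P) (a b : Fin 5) : ℚ :=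
  if a = b then 0 else if a < b then f p {a, b} else -f p {a, b}

theorem erase1 (a b c : Fin 5) : a < b → b < c → ({a, b, c} : Finset (Fin 5)).erase a = {b, c} := by
  revert a b c; decide

theorem erase2 (a b c : Fin 5) : a < b → b < c → ({a, b, c} : Finset (Fin 5)).erase b = {a, c} := by
  revert a b c; decide

theorem erase3 (a b c : Fin 5) : a < b → b < c → ({a, b, c} : Finset (Fin 5)).erase c = {a, b} := by
  revert a b c; decide

theorem filt1 (a b c : Fin 5) : a < b → b < c →
    (({a, b, c} : Finset (Fin 5)).filter (· < a)).card = 0 := by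
  revert a b c; decide

theorem filt2 (a b c : Fin 5) : a < b → b < c →
    (({a, b, c} : Finset (Fin 5)).filter (· < b)).card = 1 := by
  revert a b c; decide

theorem filt3 (a b c : Fin 5) : a < b → b < c →
    (({a, b, c} : Finset (Fin 5)).filter (· < c)).card = 2 := by
  revert a b c; decide

theorem cob {f : P → Finset (Fin 5) → ℚ} (hf : coboundary f = 0) (p : P) {a b c : Fin 5}
    (hab : a < b) (hbc : b < c) : f p {b, c} - f p {a, c} + f p {a, b} = 0 := by
  have h1 : ∑ v ∈ ({a, b, c} : Finset (Fin 5)),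
      (-1 : ℚ) ^ (({a, b, c} : Finset (Fin 5)).filter (· < v)).card *
        f p (({a, b, c} : Finset (Fin 5)).erase v) = 0 := congrFun (congrFun hf p) {a, b, c}
  have hn1 : a ∉ ({b, c} : Finset (Fin 5)) := by
    simp only [Finset.mem_insert, Finset.mem_singleton, not_or]
    exact ⟨ne_of_lt hab, ne_of_lt (hab.trans hbc)⟩
  have hn2 : b ∉ ({c} : Finset (Fin 5)) := by
    simp only [Finset.mem_singleton]
    exact ne_of_lt hbc
  rw [Finset.sum_insert hn1, Finset.sum_insert hn2, Finset.sum_singleton, filt1 a b c hab hbc,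
    filt2 a b c hab hbc, filt3 a b c hab hbc, erase1 a b c hab hbc, erase2 a b c hab hbc,
    erase3 a b c hab hbc] at h1
  linarith

theorem zz_self (f : P → Finset (Fin 5) → ℚ) (p : P) (a : Fin 5) : zz f p a a = 0 := by
  simp [zz]

theorem zz_lt (f : P → Finset (Fin 5) → ℚ) (p : P) {a b : Fin 5} (h : a < b) :
    zz f p a b = f p {a, b} := by
  rw [zz, if_neg (ne_of_lt h), if_pos h]

theorem zz_gt (f : P → Finset (Fin 5) → ℚ) (p : P) {a b : Fin 5} (h : b < a) :
    zz f p a b = -f p {b, a} := by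
  rw [zz, if_neg (ne_of_gt h), if_neg (lt_asymm h), Finset.pair_comm]

theorem zz_add {f : P → Finset (Fin 5) → ℚ} (hf : coboundary f = 0) (p : P) (a b c : Fin 5) :
    zz f p a b + zz f p b c = zz f p a c := by
  rcases lt_trichotomy a b with h1 | h1 | h1
  · rcases lt_trichotomy b c with h2 | h2 | h2
    · rw [zz_lt f p h1, zz_lt f p h2, zz_lt f p (h1.trans h2)]
      linarith [cob hf p h1 h2]
    · subst h2
      rw [zz_self, add_zero]
    · rcases lt_trichotomy a c with h3 | h3 | h3
      · rw [zz_lt f p h1, zz_gt f p h2, zz_lt f p h3]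
        linarith [cob hf p h3 h2]
      · subst h3
        rw [zz_lt f p h1, zz_gt f p h2, zz_self]
        ring
      · rw [zz_lt f p h1, zz_gt f p h2, zz_gt f p h3]
        linarith [cob hf p h3 h1]
  · subst h1
    rw [zz_self, zero_add]
  · rcases lt_trichotomy b c with h2 | h2 | h2
    · rcases lt_trichotomy a c with h3 | h3 | h3
      · rw [zz_gt f p h1, zz_lt f p h2, zz_lt f p h3]
        linarith [cob hf p h1 h3]
      · subst h3
        rw [zz_gt f p h1, zz_lt f p h2, zz_self]
        ring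
      · rw [zz_gt f p h1, zz_lt f p h2, zz_gt f p h3]
        linarith [cob hf p h2 h3]
    · subst h2
      rw [zz_self, add_zero]
    · rw [zz_gt f p h1, zz_gt f p h2, zz_gt f p (h2.trans h1)]
      linarith [cob hf p h2 h1]

theorem coch_lt {f : P → Finset (Fin 5) → ℚ} (hf : f ∈ X.cochains 1) (p : P) (j : Fin 5)
    {a b : Fin 5} (ha : a ≠ j) (hb : b ≠ j) (hab : a < b) :
    zz f (X.nb p j) (gm j (X.ix p j) a) (gm j (X.ix p j) b) = zz f p a b := by
  obtain ⟨r, rfl⟩ := exists_sA j a ha
  obtain ⟨s, rfl⟩ := exists_sA j b hb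
  rw [gm_sA, gm_sA, zz_lt f p hab, zz_lt f _ (sA_lt _ _ _ (sA_lt' _ _ _ hab))]
  have h := hf.2 p j {r, s}
  rwa [map_pair, map_pair] at h

theorem zz_anti (f : P → Finset (Fin 5) → ℚ) (p : P) (a b : Fin 5) : zz f p b a = -zz f p a b := by
  rcases lt_trichotomy a b with h | h | h
  · rw [zz_lt f p h, zz_gt f p h]
  · subst h
    rw [zz_self, neg_zero]
  · rw [zz_lt f p h, zz_gt f p h, neg_neg]

theorem zz_mem {f : P → Finset (Fin 5) → ℚ} (hf : f ∈ X.cocycles 1) : zz f ∈ X.toCG.Z := by
  have h1 : f ∈ X.cochains 1 := hf.1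
  have h2 : coboundary f = 0 := hf.2
  refine ⟨fun p a b c => zz_add h2 p a b c, fun p j hc => absurd hc (not_capped X p j),
    fun p j a b ha hb => ?_⟩
  change zz f (X.nb p j) (gm j (X.ix p j) a) (gm j (X.ix p j) b) = zz f p a b
  rcases lt_trichotomy a b with h | h | h
  · exact coch_lt X h1 p j ha hb h
  · subst h
    rw [zz_self, zz_self]
  · rw [zz_anti f _ (gm j (X.ix p j) b), zz_anti f p b a, coch_lt X h1 p j hb ha h]

/-- one-cocycles as functions on the pairs of vertices -/
def LZ : X.cocycles 1 →ₗ[ℚ] X.toCG.Z where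
  toFun f := ⟨zz f.1, zz_mem X f.2⟩
  map_add' f g := by
    apply Subtype.ext
    funext p a b
    change zz (f.1 + g.1) p a b = zz f.1 p a b + zz g.1 p a b
    unfold zz
    split_ifs
    · simp
    · rfl
    · simp only [Pi.add_apply]
      ring
  map_smul' c f := by
    apply Subtype.ext
    funext p a b
    change zz (c • f.1) p a b = c * zz f.1 p a b
    unfold zz
    split_ifs
    · simp
    · rfl
    · simp only [Pi.smul_apply, smul_eq_mul]
      ring

theorem LZ_inj : Function.Injective (LZ X) := by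
  rw [injective_iff_map_eq_zero]
  intro f hf
  apply Subtype.ext
  funext p s
  by_cases hs : s.card = 2
  · obtain ⟨a, b, hab, rfl⟩ := card2 s hs
    have h1 : zz f.1 = 0 := congrArg Subtype.val hf
    have h2 := zz_lt f.1 p hab
    rw [h1] at h2
    exact h2.symm
  · have h3 : f.1 ∈ X.cochains 1 := f.2.1
    exact h3.1 p s hs

end C12aux

open C12aux in
theorem T_c2 : S_c2 := by
  intro P _ X
  have : Finite (Quot X.toCG.relT) := inferInstance
  have := Fintype.ofFinite (Quot X.toCG.relT)
  have h := LinearMap.finrank_le_finrank_of_injective (L2_inj X)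
  rw [Module.finrank_fintype_fun_eq_card, ← Nat.card_eq_fintype_card] at h
  exact h

open C12aux in
theorem T_c1 : S_c1 := by
  intro P _ X
  have : Finite (Quot X.toCG.relE) := inferInstance
  have := Fintype.ofFinite (Quot X.toCG.relE)
  have h := LinearMap.finrank_le_finrank_of_injective (L1_inj X)
  rw [Module.finrank_fintype_fun_eq_card, ← Nat.card_eq_fintype_card] at h
  exact h

open C12aux in
theorem T_z1 : S_z1 := by
  intro P _ X
  exact LinearMap.finrank_le_finrank_of_injective (LZ_inj X)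

end Pool.Agent.H830.OT
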