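import Pool.Agent.H830.OT.Tri

/-!
# OT project, task C3: three-cochains and the fundamental class (helper484, for helper830)
-/

set_option autoImplicit false

namespace Pool.Agent.H830.OT

open OrderedTriangulation (coboundary)

namespace C3

theorem univ_map (i : Fin 5) : (Finset.univ : Finset (Fin 4)).map i.succAboveEmb = {i}ᶜ := by
  revert i; decide

theorem card_lt (t : Finset (Fin 4)) (ht : t ≠ Finset.univ) : t.card < 4 := by
  by_contra hcon
  push Not at hcon
  apply ht
  rw [← Finset.card_eq_iff_eq_univ]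
  have := t.card_le_univ
  simp only [Fintype.card_fin] at this ⊢
  omega

variable {P : Type} (X : OrderedTriangulation P)

/-- the involution on the facets -/
def sg (x : P × Fin 5) : P × Fin 5 := (X.nb x.1 x.2, X.ix x.1 x.2)

theorem sg_sg (x : P × Fin 5) : sg X (sg X x) = x := by
  obtain ⟨p, i⟩ := x
  simp [sg, X.nb_nb, X.ix_ix]

theorem sg_ne (x : P × Fin 5) : sg X x ≠ x := by
  obtain ⟨p, i⟩ := x
  intro h
  have h1 : X.nb p i = p := congrArg Prod.fst h
  have h2 : X.ix p i = i := congrArg Prod.snd h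
  exact X.ne p i ⟨h1, h2⟩

/-- the relation -/
def rel (x y : P × Fin 5) : Prop := y = sg X x

/-- functions on the classes of facets give cochains -/
noncomputable def toC : (Quot (rel X) → ℚ) →ₗ[ℚ] (P → Finset (Fin 5) → ℚ) where
  toFun φ p s := ∑ i : Fin 5, if s = {i}ᶜ then φ (Quot.mk _ (p, i)) else 0
  map_add' φ ψ := by
    funext p s
    simp only [Pi.add_apply, ← Finset.sum_add_distrib]
    refine Finset.sum_congr rfl fun i _ => ?_
    split_ifs <;> simp
  map_smul' c φ := by
    funext p s
    simp only [Pi.smul_apply, smul_eq_mul, RingHom.id_apply, Finset.mul_sum]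
    refine Finset.sum_congr rfl fun i _ => ?_
    split_ifs <;> simp

theorem toC_compl (φ : Quot (rel X) → ℚ) (p : P) (i : Fin 5) :
    toC X φ p {i}ᶜ = φ (Quot.mk _ (p, i)) := by
  show (∑ j : Fin 5, if ({i}ᶜ : Finset (Fin 5)) = {j}ᶜ then φ (Quot.mk _ (p, j)) else 0) = _
  rw [Finset.sum_eq_single i]
  · simp
  · intro j _ hj
    rw [if_neg]
    intro h
    rw [compl_inj_iff, Finset.singleton_inj] at h
    exact hj h.symm
  · intro h; exact absurd (Finset.mem_univ _) h

theorem toC_zero (φ : Quot (rel X) → ℚ) (p : P) (s : Finset (Fin 5)) (hs : s.card ≠ 4) :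
    toC X φ p s = 0 := by
  show (∑ j : Fin 5, if s = {j}ᶜ then φ (Quot.mk _ (p, j)) else 0) = 0
  refine Finset.sum_eq_zero fun j _ => ?_
  rw [if_neg]
  rintro rfl
  apply hs
  rw [Finset.card_compl]
  simp

theorem toC_mem (φ : Quot (rel X) → ℚ) : toC X φ ∈ X.cochains 3 := by
  refine ⟨fun p s hs => toC_zero X φ p s hs, fun p i t => ?_⟩
  by_cases ht : t = Finset.univ
  · subst ht
    rw [univ_map, univ_map, toC_compl, toC_compl]
    exact congrArg φ (Quot.sound (r := rel X) (a := (p, i)) (b := (X.nb p i, X.ix p i)) rfl).symm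
  · have h := card_lt t ht
    rw [toC_zero X φ _ _ (by rw [Finset.card_map]; omega),
      toC_zero X φ _ _ (by rw [Finset.card_map]; omega)]

theorem toC_inj : Function.Injective (toC X) := by
  intro φ ψ h
  funext q
  obtain ⟨⟨p, i⟩, rfl⟩ := Quot.exists_rep q
  rw [← toC_compl X φ p i, ← toC_compl X ψ p i, h]

end C3

open C3 in
theorem T_c3 (hW : S_W) : S_c3 := by
  classical
  intro P _ X
  have : Fintype P := Fintype.ofFinite P
  have h1 := hW (P × Fin 5) (rel X) (fun _ => 1 / 2) (fun x => {x, sg X x})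
    (fun x => by simp)
    (fun x y z hy hr => by
      simp only [Finset.mem_insert, Finset.mem_singleton] at hy ⊢
      have hz : z = sg X y := hr
      rcases hy with rfl | rfl
      · right; exact hz
      · left; rw [hz, sg_sg])
    (fun x y z hy hr => by
      simp only [Finset.mem_insert, Finset.mem_singleton] at hy ⊢
      have hz : y = sg X z := hr
      have hz' : z = sg X y := by rw [hz, sg_sg]
      rcases hy with rfl | rfl
      · right; exact hz'
      · left; rw [hz', sg_sg])
    (fun x => by norm_num)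
    (fun x => by
      rw [Finset.sum_pair (sg_ne X x).symm]
      norm_num)
  have h2 : (∑ _x : P × Fin 5, (1 / 2 : ℚ)) = 5 * (Nat.card P : ℚ) / 2 := by
    rw [Finset.sum_const, Finset.card_univ, Fintype.card_prod, Fintype.card_fin,
      Nat.card_eq_fintype_card, nsmul_eq_mul]
    push_cast
    ring
  have h3 : ncl (rel X) ≤ Module.finrank ℚ (X.cochains 3) := by
    have e1 : Module.finrank ℚ (Quot (rel X) → ℚ) = ncl (rel X) := by
      have : Fintype (Quot (rel X)) := Fintype.ofFinite _
      rw [Module.finrank_fintype_fun_eq_card]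
      unfold ncl
      rw [Nat.card_eq_fintype_card]
    rw [← e1]
    apply LinearMap.finrank_le_finrank_of_injective
      (f := LinearMap.codRestrict (X.cochains 3) (toC X) (fun φ => toC_mem X φ))
    intro φ ψ h
    apply toC_inj X
    have := congrArg Subtype.val h
    exact this
  rw [h2] at h1
  have h4 : (5 * (Nat.card P : ℚ)) ≤ 2 * (ncl (rel X) : ℚ) := by linarith
  have h5 : 5 * Nat.card P ≤ 2 * ncl (rel X) := by exact_mod_cast h4
  omega

namespace C3

variable {P : Type} (X : OrderedTriangulation P)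

theorem cob_univ (f : P → Finset (Fin 5) → ℚ) (p : P) :
    coboundary f p Finset.univ = ∑ v : Fin 5, (-1) ^ v.val * f p {v}ᶜ := by
  show (∑ v ∈ (Finset.univ : Finset (Fin 5)),
    (-1) ^ ((Finset.univ : Finset (Fin 5)).filter (· < v)).card *
      f p ((Finset.univ : Finset (Fin 5)).erase v)) = _
  refine Finset.sum_congr rfl fun v _ => ?_
  have h1 : ((Finset.univ : Finset (Fin 5)).filter (· < v)).card = v.val := by
    revert v; decide
  have h2 : (Finset.univ : Finset (Fin 5)).erase v = {v}ᶜ := by
    revert v; decide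
  rw [h1, h2]

theorem cob_zero (f : P → Finset (Fin 5) → ℚ) (hf : f ∈ X.cochains 3) (p : P)
    (s : Finset (Fin 5)) (hs : s ≠ Finset.univ) : coboundary f p s = 0 := by
  show (∑ v ∈ s, (-1) ^ (s.filter (· < v)).card * f p (s.erase v)) = 0
  refine Finset.sum_eq_zero fun v hv => ?_
  rw [hf.1 p (s.erase v), mul_zero]
  rw [Finset.card_erase_of_mem hv]
  have h1 : s.card < 5 := by
    by_contra hcon
    push Not at hcon
    apply hs
    rw [← Finset.card_eq_iff_eq_univ]
    have := s.card_le_univ
    simp only [Fintype.card_fin] at this ⊢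
    omega
  have h2 : 0 < s.card := Finset.card_pos.2 ⟨v, hv⟩
  omega

theorem fund [Finite P] (f : P → Finset (Fin 5) → ℚ) (hf : f ∈ X.cochains 3) (ε : P → ℤ)
    (hε : ∀ p i, ε (X.nb p i) * (-1) ^ (X.ix p i).val = - (ε p * (-1) ^ i.val)) [Fintype P] :
    ∑ p : P, (ε p : ℚ) * coboundary f p Finset.univ = 0 := by
  have h1 : ∑ p : P, (ε p : ℚ) * coboundary f p Finset.univ =
      ∑ x : P × Fin 5, (ε x.1 : ℚ) * (-1) ^ x.2.val * f x.1 {x.2}ᶜ := by
    rw [Fintype.sum_prod_type]
    refine Finset.sum_congr rfl fun p _ => ?_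
    rw [cob_univ, Finset.mul_sum]
    refine Finset.sum_congr rfl fun v _ => ?_
    ring
  have hinv : Function.Involutive (sg X) := sg_sg X
  have h2 : ∑ x : P × Fin 5, (ε x.1 : ℚ) * (-1) ^ x.2.val * f x.1 {x.2}ᶜ =
      ∑ x : P × Fin 5, -((ε x.1 : ℚ) * (-1) ^ x.2.val * f x.1 {x.2}ᶜ) := by
    rw [← Equiv.sum_comp hinv.toPerm]
    refine Finset.sum_congr rfl fun x _ => ?_
    obtain ⟨p, i⟩ := x
    have e1 : (hinv.toPerm) (p, i) = (X.nb p i, X.ix p i) := rfl
    rw [e1]
    simp only
    have e2 := hf.2 p i Finset.univ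
    rw [univ_map, univ_map] at e2
    rw [e2]
    have e3 : (ε (X.nb p i) : ℚ) * (-1) ^ (X.ix p i).val = - ((ε p : ℚ) * (-1) ^ i.val) := by
      have := hε p i
      exact_mod_cast this
    rw [e3]
    ring
  rw [h1]
  rw [Finset.sum_neg_distrib] at h2
  linarith

end C3

open C3 in
theorem T_r3 : S_r3 := by
  classical
  intro P _ _ X hO
  have : Fintype P := Fintype.ofFinite P
  obtain ⟨ε, hε1, hε2⟩ := hO
  -- the functional
  let L : (P → ℚ) →ₗ[ℚ] ℚ := ∑ p : P, (ε p : ℚ) • LinearMap.proj p
  have hL : ∀ h : P → ℚ, L h = ∑ p : P, (ε p : ℚ) * h p := by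
    intro h
    simp [L]
  have hker : Module.finrank ℚ (LinearMap.ker L) + 1 = Nat.card P := by
    have h1 := LinearMap.finrank_range_add_finrank_ker L
    have h2 : LinearMap.range L = ⊤ := by
      rw [LinearMap.range_eq_top]
      obtain ⟨p₀⟩ := (inferInstance : Nonempty P)
      intro c
      refine ⟨Pi.single p₀ ((ε p₀ : ℚ) * c), ?_⟩
      rw [hL, Finset.sum_eq_single p₀]
      · rw [Pi.single_eq_same]
        rcases hε1 p₀ with h | h <;> rw [h] <;> push_cast <;> ring
      · intro p _ hp
        rw [Pi.single_eq_of_ne hp, mul_zero]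
      · intro h; exact absurd (Finset.mem_univ _) h
    rw [h2, finrank_top, Module.finrank_self, Module.finrank_fintype_fun_eq_card] at h1
    rw [Nat.card_eq_fintype_card]
    omega
  -- evaluation at the top
  let ev : (P → Finset (Fin 5) → ℚ) →ₗ[ℚ] (P → ℚ) :=
    { toFun := fun g p => g p Finset.univ
      map_add' := fun _ _ => rfl
      map_smul' := fun _ _ => rfl }
  have hmaps : ∀ g ∈ (X.cochains 3).map coboundary, ev g ∈ LinearMap.ker L := by
    rintro g ⟨f, hf, rfl⟩
    rw [LinearMap.mem_ker, hL]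
    exact fund X f hf ε hε2
  have hle : Module.finrank ℚ ((X.cochains 3).map coboundary) ≤
      Module.finrank ℚ (LinearMap.ker L) := by
    apply LinearMap.finrank_le_finrank_of_injective (f := ev.restrict hmaps)
    intro g g' h
    have h' : ev g.1 = ev g'.1 := congrArg Subtype.val h
    apply Subtype.ext
    obtain ⟨g, f, hf, rfl⟩ := g
    obtain ⟨g', f', hf', rfl⟩ := g'
    funext p s
    by_cases hs : s = Finset.univ
    · subst hs
      exact congrFun h' p
    · show coboundary f p s = coboundary f' p s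
      rw [cob_zero X f hf p s hs, cob_zero X f' hf' p s hs]
  omega

end Pool.Agent.H830.OT
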