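import Pool.Agent.H830.OT.Stm

/-!
# Project OT, S_Comp: reduction to connected gluings (by helper286)

Instead of all components at once we split off a closed set of pentachora and use induction on the
number of pentachora.
-/

set_option autoImplicit false

namespace Pool.Agent.H830.OT

namespace CompAux

/-- additivity of the number of classes -/
theorem ncl_split {D D₁ D₂ : Type} [Finite D₁] [Finite D₂] (r : D → D → Prop) (r₁ : D₁ → D₁ → Prop)
    (r₂ : D₂ → D₂ → Prop) (e : D₁ ⊕ D₂ ≃ D)
    (h11 : ∀ x y, r (e (.inl x)) (e (.inl y)) ↔ r₁ x y)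
    (h22 : ∀ x y, r (e (.inr x)) (e (.inr y)) ↔ r₂ x y)
    (h12 : ∀ x y, ¬ r (e (.inl x)) (e (.inr y))) (h21 : ∀ x y, ¬ r (e (.inr x)) (e (.inl y))) :
    ncl r = ncl r₁ + ncl r₂ := by
  let g : D₁ ⊕ D₂ → Quot r₁ ⊕ Quot r₂ := Sum.map (Quot.mk r₁) (Quot.mk r₂)
  have hg : ∀ x y : D₁ ⊕ D₂, r (e x) (e y) → g x = g y := by
    rintro (x | x) (y | y) h
    · exact congrArg Sum.inl (Quot.sound ((h11 x y).1 h))
    · exact absurd h (h12 x y)
    · exact absurd h (h21 x y)
    · exact congrArg Sum.inr (Quot.sound ((h22 x y).1 h))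
  let F : Quot r → Quot r₁ ⊕ Quot r₂ := Quot.lift (fun d => g (e.symm d)) (by
    intro a b h
    apply hg
    rw [e.apply_symm_apply, e.apply_symm_apply]
    exact h)
  let G : Quot r₁ ⊕ Quot r₂ → Quot r := Sum.elim
    (Quot.lift (fun x => Quot.mk r (e (.inl x))) fun a b h => Quot.sound ((h11 a b).2 h))
    (Quot.lift (fun x => Quot.mk r (e (.inr x))) fun a b h => Quot.sound ((h22 a b).2 h))
  have hGF : ∀ q, G (F q) = q := by
    intro q
    induction q using Quot.ind with
    | mk d =>
      obtain ⟨x, rfl⟩ := e.surjective d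
      show G (g (e.symm (e x))) = _
      rw [e.symm_apply_apply]
      rcases x with x | x <;> rfl
  have hFG : ∀ q, F (G q) = q := by
    rintro (q | q)
    · induction q using Quot.ind with
      | mk d =>
        show g (e.symm (e (.inl d))) = _
        rw [e.symm_apply_apply]; rfl
    · induction q using Quot.ind with
      | mk d =>
        show g (e.symm (e (.inr d))) = _
        rw [e.symm_apply_apply]; rfl
  have E : Quot r ≃ Quot r₁ ⊕ Quot r₂ := ⟨F, G, hGF, hFG⟩
  unfold ncl
  rw [Nat.card_congr E, Nat.card_sum]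

variable {P : Type} (X : CG P)

/-- the restriction to a closed set -/
def res (S : Set P) (hS : ∀ p ∈ S, ∀ j, X.nb p j ∈ S) : CG S where
  nb p j := ⟨X.nb p.1 j, hS p.1 p.2 j⟩
  ix p j := X.ix p.1 j
  nb_nb p j := Subtype.ext (X.nb_nb p.1 j)
  ix_ix p j := X.ix_ix p.1 j

variable {S : Set P} (hS : ∀ p ∈ S, ∀ j, X.nb p j ∈ S)

theorem res_capped (p : S) (j : Fin 5) : (res X S hS).Capped p j ↔ X.Capped p.1 j := by
  unfold CG.Capped
  rw [Subtype.ext_iff]
  rfl

theorem res_tr (p : S) (j k a : Fin 5) : (res X S hS).tr p j k a = X.tr p.1 j k a := by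
  unfold CG.tr
  by_cases h : X.Capped p.1 j
  · rw [if_pos h, if_pos ((res_capped X hS p j).2 h)]
  · rw [if_neg h, if_neg (fun h' => h ((res_capped X hS p j).1 h'))]
    rfl

theorem res_relT (x y : S × TF) :
    X.relT (x.1.1, x.2) (y.1.1, y.2) ↔ (res X S hS).relT x y := by
  unfold CG.relT
  simp only [res_tr]
  rw [Subtype.ext_iff, Subtype.ext_iff]
  rfl

theorem res_relE (x y : S × EF) :
    X.relE (x.1.1, x.2) (y.1.1, y.2) ↔ (res X S hS).relE x y := by
  unfold CG.relE
  simp only [res_tr]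
  constructor
  · rintro ⟨j, k, h1, h2, h3, h4, h5, h6, h7⟩
    exact ⟨j, k, h1, h2, h3, h4, h5, Subtype.ext h6, h7⟩
  · rintro ⟨j, k, h1, h2, h3, h4, h5, h6, h7⟩
    exact ⟨j, k, h1, h2, h3, h4, h5, Subtype.ext_iff.1 h6, h7⟩

/-- the restriction of a cocycle -/
theorem res_mem {z : P → Fin 5 → Fin 5 → ℚ} (hz : z ∈ X.Z) :
    (fun p : S => z p.1) ∈ (res X S hS).Z := by
  obtain ⟨h1, h2, h3⟩ := hz
  refine ⟨fun p a b c => h1 p.1 a b c, fun p j hc a b ha hb => ?_, fun p j a b ha hb => ?_⟩
  · exact h2 p.1 j ((res_capped X hS p j).1 hc) a b ha hb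
  · exact h3 p.1 j a b ha hb

theorem res_nf (h : X.NF) : (res X S hS).NF := by
  intro p j hc hf
  refine h p.1 j (fun h' => hc ((res_capped X hS p j).2 h')) ?_
  intro z hz a b ha hb
  exact hf _ (res_mem X hS hz) a b ha hb

theorem res_oriented (h : X.Oriented) : (res X S hS).Oriented := by
  obtain ⟨ε, h1, h2⟩ := h
  refine ⟨fun p => ε p.1, fun p => h1 p.1, fun p j hc => ?_⟩
  exact h2 p.1 j (fun h' => hc ((res_capped X hS p j).2 h'))

theorem res_cap (h : ∀ S : Set P, S.Nonempty → (∀ p ∈ S, ∀ j, X.nb p j ∈ S) →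
    ∃ p ∈ S, ∃ j, X.Capped p j) (S' : Set S) (hne : S'.Nonempty)
    (hS' : ∀ p ∈ S', ∀ j, (res X S hS).nb p j ∈ S') :
    ∃ p ∈ S', ∃ j, (res X S hS).Capped p j := by
  obtain ⟨_, ⟨p, hp, rfl⟩, j, hj⟩ := h (Subtype.val '' S') (hne.image _) (by
    rintro _ ⟨p, hp, rfl⟩ j
    exact ⟨_, hS' p hp j, rfl⟩)
  exact ⟨p, hp, j, (res_capped X hS p j).2 hj⟩

/-- the complement is closed -/
theorem compl_closed (hS : ∀ p ∈ S, ∀ j, X.nb p j ∈ S) : ∀ p ∈ Sᶜ, ∀ j, X.nb p j ∈ Sᶜ := by
  intro p hp j h
  apply hp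
  have := hS _ h (X.ix p j)
  rwa [X.nb_nb] at this

open Classical in
/-- the decomposition -/
noncomputable def ee (S : Set P) (F : Type) : (S × F) ⊕ (((Sᶜ : Set P) : Type) × F) ≃ P × F :=
  (Equiv.sumProdDistrib _ _ _).symm.trans ((Equiv.Set.sumCompl S).prodCongr (Equiv.refl F))

theorem ee_inl (S : Set P) (F : Type) (x : S × F) : ee S F (.inl x) = (x.1.1, x.2) := rfl

theorem ee_inr (S : Set P) (F : Type) (x : (Sᶜ : Set P) × F) :
    ee S F (.inr x) = (x.1.1, x.2) := rfl

theorem T_add [Finite P] : X.T = (res X S hS).T + (res X Sᶜ (compl_closed X hS)).T := by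
  refine ncl_split _ _ _ (ee S TF) (fun x y => res_relT X hS x y)
    (fun x y => res_relT X (compl_closed X hS) x y) (fun x y h => ?_) (fun x y h => ?_)
  · rw [ee_inl, ee_inr] at h
    rcases h with ⟨h, -⟩ | ⟨h, -⟩
    · exact y.1.2 (by rw [show y.1.1 = x.1.1 from h]; exact x.1.2)
    · exact y.1.2 (by rw [show y.1.1 = X.nb x.1.1 x.2.1.1 from h]; exact hS _ x.1.2 _)
  · rw [ee_inl, ee_inr] at h
    rcases h with ⟨h, -⟩ | ⟨h, -⟩
    · exact x.1.2 (by rw [← show y.1.1 = x.1.1 from h]; exact y.1.2)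
    · have := compl_closed X hS x.1.1 x.1.2 x.2.1.1
      rw [← show y.1.1 = X.nb x.1.1 x.2.1.1 from h] at this
      exact this y.1.2

theorem E_add [Finite P] : X.E = (res X S hS).E + (res X Sᶜ (compl_closed X hS)).E := by
  refine ncl_split _ _ _ (ee S EF) (fun x y => res_relE X hS x y)
    (fun x y => res_relE X (compl_closed X hS) x y) (fun x y h => ?_) (fun x y h => ?_)
  · rw [ee_inl, ee_inr] at h
    obtain ⟨j, k, -, -, -, -, -, h, -⟩ := h
    exact y.1.2 (by rw [show y.1.1 = X.nb x.1.1 j from h]; exact hS _ x.1.2 _)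
  · rw [ee_inl, ee_inr] at h
    obtain ⟨j, k, -, -, -, -, -, h, -⟩ := h
    have := compl_closed X hS x.1.1 x.1.2 j
    rw [← show y.1.1 = X.nb x.1.1 j from h] at this
    exact this y.1.2

theorem K_add [Finite P] : X.K = (res X S hS).K + (res X Sᶜ (compl_closed X hS)).K := by
  have e1 : {x : (S × Fin 5) ⊕ (((Sᶜ : Set P) : Type) × Fin 5) //
      X.Capped (ee S (Fin 5) x).1 (ee S (Fin 5) x).2} ≃
      {x : P × Fin 5 // X.Capped x.1 x.2} :=
    (ee S (Fin 5)).subtypeEquiv fun x => Iff.rfl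
  have e2 := Equiv.subtypeSum (α := S × Fin 5) (β := (Sᶜ : Set P) × Fin 5)
    (p := fun x => X.Capped (ee S (Fin 5) x).1 (ee S (Fin 5) x).2)
  unfold CG.K
  rw [← Nat.card_congr e1, Nat.card_congr e2, Nat.card_sum]
  congr 1
  · refine Nat.card_congr (Equiv.subtypeEquivRight fun x => ?_)
    exact (res_capped X hS x.1 x.2).symm
  · refine Nat.card_congr (Equiv.subtypeEquivRight fun x => ?_)
    exact (res_capped X (compl_closed X hS) x.1 x.2).symm

/-- the restriction map on cocycles -/
def rm : X.Z →ₗ[ℚ] (res X S hS).Z × (res X Sᶜ (compl_closed X hS)).Z where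
  toFun z := (⟨fun p => z.1 p.1, res_mem X hS z.2⟩,
    ⟨fun p => z.1 p.1, res_mem X (compl_closed X hS) z.2⟩)
  map_add' _ _ := rfl
  map_smul' _ _ := rfl

theorem w_add [Finite P] : X.w ≤ (res X S hS).w + (res X Sᶜ (compl_closed X hS)).w := by
  have hinj : Function.Injective (rm X hS) := by
    intro z z' h
    apply Subtype.ext
    funext p
    by_cases hp : p ∈ S
    · have h1 := congrArg (fun y => y.1.1 ⟨p, hp⟩) h
      exact h1
    · have h1 := congrArg (fun y => y.2.1 ⟨p, hp⟩) h
      exact h1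
  have := LinearMap.finrank_le_finrank_of_injective hinj
  rw [Module.finrank_prod] at this
  exact this

theorem psi_add [Finite P] (h1 : (res X S hS).Psi) (h2 : (res X Sᶜ (compl_closed X hS)).Psi) :
    X.Psi := by
  unfold CG.Psi at *
  have e1 := T_add X hS
  have e2 := E_add X hS
  have e3 := K_add X hS
  have e4 := w_add X hS
  have e5 : Nat.card P = Nat.card S + Nat.card (Sᶜ : Set P) := by
    classical
    rw [← Nat.card_congr (Equiv.Set.sumCompl S), Nat.card_sum]
  omega

theorem psi_empty [IsEmpty P] : X.Psi := by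
  unfold CG.Psi
  have h1 : X.T = 0 := by
    unfold CG.T ncl
    have : IsEmpty (Quot X.relT) := ⟨fun q => by
      induction q using Quot.ind with
      | mk x => exact isEmptyElim x.1⟩
    exact Nat.card_of_isEmpty
  have h2 : X.K = 0 := by
    unfold CG.K
    have : IsEmpty {x : P × Fin 5 // X.Capped x.1 x.2} := ⟨fun x => isEmptyElim x.1.1⟩
    exact Nat.card_of_isEmpty
  have h3 : X.w = 0 := by
    unfold CG.w
    have : Subsingleton X.Z := ⟨fun a b => Subtype.ext (funext fun p => isEmptyElim p)⟩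
    exact Module.finrank_zero_of_subsingleton
  omega

end CompAux

open CompAux in
/-- **S_Comp** -/
theorem T_Comp : S_Comp := by
  intro hyp
  have main : ∀ n : ℕ, ∀ (P : Type) [Finite P] (X : CG P), Nat.card P = n → X.Oriented → X.NF →
      (∀ S : Set P, S.Nonempty → (∀ p ∈ S, ∀ j, X.nb p j ∈ S) → ∃ p ∈ S, ∃ j, X.Capped p j) →
      X.Psi := by
    intro n
    induction n using Nat.strong_induction_on with
    | _ n ih =>
      intro P _ X hn hO hN hc
      rcases isEmpty_or_nonempty P with hP | hP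
      · exact psi_empty X
      · by_cases hconn : X.Conn
        · obtain ⟨p, -, j, hj⟩ := hc Set.univ Set.univ_nonempty (fun _ _ _ => Set.mem_univ _)
          exact hyp P X hconn hO hN ⟨p, j, hj⟩
        · unfold CG.Conn at hconn
          push Not at hconn
          obtain ⟨S, hSne, hS, hSu⟩ := hconn
          have hS' := compl_closed X hS
          have hSc : (Sᶜ).Nonempty := Set.nonempty_compl.2 hSu
          have e5 : Nat.card P = Nat.card S + Nat.card (Sᶜ : Set P) := by
            classical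
            rw [← Nat.card_congr (Equiv.Set.sumCompl S), Nat.card_sum]
          have h1 : 0 < Nat.card S := by
            have := hSne.to_subtype
            exact Nat.card_pos
          have h2 : 0 < Nat.card (Sᶜ : Set P) := by
            have := hSc.to_subtype
            exact Nat.card_pos
          refine psi_add X hS ?_ ?_
          · exact ih (Nat.card S) (by omega) S (res X S hS) rfl (res_oriented X hS hO)
              (res_nf X hS hN) (res_cap X hS hc)
          · exact ih (Nat.card (Sᶜ : Set P)) (by omega) _ (res X Sᶜ hS') rfl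
              (res_oriented X hS' hO) (res_nf X hS' hN) (res_cap X hS' hc)
  intro P _ X hO hN hc
  exact main _ P X rfl hO hN hc

end Pool.Agent.H830.OT
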