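import Pool.Agent.H830.OT.Stm

/-!
# Growth lemmas
-/

namespace Pool.Agent.H830.OT

/-- a linear functional cuts the dimension by at most one -/
theorem finrank_le_inf_ker {M : Type} [AddCommGroup M] [Module ℚ M] [FiniteDimensional ℚ M]
    (K : Submodule ℚ M) (l : M →ₗ[ℚ] ℚ) :
    Module.finrank ℚ K ≤ Module.finrank ℚ ↥(K ⊓ LinearMap.ker l) + 1 := by
  have h1 := Submodule.finrank_sup_add_finrank_inf_eq K (LinearMap.ker l)
  have h2 := Submodule.finrank_le (K ⊔ LinearMap.ker l)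
  have h3 := LinearMap.finrank_range_add_finrank_ker l
  have h4 : Module.finrank ℚ (LinearMap.range l) ≤ 1 := by
    have := Submodule.finrank_le (LinearMap.range l)
    simpa using this
  omega

namespace CG

variable {P : Type} (X : CG P)

/-- value of a function on an edge flag -/
def val (z : P → Fin 5 → Fin 5 → ℚ) (x : P × EF) : ℚ := z x.1 x.2.1.1 x.2.1.2

variable {X}

theorem Z_self {z : P → Fin 5 → Fin 5 → ℚ} (hz : z ∈ X.Z) (p : P) (a : Fin 5) : z p a a = 0 := by
  have := hz.1 p a a a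
  linarith

theorem Z_symm {z : P → Fin 5 → Fin 5 → ℚ} (hz : z ∈ X.Z) (p : P) (a b : Fin 5) :
    z p b a = - z p a b := by
  have := hz.1 p a b a
  have := Z_self hz p a
  linarith

theorem cc_ne {j k a : Fin 5} (hjk : j ≠ k) (h : a ≠ j) : cc j k a ≠ j := by
  intro h'
  apply h
  apply cc_inj hjk
  rw [h', cc_self]

theorem val_rel {z : P → Fin 5 → Fin 5 → ℚ} (hz : z ∈ X.Z) {x y : P × EF}
    (h : X.relE x y) : val z x = val z y := by
  obtain ⟨j, k, hjk, ha1, ha2, hk1, hk2, h1, h2⟩ := h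
  unfold val
  rw [h1, h2]
  by_cases hc : X.Capped x.1 j
  · rw [hz.2.1 x.1 j hc _ _ ha1.symm ha2.symm]
    have e : X.nb x.1 j = x.1 := hc.1
    rw [e]
    unfold tr
    rw [if_pos hc, if_pos hc]
    exact (hz.2.1 x.1 j hc _ _ (cc_ne hjk ha1.symm) (cc_ne hjk ha2.symm)).symm
  · unfold tr
    rw [if_neg hc, if_neg hc]
    exact (hz.2.2 x.1 j _ _ ha1.symm ha2.symm).symm

theorem val_quot {z : P → Fin 5 → Fin 5 → ℚ} (hz : z ∈ X.Z) {x y : P × EF}
    (h : (Quot.mk X.relE x) = Quot.mk X.relE y) : val z x = val z y :=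
  congrArg (Quot.lift (val z) (fun _ _ h => val_rel hz h)) h

variable (X)

/-- cocycles vanishing on the pentachora of `S` -/
def KS (S : Set P) : Submodule ℚ (P → Fin 5 → Fin 5 → ℚ) where
  carrier := {z | z ∈ X.Z ∧ ∀ p ∈ S, ∀ a b, z p a b = 0}
  add_mem' := by
    rintro f g ⟨hf1, hf2⟩ ⟨hg1, hg2⟩
    exact ⟨X.Z.add_mem hf1 hg1, fun p hp a b => by simp [hf2 p hp a b, hg2 p hp a b]⟩
  zero_mem' := ⟨X.Z.zero_mem, fun _ _ _ _ => rfl⟩
  smul_mem' := by
    rintro t f ⟨hf1, hf2⟩
    exact ⟨X.Z.smul_mem t hf1, fun p hp a b => by simp [hf2 p hp a b]⟩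

/-- edge classes with a representative in `S` -/
def cls (S : Set P) : Set (Quot X.relE) := {q | ∃ x : P × EF, x.1 ∈ S ∧ Quot.mk _ x = q}

/-- pentachora of `S` without capped facets -/
def unc (S : Set P) : Set P := {p | p ∈ S ∧ ∀ j, ¬ X.Capped p j}

/-- the growth function -/
noncomputable def gr (S : Set P) : ℕ :=
  3 * Module.finrank ℚ (X.KS S) + (X.cls S).ncard + (X.unc S).ncard

/-- the edge of a pentachoron with the endpoints `i ≠ a` -/
def eg (i a : Fin 5) (h : a ≠ i) : EF :=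
  if h' : i < a then ⟨(i, a), h'⟩ else ⟨(a, i), lt_of_le_of_ne (not_lt.1 h') h⟩

/-- functional `z ↦ z p a b` -/
def ev (p : P) (a b : Fin 5) : (P → Fin 5 → Fin 5 → ℚ) →ₗ[ℚ] ℚ where
  toFun z := z p a b
  map_add' _ _ := rfl
  map_smul' _ _ := rfl

variable {X}

theorem val_eg {z : P → Fin 5 → Fin 5 → ℚ} (hz : z ∈ X.Z) (p : P) (i a : Fin 5) (h : a ≠ i) :
    val z (p, eg i a h) = if i < a then z p i a else - z p i a := by
  unfold val eg
  split_ifs with h'
  · rfl
  · exact Z_symm hz p i a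

theorem cls_mono {S S' : Set P} (h : S ⊆ S') : X.cls S ⊆ X.cls S' := by
  rintro q ⟨x, hx, rfl⟩
  exact ⟨x, h hx, rfl⟩

theorem unc_mono {S S' : Set P} (h : S ⊆ S') : X.unc S ⊆ X.unc S' :=
  fun _ hp => ⟨h hp.1, hp.2⟩

theorem KS_anti {S S' : Set P} (h : S ⊆ S') : X.KS S' ≤ X.KS S :=
  fun _ hz => ⟨hz.1, fun p hp => hz.2 p (h hp)⟩

theorem finite_quot [Finite P] : Finite (Quot X.relE) := Quot.finite _

/-- the step -/
theorem gr_step [Finite P] (hn : X.NF) (S : Set P) (q : P) (j : Fin 5) (hq : q ∈ S)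
    (hp : X.nb q j ∉ S) : X.gr S ≤ X.gr (insert (X.nb q j) S) := by
  have := X.finite_quot
  cases nonempty_fintype P
  set p := X.nb q j with hpdef
  set i := X.ix q j with hidef
  have hqp : q ≠ p := fun h => hp (h ▸ hq)
  have hnb : X.nb p i = q := X.nb_nb q j
  have hix : X.ix p i = j := X.ix_ix q j
  have hicap : ¬ X.Capped p i := fun h => hqp (hnb.symm.trans h.1)
  -- z ∈ K_S vanishes on facet i of p
  have hvan : ∀ z ∈ X.KS S, ∀ a b, a ≠ i → b ≠ i → z p a b = 0 := by
    intro z hz a b ha hb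
    have := hz.1.2.2 p i a b ha hb
    rw [← this, hnb]
    exact hz.2 q hq _ _
  obtain ⟨a₀, ha₀⟩ : ∃ a : Fin 5, a ≠ i := exists_ne i
  have hall : ∀ z ∈ X.KS S, ∀ a, a ≠ i → z p i a = z p i a₀ := by
    intro z hz a ha
    have h1 := hz.1.1 p i a₀ a
    have h2 := hvan z hz a₀ a ha₀ ha
    linarith
  have hker : X.KS S ⊓ LinearMap.ker (ev p i a₀) ≤ X.KS (insert p S) := by
    rintro z ⟨hz, hz0⟩
    have hz0' : z p i a₀ = 0 := hz0
    have h0 : ∀ a, z p i a = 0 := by
      intro a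
      by_cases ha : a = i
      · subst ha; exact Z_self hz.1 p _
      · rw [hall z hz a ha, hz0']
    refine ⟨hz.1, fun p' hp' a b => ?_⟩
    rcases hp' with hp' | hp'
    · rw [hp']
      have h1 := hz.1.1 p a i b
      have h2 := Z_symm hz.1 p a i
      have h3 := h0 a
      have h4 := h0 b
      linarith
    · exact hz.2 p' hp' a b
  have hfr := finrank_le_inf_ker (X.KS S) (ev p i a₀)
  have hfr2 : Module.finrank ℚ ↥(X.KS S ⊓ LinearMap.ker (ev p i a₀)) ≤
      Module.finrank ℚ (X.KS (insert p S)) := Submodule.finrank_mono hker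
  have hcm : (X.cls S).ncard ≤ (X.cls (insert p S)).ncard :=
    Set.ncard_le_ncard (cls_mono (Set.subset_insert _ _)) (Set.toFinite _)
  have hum : (X.unc S).ncard ≤ (X.unc (insert p S)).ncard :=
    Set.ncard_le_ncard (unc_mono (Set.subset_insert _ _)) (Set.toFinite _)
  by_cases hcase : ∀ z ∈ X.KS S, z p i a₀ = 0
  · have : X.KS S ≤ X.KS (insert p S) := fun z hz => hker ⟨hz, hcase z hz⟩
    have := Submodule.finrank_mono this
    unfold gr
    omega
  · push Not at hcase
    obtain ⟨z, hz, hc⟩ := hcase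
    set c := z p i a₀ with hcdef
    have hzi : ∀ a, a ≠ i → z p i a = c := fun a ha => hall z hz a ha
    -- p has no capped facet
    have hpc : ∀ i', ¬ X.Capped p i' := by
      intro i' hi'
      have hne : i ≠ i' := by rintro rfl; exact hicap hi'
      obtain ⟨a, ha1, ha2⟩ : ∃ a : Fin 5, a ≠ i ∧ a ≠ i' := by
        have : ∀ i i' : Fin 5, ∃ a : Fin 5, a ≠ i ∧ a ≠ i' := by decide
        exact this i i'
      have := hz.1.2.1 p i' hi' i a hne ha2
      rw [hzi a ha1] at this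
      exact hc this
    have hu : (X.unc S).ncard + 1 ≤ (X.unc (insert p S)).ncard := by
      have hsub : insert p (X.unc S) ⊆ X.unc (insert p S) := by
        rintro r (rfl | hr)
        · exact ⟨Set.mem_insert _ _, hpc⟩
        · exact unc_mono (Set.subset_insert _ _) hr
      have h1 := Set.ncard_le_ncard hsub (Set.toFinite _)
      have h2 : p ∉ X.unc S := fun h => hp h.1
      rwa [Set.ncard_insert_of_notMem h2 (Set.toFinite _)] at h1
    -- new classes
    have hnew : ∀ a (ha : a ≠ i), Quot.mk X.relE (p, eg i a ha) ∉ X.cls S := by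
      rintro a ha ⟨x, hx, hxq⟩
      have h1 := val_quot hz.1 hxq
      rw [val_eg hz.1 p i a ha, hzi a ha] at h1
      have h2 : val z x = 0 := hz.2 x.1 hx _ _
      rw [h2] at h1
      split_ifs at h1
      · exact hc h1.symm
      · apply hc; linarith
    have hin : ∀ a (ha : a ≠ i), Quot.mk X.relE (p, eg i a ha) ∈ X.cls (insert p S) :=
      fun a ha => ⟨(p, eg i a ha), Set.mem_insert _ _, rfl⟩
    obtain ⟨a, ha, hab⟩ : ∃ a, ∃ ha : a ≠ i,
        Quot.mk X.relE (p, eg i a ha) ≠ Quot.mk X.relE (p, eg i a₀ ha₀) := by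
      by_contra hcon
      push Not at hcon
      apply hn p i hicap
      intro z' hz' a b ha hb
      -- same side
      have hside : ∀ a (ha : a ≠ i), (i < a ↔ i < a₀) := by
        intro a ha
        have h1 := val_quot hz.1 (hcon a ha)
        rw [val_eg hz.1 p i a ha, hzi a ha, val_eg hz.1 p i a₀ ha₀, hzi a₀ ha₀] at h1
        split_ifs at h1 with h2 h3 h3
        · exact ⟨fun _ => h3, fun _ => h2⟩
        · exfalso; apply hc; linarith
        · exfalso; apply hc; linarith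
        · exact ⟨fun h => absurd h h2, fun h => absurd h h3⟩
      have heq : ∀ a (_ : a ≠ i), z' p i a = z' p i a₀ := by
        intro a ha
        have h1 := val_quot hz' (hcon a ha)
        rw [val_eg hz' p i a ha, val_eg hz' p i a₀ ha₀] at h1
        have h2 := hside a ha
        by_cases h3 : i < a₀
        · rwa [if_pos (h2.2 h3), if_pos h3] at h1
        · rw [if_neg (fun h => h3 (h2.1 h)), if_neg h3] at h1
          linarith
      have h1 := hz'.1 p i a b
      rw [heq a ha, heq b hb] at h1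
      linarith
    have hcl : (X.cls S).ncard + 2 ≤ (X.cls (insert p S)).ncard := by
      have hsub : insert (Quot.mk X.relE (p, eg i a ha))
          (insert (Quot.mk X.relE (p, eg i a₀ ha₀)) (X.cls S)) ⊆ X.cls (insert p S) := by
        rintro r (rfl | rfl | hr)
        · exact hin a ha
        · exact hin a₀ ha₀
        · exact cls_mono (Set.subset_insert _ _) hr
      have h1 := Set.ncard_le_ncard hsub (Set.toFinite _)
      rw [Set.ncard_insert_of_notMem _ (Set.toFinite _),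
        Set.ncard_insert_of_notMem (hnew a₀ ha₀) (Set.toFinite _)] at h1
      · omega
      · rintro (h | h)
        · exact hab h
        · exact hnew a ha h
    unfold gr
    omega

/-- growing from `S` to everything -/
theorem gr_le_univ [Finite P] (hconn : X.Conn) (hn : X.NF) (S : Set P) (hS : S.Nonempty) :
    X.gr S ≤ X.gr Set.univ := by
  suffices h : ∀ n : ℕ, ∀ S : Set P, S.Nonempty → Sᶜ.ncard = n → X.gr S ≤ X.gr Set.univ from
    h _ S hS rfl
  intro n
  induction n with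
  | zero =>
    intro S hS hn
    have : Sᶜ = ∅ := (Set.ncard_eq_zero (Set.toFinite _)).1 hn
    rw [Set.compl_empty_iff.1 this]
  | succ n ih =>
    intro S hS hcard
    have hne : S ≠ Set.univ := by
      rintro rfl
      simp at hcard
    obtain ⟨q, hq, j, hj⟩ : ∃ q ∈ S, ∃ j, X.nb q j ∉ S := by
      by_contra hcon
      push Not at hcon
      exact hne (hconn S hS hcon)
    refine (gr_step hn S q j hq hj).trans (ih _ (Set.insert_nonempty _ _) ?_)
    have h1 : Sᶜ = insert (X.nb q j) (insert (X.nb q j) S)ᶜ := by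
      ext r
      by_cases hr : r = X.nb q j
      · subst hr; simp [hj]
      · simp [hr]
    have h2 : X.nb q j ∉ (insert (X.nb q j) S)ᶜ := by simp
    rw [h1, Set.ncard_insert_of_notMem h2 (Set.toFinite _)] at hcard
    omega

theorem KS_univ : X.KS Set.univ = ⊥ := by
  rw [eq_bot_iff]
  intro z hz
  have : z = 0 := by
    funext p a b
    exact hz.2 p trivial a b
  simp [this]

theorem gr_univ [Finite P] : X.gr Set.univ ≤ X.E + (X.unc Set.univ).ncard := by
  have := X.finite_quot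
  unfold gr
  rw [KS_univ, finrank_bot]
  have : (X.cls Set.univ).ncard ≤ X.E := by
    unfold E ncl
    rw [← Set.ncard_univ]
    exact Set.ncard_le_ncard (Set.subset_univ _) (Set.toFinite _)
  omega

/-- start at a capped facet -/
theorem start_capped [Finite P] (p : P) (j : Fin 5) (hc : X.Capped p j) :
    3 * X.w ≤ X.gr {p} + 1 := by
  have := X.finite_quot
  cases nonempty_fintype P
  obtain ⟨a₀, b₀, ha₀, hb₀, hab⟩ : ∃ a b : Fin 5, a ≠ j ∧ b ≠ j ∧ a < b := by
    have : ∀ j : Fin 5, ∃ a b : Fin 5, a ≠ j ∧ b ≠ j ∧ a < b := by decide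
    exact this j
  have hall : ∀ z ∈ X.Z, ∀ a, a ≠ j → z p j a = z p j a₀ := by
    intro z hz a ha
    have h1 := hz.1 p j a₀ a
    have h2 := hz.2.1 p j hc a₀ a ha₀ ha
    linarith
  have hker : X.Z ⊓ LinearMap.ker (ev p j a₀) ≤ X.KS {p} := by
    rintro z ⟨hz, hz0⟩
    have hz0' : z p j a₀ = 0 := hz0
    have h0 : ∀ a, z p j a = 0 := by
      intro a
      by_cases ha : a = j
      · subst ha; exact Z_self hz p _
      · rw [hall z hz a ha, hz0']
    refine ⟨hz, fun p' hp' a b => ?_⟩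
    rw [Set.mem_singleton_iff] at hp'
    subst hp'
    have h1 := hz.1 p' a j b
    have h2 := Z_symm hz p' a j
    have h3 := h0 a
    have h4 := h0 b
    linarith
  have hfr := finrank_le_inf_ker X.Z (ev p j a₀)
  have hfr2 : Module.finrank ℚ ↥(X.Z ⊓ LinearMap.ker (ev p j a₀)) ≤
      Module.finrank ℚ (X.KS {p}) := Submodule.finrank_mono hker
  by_cases hcase : ∀ z ∈ X.Z, z p j a₀ = 0
  · have : X.Z ≤ X.KS {p} := fun z hz => hker ⟨hz, hcase z hz⟩
    have := Submodule.finrank_mono this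
    unfold gr w
    omega
  · push Not at hcase
    obtain ⟨z, hz, hz0⟩ := hcase
    have hcl : 2 ≤ (X.cls {p}).ncard := by
      have hne : Quot.mk X.relE (p, eg j a₀ ha₀) ≠ Quot.mk X.relE (p, ⟨(a₀, b₀), hab⟩) := by
        intro h
        have h1 := val_quot hz h
        rw [val_eg hz p j a₀ ha₀] at h1
        have h2 : val z (p, (⟨(a₀, b₀), hab⟩ : EF)) = 0 := hz.2.1 p j hc a₀ b₀ ha₀ hb₀
        rw [h2] at h1
        split_ifs at h1
        · exact hz0 h1
        · apply hz0; linarith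
      have hsub : ({Quot.mk X.relE (p, eg j a₀ ha₀), Quot.mk X.relE (p, ⟨(a₀, b₀), hab⟩)} :
          Set (Quot X.relE)) ⊆ X.cls {p} := by
        rintro r (rfl | rfl)
        · exact ⟨(p, eg j a₀ ha₀), Set.mem_singleton _, rfl⟩
        · exact ⟨(p, ⟨(a₀, b₀), hab⟩), Set.mem_singleton _, rfl⟩
      have h1 := Set.ncard_le_ncard hsub (Set.toFinite _)
      rwa [Set.ncard_pair hne] at h1
    unfold gr w
    omega

end CG

theorem T_G1 : S_G1 := by
  intro P _ X hconn hn hcap h1
  have := Fintype.ofFinite P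
  classical
  obtain ⟨p, j, hc⟩ := hcap
  have h2 := CG.start_capped p j hc
  have h3 := CG.gr_le_univ hconn hn {p} (Set.singleton_nonempty p)
  have h4 := CG.gr_univ (X := X)
  have h5 : (X.unc Set.univ).ncard + X.K ≤ Nat.card P := by
    -- capped pentachora
    have e1 : X.K ≤ (X.unc Set.univ)ᶜ.ncard := by
      unfold CG.K
      rw [← Nat.card_coe_set_eq]
      refine Nat.card_le_card_of_injective
        (fun x : {x : P × Fin 5 // X.Capped x.1 x.2} =>
          (⟨x.1.1, fun h => h.2 x.1.2 x.2⟩ : ↥(X.unc Set.univ)ᶜ)) ?_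
      rintro ⟨⟨p, i⟩, hx⟩ ⟨⟨p', i'⟩, hx'⟩ h
      have hp : p = p' := congrArg Subtype.val h
      subst hp
      have hi : i = i' := h1 p i i' hx hx'
      subst hi
      rfl
    have e2 := Set.ncard_add_ncard_compl (X.unc Set.univ)
    omega
  omega

namespace CG

variable {P : Type} {X : CG P}

open Classical in
/-- greedy vertices of `p` -/
noncomputable def greedy (X : CG P) (p : P) : Finset (Fin 5) :=
  Finset.univ.filter fun b => ∃ z ∈ X.Z, (∀ a, a < b → z p 0 a = 0) ∧ z p 0 b ≠ 0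

theorem mem_greedy {p : P} {b : Fin 5} :
    b ∈ X.greedy p ↔ ∃ z ∈ X.Z, (∀ a, a < b → z p 0 a = 0) ∧ z p 0 b ≠ 0 := by
  classical
  simp [greedy]

/-- cocycles vanishing on the vertices `< n` of `p` -/
def Kn (X : CG P) (p : P) (n : ℕ) : Submodule ℚ (P → Fin 5 → Fin 5 → ℚ) where
  carrier := {z | z ∈ X.Z ∧ ∀ a : Fin 5, a.val < n → z p 0 a = 0}
  add_mem' := by
    rintro f g ⟨hf1, hf2⟩ ⟨hg1, hg2⟩
    exact ⟨X.Z.add_mem hf1 hg1, fun a ha => by simp [hf2 a ha, hg2 a ha]⟩
  zero_mem' := ⟨X.Z.zero_mem, fun _ _ => rfl⟩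
  smul_mem' := by
    rintro t f ⟨hf1, hf2⟩
    exact ⟨X.Z.smul_mem t hf1, fun a ha => by simp [hf2 a ha]⟩

theorem Kn_step [Finite P] (p : P) (b : Fin 5) :
    Module.finrank ℚ (X.Kn p b.val) ≤ Module.finrank ℚ (X.Kn p (b.val + 1)) +
      (if b ∈ X.greedy p then 1 else 0) := by
  cases nonempty_fintype P
  have hker : X.Kn p b.val ⊓ LinearMap.ker (ev p 0 b) ≤ X.Kn p (b.val + 1) := by
    rintro z ⟨hz, hz0⟩
    have hz0' : z p 0 b = 0 := hz0
    refine ⟨hz.1, fun a ha => ?_⟩
    by_cases h : a = b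
    · rw [h]; exact hz0'
    · exact hz.2 a (by
        have : a.val ≠ b.val := fun h' => h (Fin.ext h')
        omega)
  have hfr := finrank_le_inf_ker (X.Kn p b.val) (ev p 0 b)
  have hfr2 : Module.finrank ℚ ↥(X.Kn p b.val ⊓ LinearMap.ker (ev p 0 b)) ≤
      Module.finrank ℚ (X.Kn p (b.val + 1)) := Submodule.finrank_mono hker
  split_ifs with hb
  · omega
  · have : X.Kn p b.val ≤ X.Kn p (b.val + 1) := by
      intro z hz
      refine hker ⟨hz, ?_⟩
      by_contra h0
      exact hb (mem_greedy.2 ⟨z, hz.1, fun a ha => hz.2 a ha, h0⟩)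
    have := Submodule.finrank_mono this
    omega

theorem w_le_greedy [Finite P] (p : P) :
    X.w ≤ Module.finrank ℚ (X.KS {p}) + (X.greedy p).card := by
  cases nonempty_fintype P
  have h0 : Module.finrank ℚ (X.Kn p 0) ≤ Module.finrank ℚ (X.Kn p 1) +
      (if 0 ∈ X.greedy p then 1 else 0) := X.Kn_step p 0
  have h1 : Module.finrank ℚ (X.Kn p 1) ≤ Module.finrank ℚ (X.Kn p 2) +
      (if 1 ∈ X.greedy p then 1 else 0) := X.Kn_step p 1
  have h2 : Module.finrank ℚ (X.Kn p 2) ≤ Module.finrank ℚ (X.Kn p 3) +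
      (if 2 ∈ X.greedy p then 1 else 0) := X.Kn_step p 2
  have h3 : Module.finrank ℚ (X.Kn p 3) ≤ Module.finrank ℚ (X.Kn p 4) +
      (if 3 ∈ X.greedy p then 1 else 0) := X.Kn_step p 3
  have h4 : Module.finrank ℚ (X.Kn p 4) ≤ Module.finrank ℚ (X.Kn p 5) +
      (if 4 ∈ X.greedy p then 1 else 0) := X.Kn_step p 4
  have e0 : X.w ≤ Module.finrank ℚ (X.Kn p 0) := by
    unfold w
    exact Submodule.finrank_mono fun z hz => ⟨hz, fun a ha => absurd ha (Nat.not_lt_zero _)⟩
  have e5 : Module.finrank ℚ (X.Kn p 5) ≤ Module.finrank ℚ (X.KS {p}) := by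
    refine Submodule.finrank_mono fun z hz => ⟨hz.1, fun p' hp' a b => ?_⟩
    rw [Set.mem_singleton_iff] at hp'
    subst hp'
    have h1 := hz.1.1 p' 0 a b
    have h2 := hz.2 a a.isLt
    have h3 := hz.2 b b.isLt
    linarith
  have ec : (X.greedy p).card = ∑ b : Fin 5, (if b ∈ X.greedy p then 1 else 0) := by
    simp
  rw [Fin.sum_univ_five] at ec
  omega

/-- the pairs of greedy vertices -/
def gpairs (G : Finset (Fin 5)) : Finset (Fin 5 × Fin 5) :=
  ((insert 0 G) ×ˢ G).filter fun x => x.1 < x.2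

theorem card_gpairs : ∀ G : Finset (Fin 5), 0 ∉ G → 3 * G.card ≤ (gpairs G).card + 3 := by
  decide

theorem greedy_zero (p : P) : 0 ∉ X.greedy p := by
  rw [mem_greedy]
  rintro ⟨z, hz, -, h⟩
  exact h (Z_self hz p 0)

theorem gpairs_le_cls [Finite P] (p : P) : (gpairs (X.greedy p)).card ≤ (X.cls {p}).ncard := by
  have := X.finite_quot
  classical
  have hlt : ∀ x ∈ gpairs (X.greedy p), x.1 < x.2 := fun x hx => (Finset.mem_filter.1 hx).2
  rw [← Nat.card_coe_set_eq, ← Fintype.card_coe, ← Nat.card_eq_fintype_card]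
  refine Nat.card_le_card_of_injective
    (fun x : gpairs (X.greedy p) =>
      (⟨Quot.mk X.relE (p, ⟨x.1, hlt x.1 x.2⟩), (p, ⟨x.1, hlt x.1 x.2⟩),
        Set.mem_singleton _, rfl⟩ : ↥(X.cls {p}))) ?_
  -- values
  have hval : ∀ z ∈ X.Z, ∀ x : gpairs (X.greedy p),
      val z (p, (⟨x.1, hlt x.1 x.2⟩ : EF)) = z p 0 x.1.2 - z p 0 x.1.1 := by
    intro z hz x
    have := hz.1 p 0 x.1.1 x.1.2
    change z p x.1.1 x.1.2 = _
    linarith
  have key : ∀ x y : gpairs (X.greedy p),
      Quot.mk X.relE (p, (⟨x.1, hlt x.1 x.2⟩ : EF)) =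
        Quot.mk X.relE (p, (⟨y.1, hlt y.1 y.2⟩ : EF)) → ¬ x.1.2 < y.1.2 := by
    intro x y h hxy
    have hy := (Finset.mem_filter.1 y.2)
    have hy2 : y.1.2 ∈ X.greedy p := (Finset.mem_product.1 hy.1).2
    obtain ⟨z, hz, hz1, hz2⟩ := mem_greedy.1 hy2
    have h1 := val_quot hz h
    rw [hval z hz x, hval z hz y, hz1 _ hxy, hz1 _ (hlt y.1 y.2),
      hz1 _ ((hlt x.1 x.2).trans hxy)] at h1
    apply hz2
    linarith
  have key2 : ∀ x y : gpairs (X.greedy p),
      Quot.mk X.relE (p, (⟨x.1, hlt x.1 x.2⟩ : EF)) =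
        Quot.mk X.relE (p, (⟨y.1, hlt y.1 y.2⟩ : EF)) → x.1.2 = y.1.2 → ¬ x.1.1 < y.1.1 := by
    intro x y h h2 hxy
    have hy := (Finset.mem_filter.1 y.2)
    have hy1 : y.1.1 ∈ insert 0 (X.greedy p) := (Finset.mem_product.1 hy.1).1
    have hy1' : y.1.1 ∈ X.greedy p := by
      rcases Finset.mem_insert.1 hy1 with h | h
      · rw [h] at hxy
        exact absurd hxy (Fin.not_lt_zero _)
      · exact h
    obtain ⟨z, hz, hz1, hz2⟩ := mem_greedy.1 hy1'
    have h1 := val_quot hz h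
    rw [hval z hz x, hval z hz y, h2, hz1 _ hxy] at h1
    apply hz2
    linarith
  intro x y h
  have h' : Quot.mk X.relE (p, (⟨x.1, hlt x.1 x.2⟩ : EF)) =
        Quot.mk X.relE (p, (⟨y.1, hlt y.1 y.2⟩ : EF)) := congrArg Subtype.val h
  have e2 : x.1.2 = y.1.2 :=
    le_antisymm (not_lt.1 (key y x h'.symm)) (not_lt.1 (key x y h'))
  have e1 : x.1.1 = y.1.1 :=
    le_antisymm (not_lt.1 (key2 y x h'.symm e2.symm)) (not_lt.1 (key2 x y h' e2))
  exact Subtype.ext (Prod.ext e1 e2)

end CG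

theorem T_G2 : S_G2 := by
  intro P _ _ X hconn hn hcap
  classical
  obtain ⟨p⟩ := ‹Nonempty P›
  have h1 := CG.w_le_greedy (X := X) p
  have h2 := CG.card_gpairs _ (CG.greedy_zero (X := X) p)
  have h2' := CG.gpairs_le_cls (X := X) p
  have h3 := CG.gr_le_univ hconn hn {p} (Set.singleton_nonempty p)
  have h4 := CG.gr_univ (X := X)
  have h5 : (X.unc {p}).ncard = 1 := by
    have : X.unc {p} = {p} := by
      ext q
      exact ⟨fun h => h.1, fun h => ⟨h, fun j => hcap q j⟩⟩
    rw [this, Set.ncard_singleton]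
  have h6 : (X.unc Set.univ).ncard ≤ Nat.card P := by
    rw [← Set.ncard_univ]
    exact Set.ncard_le_ncard (Set.subset_univ _) (Set.toFinite _)
  unfold CG.gr at h3 h4
  omega

end Pool.Agent.H830.OT
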