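import Pool.Agent.H830.OT.Stm

/-!
# S_L1 and S_L2: orbit counts
-/

set_option autoImplicit false

namespace Pool.Agent.H830.OT

namespace L12

open Finset CG

theorem card_LF : Fintype.card LF = 60 := by decide

/-- the facet `j` of a flag `(i, j, k)` -/
def fj (l : LF) : Fin 5 := l.1.2.1

/-- `i`, `k` are the vertices of ranks 1 and 2 of `V \ {j}` -/
def sp (l : LF) : Prop :=
  (rk l.1.2.1 l.1.1 = 1 ∧ rk l.1.2.1 l.1.2.2 = 2) ∨ (rk l.1.2.1 l.1.1 = 2 ∧ rk l.1.2.1 l.1.2.2 = 1)

instance (l : LF) : Decidable (sp l) := by unfold sp; infer_instance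

theorem card_sp : ∀ j : Fin 5, (univ.filter (fun l : LF => fj l = j ∧ sp l)).card = 2 := by decide

theorem card_nsp : ∀ j : Fin 5, (univ.filter (fun l : LF => fj l = j ∧ ¬ sp l)).card = 10 := by
  decide

theorem sp_be {P : Type} (x : P × LF) : sp (be x).2 ↔ sp x.2 := by
  unfold sp be
  simp only
  tauto

theorem sp_cc_aux : ∀ i j k : Fin 5, i ≠ j → i ≠ k → j ≠ k →
    (((rk j (cc j k i) = 1 ∧ rk j (cc j k k) = 2) ∨ (rk j (cc j k i) = 2 ∧ rk j (cc j k k) = 1)) ↔
      ((rk j i = 1 ∧ rk j k = 2) ∨ (rk j i = 2 ∧ rk j k = 1))) := by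
  decide

variable {P : Type} (X : CG P)

theorem gamL_capped {x : P × LF} (h : X.Capped x.1 (fj x.2)) :
    (X.gamL x).1 = x.1 ∧ fj (X.gamL x).2 = fj x.2 ∧ (sp (X.gamL x).2 ↔ sp x.2) := by
  obtain ⟨p, ⟨⟨i, j, k⟩, g1, g2, g3⟩⟩ := x
  simp only [fj] at h g1 g2 g3 ⊢
  have hj : X.tr p j k j = j := by rw [X.tr_self, h.2]
  have htr : ∀ a, X.tr p j k a = cc j k a := fun a => by
    unfold CG.tr
    rw [if_pos h]
  refine ⟨h.1, hj, ?_⟩
  unfold sp gamL
  simp only
  rw [hj, htr, htr]
  exact sp_cc_aux i j k g1 g2 g3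

theorem gamL_be {x : P × LF} (h : ¬ X.Capped x.1 (fj x.2)) :
    X.gamL (be x) = be (X.gamL x) := by
  obtain ⟨p, ⟨⟨i, j, k⟩, g1, g2, g3⟩⟩ := x
  simp only [fj] at h
  have htr : ∀ k' a, X.tr p j k' a = gm j (X.ix p j) a := fun k' a => by
    unfold CG.tr
    rw [if_neg h]
  refine ext_LF ?_ ?_ ?_ ?_
  · rfl
  · show X.tr p j i k = X.tr p j k k
    rw [htr, htr]
  · show X.tr p j i j = X.tr p j k j
    rw [htr, htr]
  · show X.tr p j i i = X.tr p j k i
    rw [htr, htr]

theorem capped_gamL {x : P × LF} :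
    X.Capped (X.gamL x).1 (fj (X.gamL x).2) ↔ X.Capped x.1 (fj x.2) := by
  have key : ∀ x : P × LF, X.Capped (X.gamL x).1 (fj (X.gamL x).2) → X.Capped x.1 (fj x.2) := by
    rintro ⟨p, ⟨⟨i, j, k⟩, g1, g2, g3⟩⟩ h
    have hj : X.tr p j k j = X.ix p j := X.tr_self p j k
    have h' : X.Capped (X.nb p j) (X.tr p j k j) := h
    rw [hj] at h'
    exact h'.symm'
  refine ⟨key x, fun h => ?_⟩
  have h1 := key (X.gamL x)
  rw [X.gamL_gamL] at h1
  exact h1 h |> fun h2 => h2

theorem fj_be (x : P × LF) : fj (be x).2 = fj x.2 := rfl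

theorem al_be_al (x : P × LF) : al (be (al x)) = be (al (be x)) := rfl

end L12

open L12 Finset CG in
theorem T_L1 (hW : S_W) : S_L1 := by
  classical
  intro P _
  let _ := Fintype.ofFinite P
  have h1 := hW (P × LF) (fun x y : P × LF => y = CG.al x ∨ y = CG.be x) (fun _ => 1 / 6)
    (fun x => {x, al x, be x, al (be x), be (al x), al (be (al x))})
    (by
      intro x
      exact Finset.mem_insert_self _ _)
    (by
      intro x y z hy hyz
      simp only [Finset.mem_insert, Finset.mem_singleton] at hy ⊢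
      rcases hy with rfl | rfl | rfl | rfl | rfl | rfl <;> rcases hyz with rfl | rfl
      · tauto
      · tauto
      · left; rfl
      · tauto
      · tauto
      · left; rfl
      · right; right; left; rfl
      · right; right; right; right; right; rfl
      · right; right; right; right; right; rfl
      · right; left; rfl
      · right; right; right; right; left; rfl
      · right; right; right; left; rfl)
    (by
      intro x y z hy hyz
      simp only [Finset.mem_insert, Finset.mem_singleton] at hy ⊢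
      have hyz' : z = al y ∨ z = be y := by
        rcases hyz with rfl | rfl
        · left; rfl
        · right; rfl
      clear hyz
      rcases hy with rfl | rfl | rfl | rfl | rfl | rfl <;> rcases hyz' with rfl | rfl
      · tauto
      · tauto
      · left; rfl
      · tauto
      · tauto
      · left; rfl
      · right; right; left; rfl
      · right; right; right; right; right; rfl
      · right; right; right; right; right; rfl
      · right; left; rfl
      · right; right; right; right; left; rfl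
      · right; right; right; left; rfl)
    (by intro x; norm_num)
    (by
      intro x
      rw [Finset.sum_const, nsmul_eq_mul]
      have h2 : ({x, al x, be x, al (be x), be (al x), al (be (al x))} :
          Finset (P × LF)).card ≤ 6 := Finset.card_le_six
      have h3 : ((({x, al x, be x, al (be x), be (al x), al (be (al x))} :
          Finset (P × LF)).card : ℕ) : ℚ) ≤ 6 := by exact_mod_cast h2
      linarith)
  rw [Finset.sum_const, Finset.card_univ, Fintype.card_prod, card_LF, nsmul_eq_mul] at h1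
  have h2 : (10 * Nat.card P : ℚ) ≤ (ncl (fun x y : P × LF => y = CG.al x ∨ y = CG.be x) : ℚ) := by
    rw [Nat.card_eq_fintype_card]
    push_cast at h1
    linarith
  exact_mod_cast h2

namespace L12

open Finset CG

open Classical in
/-- the weights for `S_L2` -/
noncomputable def wt {P : Type} (X : CG P) (x : P × LF) : ℚ :=
  if X.Capped x.1 (fj x.2) then (if sp x.2 then 1 / 2 else 1 / 10) else 1 / 4

open Classical in
/-- the neighbourhoods for `S_L2` -/
noncomputable def NN {P : Type} (X : CG P) [Fintype P] (x : P × LF) : Finset (P × LF) :=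
  if X.Capped x.1 (fj x.2) then
    univ.filter (fun y => y.1 = x.1 ∧ fj y.2 = fj x.2 ∧ (sp y.2 ↔ sp x.2))
  else {x, be x, X.gamL x, be (X.gamL x)}

theorem NN_closed {P : Type} (X : CG P) [Fintype P] (x y z : P × LF) (hy : y ∈ NN X x)
    (h : z = be y ∨ z = X.gamL y) : z ∈ NN X x := by
  classical
  unfold NN at hy ⊢
  by_cases hc : X.Capped x.1 (fj x.2)
  · rw [if_pos hc, mem_filter] at hy
    rw [if_pos hc, mem_filter]
    obtain ⟨_, h1, h2, h3⟩ := hy
    refine ⟨mem_univ _, ?_⟩
    rcases h with rfl | rfl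
    · exact ⟨h1, h2, (sp_be y).trans h3⟩
    · have hc' : X.Capped y.1 (fj y.2) := by rw [h1, h2]; exact hc
      obtain ⟨g1, g2, g3⟩ := gamL_capped X hc'
      exact ⟨g1.trans h1, g2.trans h2, g3.trans h3⟩
  · rw [if_neg hc] at hy ⊢
    simp only [Finset.mem_insert, Finset.mem_singleton] at hy ⊢
    have hc' : ¬ X.Capped (X.gamL x).1 (fj (X.gamL x).2) := fun h' => hc ((capped_gamL X).1 h')
    rcases hy with rfl | rfl | rfl | rfl <;> rcases h with rfl | rfl
    · tauto
    · tauto
    · left; rfl
    · right; right; right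
      exact gamL_be X hc
    · tauto
    · left
      exact X.gamL_gamL _
    · right; right; left; rfl
    · right; left
      rw [gamL_be X hc', X.gamL_gamL]

theorem NN_sum {P : Type} (X : CG P) [Fintype P] (x : P × LF) : ∑ y ∈ NN X x, wt X y ≤ 1 := by
  classical
  unfold NN
  by_cases hc : X.Capped x.1 (fj x.2)
  · rw [if_pos hc]
    have h1 : ∀ y ∈ univ.filter (fun y : P × LF => y.1 = x.1 ∧ fj y.2 = fj x.2 ∧
        (sp y.2 ↔ sp x.2)), wt X y = if sp x.2 then 1 / 2 else 1 / 10 := by
      intro y hy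
      rw [mem_filter] at hy
      obtain ⟨_, h1, h2, h3⟩ := hy
      unfold wt
      rw [h1, h2, if_pos hc]
      simp only [h3]
    rw [Finset.sum_congr rfl h1, Finset.sum_const, nsmul_eq_mul]
    have h2 : (univ.filter (fun y : P × LF => y.1 = x.1 ∧ fj y.2 = fj x.2 ∧
        (sp y.2 ↔ sp x.2))) =
        (univ.filter (fun l : LF => fj l = fj x.2 ∧ (sp l ↔ sp x.2))).image (fun l => (x.1, l)) := by
      ext ⟨p, l⟩
      simp only [mem_filter, mem_univ, true_and, mem_image, Prod.mk.injEq]
      constructor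
      · rintro ⟨a, b, c⟩
        exact ⟨l, ⟨b, c⟩, a.symm, rfl⟩
      · rintro ⟨l', ⟨b, c⟩, a, rfl⟩
        exact ⟨a.symm, b, c⟩
    have h3 : (univ.filter (fun y : P × LF => y.1 = x.1 ∧ fj y.2 = fj x.2 ∧
        (sp y.2 ↔ sp x.2))).card ≤
        (univ.filter (fun l : LF => fj l = fj x.2 ∧ (sp l ↔ sp x.2))).card := by
      rw [h2]
      exact Finset.card_image_le
    by_cases hs : sp x.2
    · have h4 : (univ.filter (fun l : LF => fj l = fj x.2 ∧ (sp l ↔ sp x.2))) =
          univ.filter (fun l : LF => fj l = fj x.2 ∧ sp l) := by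
        apply Finset.filter_congr
        intro l _
        exact and_congr_right fun _ => iff_true_right hs
      rw [h4, card_sp] at h3
      rw [if_pos hs]
      have h5 : (((univ.filter (fun y : P × LF => y.1 = x.1 ∧ fj y.2 = fj x.2 ∧
        (sp y.2 ↔ sp x.2))).card : ℕ) : ℚ) ≤ 2 := by exact_mod_cast h3
      linarith
    · have h4 : (univ.filter (fun l : LF => fj l = fj x.2 ∧ (sp l ↔ sp x.2))) =
          univ.filter (fun l : LF => fj l = fj x.2 ∧ ¬ sp l) := by
        apply Finset.filter_congr
        intro l _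
        exact and_congr_right fun _ => iff_false_right hs
      rw [h4, card_nsp] at h3
      rw [if_neg hs]
      have h5 : (((univ.filter (fun y : P × LF => y.1 = x.1 ∧ fj y.2 = fj x.2 ∧
        (sp y.2 ↔ sp x.2))).card : ℕ) : ℚ) ≤ 10 := by exact_mod_cast h3
      linarith
  · rw [if_neg hc]
    have hc' : ¬ X.Capped (X.gamL x).1 (fj (X.gamL x).2) := fun h' => hc ((capped_gamL X).1 h')
    have h1 : ∀ y ∈ ({x, be x, X.gamL x, be (X.gamL x)} : Finset (P × LF)), wt X y = 1 / 4 := by
      intro y hy
      simp only [Finset.mem_insert, Finset.mem_singleton] at hy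
      unfold wt
      rcases hy with rfl | rfl | rfl | rfl
      · rw [if_neg hc]
      · rw [if_neg (show ¬ X.Capped (be x).1 (fj (be x).2) from hc)]
      · rw [if_neg hc']
      · rw [if_neg (show ¬ X.Capped (be (X.gamL x)).1 (fj (be (X.gamL x)).2) from hc')]
    rw [Finset.sum_congr rfl h1, Finset.sum_const, nsmul_eq_mul]
    have h2 : ({x, be x, X.gamL x, be (X.gamL x)} : Finset (P × LF)).card ≤ 4 :=
      Finset.card_le_four
    have h3 : ((({x, be x, X.gamL x, be (X.gamL x)} : Finset (P × LF)).card : ℕ) : ℚ) ≤ 4 := by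
      exact_mod_cast h2
    linarith

/-- the weight of a facet -/
theorem facet_sum (C : Prop) [Decidable C] (j : Fin 5) :
    ∑ l ∈ univ.filter (fun l : LF => fj l = j),
      (if C then (if sp l then (1 / 2 : ℚ) else 1 / 10) else 1 / 4) = 3 - if C then 1 else 0 := by
  have h1 := Finset.sum_filter_add_sum_filter_not (univ.filter (fun l : LF => fj l = j))
    (fun l => sp l) (fun l => (if C then (if sp l then (1 / 2 : ℚ) else 1 / 10) else 1 / 4))
  rw [← h1, Finset.filter_filter, Finset.filter_filter]
  have h2 : ∑ l ∈ univ.filter (fun l : LF => fj l = j ∧ sp l),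
      (if C then (if sp l then (1 / 2 : ℚ) else 1 / 10) else 1 / 4) =
      2 * (if C then (1 / 2 : ℚ) else 1 / 4) := by
    have h3 : ∀ l ∈ univ.filter (fun l : LF => fj l = j ∧ sp l),
        (if C then (if sp l then (1 / 2 : ℚ) else 1 / 10) else 1 / 4) =
        (if C then (1 / 2 : ℚ) else 1 / 4) := by
      intro l hl
      rw [if_pos (mem_filter.1 hl).2.2]
    rw [Finset.sum_congr rfl h3, Finset.sum_const, card_sp, nsmul_eq_mul]
    norm_num
  have h4 : ∑ l ∈ univ.filter (fun l : LF => fj l = j ∧ ¬ sp l),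
      (if C then (if sp l then (1 / 2 : ℚ) else 1 / 10) else 1 / 4) =
      10 * (if C then (1 / 10 : ℚ) else 1 / 4) := by
    have h3 : ∀ l ∈ univ.filter (fun l : LF => fj l = j ∧ ¬ sp l),
        (if C then (if sp l then (1 / 2 : ℚ) else 1 / 10) else 1 / 4) =
        (if C then (1 / 10 : ℚ) else 1 / 4) := by
      intro l hl
      rw [if_neg (mem_filter.1 hl).2.2]
    rw [Finset.sum_congr rfl h3, Finset.sum_const, card_nsp, nsmul_eq_mul]
    norm_num
  rw [h2, h4]
  split_ifs <;> norm_num

theorem total {P : Type} (X : CG P) [Fintype P] :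
    ∑ x : P × LF, wt X x = 15 * (Nat.card P : ℚ) - (X.K : ℚ) := by
  classical
  have h1 : ∀ p : P, ∑ l : LF, wt X (p, l) = ∑ j : Fin 5, (3 - if X.Capped p j then (1 : ℚ) else 0) := by
    intro p
    rw [← Finset.sum_fiberwise (Finset.univ : Finset LF) fj]
    apply Finset.sum_congr rfl
    intro j _
    rw [← facet_sum (X.Capped p j) j]
    apply Finset.sum_congr rfl
    intro l hl
    unfold wt
    simp only
    rw [(mem_filter.1 hl).2]
  rw [Fintype.sum_prod_type, Finset.sum_congr rfl (fun p _ => h1 p)]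
  have h2 : (X.K : ℚ) = ∑ p : P, ∑ j : Fin 5, (if X.Capped p j then (1 : ℚ) else 0) := by
    unfold CG.K
    rw [Nat.card_eq_fintype_card, Fintype.card_subtype, Finset.card_filter]
    push_cast
    rw [Fintype.sum_prod_type]
  rw [h2, Nat.card_eq_fintype_card]
  simp only [Finset.sum_sub_distrib, Finset.sum_const, Finset.card_univ, Fintype.card_fin,
    nsmul_eq_mul]
  ring

end L12

open L12 Finset CG in
theorem T_L2 (hW : S_W) : S_L2 := by
  classical
  intro P _ X
  let _ := Fintype.ofFinite P
  have h1 := hW (P × LF) (fun x y : P × LF => y = CG.be x ∨ y = X.gamL x) (wt X) (NN X)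
    (by
      intro x
      unfold NN
      split_ifs
      · rw [mem_filter]
        exact ⟨mem_univ _, rfl, rfl, Iff.rfl⟩
      · exact Finset.mem_insert_self _ _)
    (fun x y z hy h => NN_closed X x y z hy h)
    (fun x y z hy h => NN_closed X x y z hy (by
      rcases h with rfl | rfl
      · left; rfl
      · right; exact (X.gamL_gamL z).symm))
    (by
      intro x
      unfold wt
      split_ifs <;> norm_num)
    (NN_sum X)
  rw [total] at h1
  have h2 : (15 * Nat.card P : ℚ) ≤
      X.K + (ncl (fun x y : P × LF => y = CG.be x ∨ y = X.gamL x) : ℚ) := by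
    linarith
  exact_mod_cast h2

end Pool.Agent.H830.OT
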