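import Pool.Agent.H830.OT.Stm

/-!
# S_L3 and S_L4: surjections between quotients (helper190 for helper830)
-/

namespace Pool.Agent.H830.OT

namespace L34

/-- the rank (`0, 1, 2`) of `i` in `V \ {j, k}` -/
def r3 (i j k : Fin 5) : Fin 3 :=
  Fin.ofNat 3 (i.val - (if j < i then 1 else 0) - (if k < i then 1 else 0))

theorem r3_symm (i j k : Fin 5) : r3 i k j = r3 i j k := by revert i j k; decide

theorem r3_gm (i j k j' : Fin 5) : i ≠ j → i ≠ k → j ≠ k →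
    r3 (gm j j' i) (gm j j' j) (gm j j' k) = r3 i j k := by revert i j k j'; decide

theorem r3_cc (i j k : Fin 5) : i ≠ j → i ≠ k → j ≠ k →
    r3 (cc j k i) (cc j k j) (cc j k k) = r3 i j k := by revert i j k; decide

theorem r3_surj (j k : Fin 5) (r : Fin 3) : j ≠ k → ∃ i, i ≠ j ∧ i ≠ k ∧ r3 i j k = r := by
  revert j k r; decide

theorem r3_tr {P : Type} (X : CG P) (p : P) {i j k : Fin 5} (hij : i ≠ j) (hik : i ≠ k)
    (hjk : j ≠ k) : r3 (X.tr p j k i) (X.tr p j k j) (X.tr p j k k) = r3 i j k := by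
  unfold CG.tr
  split_ifs
  · exact r3_cc i j k hij hik hjk
  · exact r3_gm i j k _ hij hik hjk

/-- the triangle of a flag -/
def tri {P : Type} (x : P × LF) : P × TF :=
  (x.1, ⟨(x.2.1.2.1, x.2.1.2.2), x.2.2.2.2⟩)

/-- the elements of rank `r` of `V \ {a, b}`, for `a < b` -/
def c3 (a b : Fin 5) (r : ℕ) : Fin 5 :=
  if r < a.val then Fin.ofNat 5 r else if r + 1 < b.val then Fin.ofNat 5 (r + 1)
    else Fin.ofNat 5 (r + 2)

theorem c3_ne (a b : Fin 5) : a < b → c3 a b 0 ≠ c3 a b 1 ∧ c3 a b 0 ≠ c3 a b 2 ∧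
    c3 a b 1 ≠ c3 a b 2 := by revert a b; decide

/-- a flag of an edge -/
def fl (e : EF) : LF :=
  ⟨(c3 e.1.1 e.1.2 0, c3 e.1.1 e.1.2 1, c3 e.1.1 e.1.2 2), c3_ne _ _ e.2⟩

set_option maxRecDepth 100000 in
theorem six (a b i j k : Fin 5) : a < b → i ≠ a → i ≠ b → j ≠ a → j ≠ b → k ≠ a → k ≠ b →
    i ≠ j → i ≠ k → j ≠ k →
    (i, j, k) = (c3 a b 0, c3 a b 1, c3 a b 2) ∨ (i, j, k) = (c3 a b 0, c3 a b 2, c3 a b 1) ∨
    (i, j, k) = (c3 a b 2, c3 a b 1, c3 a b 0) ∨ (i, j, k) = (c3 a b 1, c3 a b 2, c3 a b 0) ∨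
    (i, j, k) = (c3 a b 2, c3 a b 0, c3 a b 1) ∨ (i, j, k) = (c3 a b 1, c3 a b 0, c3 a b 2) := by
  revert a b i j k; decide

theorem compl_exists (i j k : Fin 5) : ∃ a b : Fin 5, a < b ∧ i ≠ a ∧ i ≠ b ∧ j ≠ a ∧ j ≠ b ∧
    k ≠ a ∧ k ≠ b := by revert i j k; decide

theorem rest_exists (a b j k : Fin 5) : ∃ i : Fin 5, i ≠ a ∧ i ≠ b ∧ i ≠ j ∧ i ≠ k := by
  revert a b j k; decide

/-- the relation on flags -/
def rel {P : Type} (X : CG P) (x y : P × LF) : Prop :=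
  y = CG.al x ∨ y = CG.be x ∨ y = X.gamL x

theorem mk_al {P : Type} (X : CG P) (x : P × LF) :
    Quot.mk (rel X) (CG.al x) = Quot.mk (rel X) x := by
  have h : rel X x (CG.al x) := Or.inl rfl
  exact (Quot.sound h).symm

theorem mk_be {P : Type} (X : CG P) (x : P × LF) :
    Quot.mk (rel X) (CG.be x) = Quot.mk (rel X) x := by
  have h : rel X x (CG.be x) := Or.inr (Or.inl rfl)
  exact (Quot.sound h).symm

theorem mk_gamL {P : Type} (X : CG P) (x : P × LF) :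
    Quot.mk (rel X) (X.gamL x) = Quot.mk (rel X) x := by
  have h : rel X x (X.gamL x) := Or.inr (Or.inr rfl)
  exact (Quot.sound h).symm

/-- all the flags of an edge are equivalent -/
theorem mk_fl {P : Type} (X : CG P) (p : P) (e : EF) (z : LF) (h1 : z.1.1 ≠ e.1.1)
    (h2 : z.1.1 ≠ e.1.2) (h3 : z.1.2.1 ≠ e.1.1) (h4 : z.1.2.1 ≠ e.1.2) (h5 : z.1.2.2 ≠ e.1.1)
    (h6 : z.1.2.2 ≠ e.1.2) : Quot.mk (rel X) (p, z) = Quot.mk (rel X) (p, fl e) := by
  rcases six e.1.1 e.1.2 z.1.1 z.1.2.1 z.1.2.2 e.2 h1 h2 h3 h4 h5 h6 z.2.1 z.2.2.1 z.2.2.2 with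
    h | h | h | h | h | h
  · have e1 : (p, z) = (p, fl e) := Prod.ext rfl (Subtype.ext h)
    rw [e1]
  · have e1 : (p, z) = CG.al (p, fl e) := Prod.ext rfl (Subtype.ext h)
    rw [e1, mk_al]
  · have e1 : (p, z) = CG.be (p, fl e) := Prod.ext rfl (Subtype.ext h)
    rw [e1, mk_be]
  · have e1 : (p, z) = CG.be (CG.al (p, fl e)) := Prod.ext rfl (Subtype.ext h)
    rw [e1, mk_be, mk_al]
  · have e1 : (p, z) = CG.al (CG.be (p, fl e)) := Prod.ext rfl (Subtype.ext h)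
    rw [e1, mk_al, mk_be]
  · have e1 : (p, z) = CG.be (CG.al (CG.be (p, fl e))) := Prod.ext rfl (Subtype.ext h)
    rw [e1, mk_be, mk_al, mk_be]

end L34

open L34

theorem T_L3 : S_L3 := by
  intro P _ X
  let f : Quot (fun x y : P × LF => y = CG.al x ∨ y = X.gamL x) → Quot X.relT × Fin 3 :=
    Quot.lift (fun x => (Quot.mk X.relT (tri x), r3 x.2.1.1 x.2.1.2.1 x.2.1.2.2)) (by
      rintro x y (h | h)
      · subst h
        refine Prod.ext ?_ ?_
        · exact Quot.sound (Or.inl ⟨rfl, rfl⟩)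
        · exact (r3_symm _ _ _).symm
      · subst h
        refine Prod.ext ?_ ?_
        · exact Quot.sound (Or.inr ⟨rfl, rfl⟩)
        · exact (r3_tr X x.1 x.2.2.1 x.2.2.2.1 x.2.2.2.2).symm)
  have hf : Function.Surjective f := by
    rintro ⟨q, r⟩
    induction q using Quot.ind with
    | mk t =>
      obtain ⟨p, ⟨⟨j, k⟩, hjk⟩⟩ := t
      obtain ⟨i, hij, hik, hr⟩ := r3_surj j k r hjk
      exact ⟨Quot.mk _ (p, ⟨(i, j, k), hij, hik, hjk⟩), Prod.ext rfl hr⟩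
  have h1 := Nat.card_le_card_of_surjective f hf
  rw [Nat.card_prod, Nat.card_fin] at h1
  unfold CG.T ncl
  omega

theorem T_L4 : S_L4 := by
  intro P _ X
  let f : Quot X.relE → Quot (rel X) :=
    Quot.lift (fun x => Quot.mk (rel X) (x.1, fl x.2)) (by
      rintro ⟨p, e⟩ ⟨q, e'⟩ ⟨j, k, hjk, hja, hjb, hka, hkb, h1, h2⟩
      obtain ⟨i, hia, hib, hij, hik⟩ := rest_exists e.1.1 e.1.2 j k
      show Quot.mk (rel X) (p, fl e) = Quot.mk (rel X) (q, fl e')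
      simp only at h1 h2
      have e1 := mk_fl X p e ⟨(i, j, k), hij, hik, hjk⟩ hia hib hja hjb hka hkb
      have ea : e'.1.1 = X.tr p j k e.1.1 := by rw [h2]
      have eb : e'.1.2 = X.tr p j k e.1.2 := by rw [h2]
      have e2 := mk_fl X q e' (X.gamL (p, ⟨(i, j, k), hij, hik, hjk⟩)).2
        (fun h => hia (X.tr_inj hjk (h.trans ea))) (fun h => hib (X.tr_inj hjk (h.trans eb)))
        (fun h => hja (X.tr_inj hjk (h.trans ea))) (fun h => hjb (X.tr_inj hjk (h.trans eb)))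
        (fun h => hka (X.tr_inj hjk (h.trans ea))) (fun h => hkb (X.tr_inj hjk (h.trans eb)))
      rw [← e1, ← e2, ← mk_gamL X (p, ⟨(i, j, k), hij, hik, hjk⟩)]
      congr 1
      exact Prod.ext h1.symm rfl)
  have hf : Function.Surjective f := by
    intro q
    induction q using Quot.ind with
    | mk x =>
      obtain ⟨p, z⟩ := x
      obtain ⟨a, b, hab, h1, h2, h3, h4, h5, h6⟩ := compl_exists z.1.1 z.1.2.1 z.1.2.2
      exact ⟨Quot.mk _ (p, ⟨(a, b), hab⟩), (mk_fl X p ⟨(a, b), hab⟩ z h1 h2 h3 h4 h5 h6).symm⟩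
  exact Nat.card_le_card_of_surjective f hf

end Pool.Agent.H830.OT
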