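import Pool.Agent.H830.OT.Stm

/-!
# Parity: `S_Par` from `S_B` and `S_W'`
-/

namespace Pool.Agent.H830.OT

namespace ParAux

open CG

/-- the sign value of a flag -/
def val {P : Type} (ε : P → ℤ) (x : P × TF) : ℤ :=
  ε x.1 * (-1) ^ x.2.1.1.val * (-1) ^ (rk x.2.1.1 x.2.1.2)

theorem val_iota {P : Type} (ε : P → ℤ) (x : P × TF) : val ε (iota x) = - val ε x := by
  obtain ⟨p, ⟨⟨j, k⟩, h⟩⟩ := x
  have key : ∀ j k : Fin 5, j ≠ k →
      ((-1 : ℤ) ^ k.val * (-1) ^ (rk k j)) = - ((-1) ^ j.val * (-1) ^ (rk j k)) := by decide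
  have h1 := key j k h
  simp only [val, iota]
  rw [mul_assoc, h1]
  ring

theorem val_nu {P : Type} (ε : P → ℤ) (x : P × TF) : val ε (nu x) = - val ε x := by
  obtain ⟨p, ⟨⟨j, k⟩, h⟩⟩ := x
  have key : ∀ j k : Fin 5, j ≠ k →
      ((-1 : ℤ) ^ (rk j (rev j k))) = - ((-1) ^ (rk j k)) := by decide
  have h1 := key j k h
  simp only [val, nu]
  rw [h1]
  ring

theorem gamT_capped {P : Type} (X : CG P) (x : P × TF) (h : X.Capped x.1 x.2.1.1) :
    X.gamT x = nu x := by
  obtain ⟨p, ⟨⟨j, k⟩, hjk⟩⟩ := x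
  simp only at h hjk
  have e1 : ∀ b, X.tr p j k b = cc j k b := fun b => by unfold tr; rw [if_pos h]
  refine ext_TF ?_ ?_ ?_
  · simp only [gamT, nu]; exact h.1
  · simp only [gamT, nu, e1, cc_self]
  · simp only [gamT, nu, e1, cc_k j k hjk]

theorem gamT_uncapped {P : Type} (X : CG P) (x : P × TF) (h : ¬ X.Capped x.1 x.2.1.1) :
    (X.gamT x).1 = X.nb x.1 x.2.1.1 ∧ (X.gamT x).2.1.1 = X.ix x.1 x.2.1.1 ∧
    (X.gamT x).2.1.2 = gm x.2.1.1 (X.ix x.1 x.2.1.1) x.2.1.2 := by
  obtain ⟨p, ⟨⟨j, k⟩, hjk⟩⟩ := x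
  simp only at h hjk
  have e1 : ∀ b, X.tr p j k b = gm j (X.ix p j) b := fun b => by unfold tr; rw [if_neg h]
  refine ⟨rfl, ?_, ?_⟩
  · simp only [gamT, e1, gm_self]
  · simp only [gamT, e1]

theorem val_gamT {P : Type} (X : CG P) (ε : P → ℤ)
    (hε : ∀ p j, ¬ X.Capped p j → ε (X.nb p j) * (-1) ^ (X.ix p j).val = - (ε p * (-1) ^ j.val))
    (x : P × TF) : val ε (X.gamT x) = - val ε x := by
  by_cases h : X.Capped x.1 x.2.1.1
  · rw [gamT_capped X x h, val_nu]
  · obtain ⟨h1, h2, h3⟩ := gamT_uncapped X x h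
    unfold val
    rw [h1, h2, h3, hε _ _ h, rk_gm _ _ _ x.2.2.symm]
    ring

theorem val_pm {P : Type} (ε : P → ℤ) (hε : ∀ p, ε p = 1 ∨ ε p = -1) (x : P × TF) :
    val ε x = 1 ∨ val ε x = -1 := by
  unfold val
  have h1 := hε x.1
  have h2 := neg_one_pow_eq_or ℤ x.2.1.1.val
  have h3 := neg_one_pow_eq_or ℤ (rk x.2.1.1 x.2.1.2)
  rcases h1 with h1 | h1 <;> rcases h2 with h2 | h2 <;> rcases h3 with h3 | h3 <;>
    rw [h1, h2, h3] <;> norm_num

theorem dec_neg {v w : ℤ} (hv : v = 1 ∨ v = -1) (hw : w = -v) :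
    decide (w = 1) = !decide (v = 1) := by
  subst hw
  rcases hv with rfl | rfl <;> decide

/-- crossing and reversing commute -/
theorem gamT_nu {P : Type} (X : CG P) (x : P × TF) : X.gamT (nu x) = nu (X.gamT x) := by
  by_cases h : X.Capped x.1 x.2.1.1
  · have h' : X.Capped (nu x).1 (nu x).2.1.1 := h
    rw [gamT_capped X _ h', gamT_capped X x h]
  · have h' : ¬ X.Capped (nu x).1 (nu x).2.1.1 := h
    obtain ⟨h1, h2, h3⟩ := gamT_uncapped X x h
    obtain ⟨h4, h5, h6⟩ := gamT_uncapped X (nu x) h'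
    refine ext_TF ?_ ?_ ?_
    · rw [h4]; exact h1.symm
    · rw [h5]; exact h2.symm
    · rw [h6]
      show gm x.2.1.1 (X.ix x.1 x.2.1.1) (rev x.2.1.1 x.2.1.2) =
        rev (X.gamT x).2.1.1 (X.gamT x).2.1.2
      rw [gm_rev, h2, h3]

theorem gamT_ne_nu {P : Type} (X : CG P) (x : P × TF) (h : ¬ X.Capped x.1 x.2.1.1) :
    X.gamT x ≠ nu x := by
  intro h'
  obtain ⟨h1, h2, h3⟩ := gamT_uncapped X x h
  apply h
  refine ⟨?_, ?_⟩
  · rw [← h1, h']; rfl
  · rw [← h2, h']; rfl

open Classical in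
/-- the class of a flag under `gamT`, `nu` -/
noncomputable def NN {P : Type} (X : CG P) (x : P × TF) : Finset (P × TF) :=
  {x, X.gamT x, nu x, X.gamT (nu x)}

theorem mem_NN {P : Type} (X : CG P) (x y : P × TF) :
    y ∈ NN X x ↔ (y = x ∨ y = X.gamT x ∨ y = nu x ∨ y = X.gamT (nu x)) := by
  simp [NN]

theorem NN_gamT {P : Type} (X : CG P) (x : P × TF) : NN X (X.gamT x) = NN X x := by
  ext y
  rw [mem_NN, mem_NN, X.gamT_gamT, ← gamT_nu, X.gamT_gamT]
  tauto

theorem NN_nu {P : Type} (X : CG P) (x : P × TF) : NN X (nu x) = NN X x := by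
  ext y
  rw [mem_NN, mem_NN, nu_nu]
  tauto

theorem NN_iff {P : Type} (X : CG P) (x y : P × TF) :
    y ∈ NN X x ↔ Relation.EqvGen (fun x y => y = X.gamT x ∨ y = nu x) x y := by
  constructor
  · intro h
    rw [mem_NN] at h
    rcases h with rfl | rfl | rfl | rfl
    · exact Relation.EqvGen.refl _
    · exact Relation.EqvGen.rel _ _ (Or.inl rfl)
    · exact Relation.EqvGen.rel _ _ (Or.inr rfl)
    · exact Relation.EqvGen.trans _ _ _ (Relation.EqvGen.rel _ _ (Or.inr rfl))
        (Relation.EqvGen.rel _ _ (Or.inl rfl))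
  · intro h
    have key : NN X x = NN X y := by
      induction h with
      | rel a b hab =>
        rcases hab with rfl | rfl
        · exact (NN_gamT X a).symm
        · exact (NN_nu X a).symm
      | refl a => rfl
      | symm a b _ ih => exact ih.symm
      | trans a b c _ _ ih1 ih2 => exact ih1.trans ih2
    rw [key, mem_NN]
    exact Or.inl rfl

theorem card_NN_capped {P : Type} (X : CG P) (x : P × TF) (h : X.Capped x.1 x.2.1.1) :
    (NN X x).card = 2 := by
  classical
  have h' : X.Capped (nu x).1 (nu x).2.1.1 := h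
  have e : NN X x = {x, nu x} := by
    ext y
    rw [mem_NN, gamT_capped X x h, gamT_capped X _ h', nu_nu]
    simp only [Finset.mem_insert, Finset.mem_singleton]
    tauto
  rw [e, Finset.card_pair (nu_ne x).symm]

theorem card_NN_uncapped {P : Type} (X : CG P) (x : P × TF) (h : ¬ X.Capped x.1 x.2.1.1) :
    (NN X x).card = 4 := by
  classical
  have h1 := X.gamT_ne x
  have h2 := nu_ne x
  have h3 := gamT_ne_nu X x h
  have h4 : X.gamT (nu x) ≠ x := by
    intro h5
    apply h3
    rw [← h5, X.gamT_gamT, h5]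
  have h6 : X.gamT (nu x) ≠ X.gamT x := by
    intro h7
    apply h2
    rw [← X.gamT_gamT (nu x), h7, X.gamT_gamT]
  have h8 := X.gamT_ne (nu x)
  unfold NN
  rw [Finset.card_insert_of_notMem, Finset.card_insert_of_notMem, Finset.card_insert_of_notMem,
    Finset.card_singleton]
  · simp only [Finset.mem_singleton]; exact h8.symm
  · simp only [Finset.mem_insert, Finset.mem_singleton, not_or]
    exact ⟨h3, h6.symm⟩
  · simp only [Finset.mem_insert, Finset.mem_singleton, not_or]
    exact ⟨h1.symm, h2.symm, h4.symm⟩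

theorem sum_TF (g : Fin 5 → ℚ) : ∑ x : TF, g x.1.1 = 4 * ∑ j, g j := by
  have hc : ∀ j : Fin 5, ((Finset.univ : Finset TF).filter (fun x => x.1.1 = j)).card = 4 := by
    decide
  rw [← Finset.sum_fiberwise (Finset.univ : Finset TF) (fun x => x.1.1) (fun x => g x.1.1),
    Finset.mul_sum]
  apply Finset.sum_congr rfl
  intro j _
  rw [Finset.sum_congr rfl (g := fun _ => g j)]
  · rw [Finset.sum_const, hc j, nsmul_eq_mul]; norm_num
  · intro x hx
    rw [(Finset.mem_filter.mp hx).2]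

theorem orb_gn (hW : S_W') (P : Type) [Finite P] (X : CG P) :
    ncl (fun x y : P × TF => y = X.gamT x ∨ y = nu x) = 5 * Nat.card P + X.K := by
  classical
  have : Fintype P := Fintype.ofFinite P
  have h := hW (P × TF) (fun x y : P × TF => y = X.gamT x ∨ y = nu x) (NN X) (NN_iff X)
  have h1 : ∑ x : P × TF, (1 : ℚ) / (NN X x).card =
      ∑ x : P × TF, (if X.Capped x.1 x.2.1.1 then (1 / 2 : ℚ) else 1 / 4) := by
    apply Finset.sum_congr rfl
    intro x _
    split_ifs with hx
    · rw [card_NN_capped X x hx]; norm_num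
    · rw [card_NN_uncapped X x hx]; norm_num
  rw [h1, Fintype.sum_prod_type] at h
  have h2 : ∀ p : P, ∑ y : TF, (if X.Capped p y.1.1 then (1 / 2 : ℚ) else 1 / 4) =
      5 + ∑ j : Fin 5, (if X.Capped p j then (1 : ℚ) else 0) := by
    intro p
    rw [sum_TF (fun j => if X.Capped p j then (1 / 2 : ℚ) else 1 / 4), Finset.mul_sum]
    have : ∀ j : Fin 5, 4 * (if X.Capped p j then (1 / 2 : ℚ) else 1 / 4) =
        1 + (if X.Capped p j then (1 : ℚ) else 0) := by
      intro j
      split_ifs <;> norm_num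
    rw [Finset.sum_congr rfl (fun j _ => this j), Finset.sum_add_distrib]
    simp
  have h3 : ∑ p : P, ∑ y : TF, (if X.Capped p y.1.1 then (1 / 2 : ℚ) else 1 / 4) =
      5 * (Nat.card P : ℚ) + (X.K : ℚ) := by
    rw [Finset.sum_congr rfl (fun p _ => h2 p), Finset.sum_add_distrib]
    have h4 : (X.K : ℚ) = ∑ p : P, ∑ j : Fin 5, (if X.Capped p j then (1 : ℚ) else 0) := by
      unfold K
      rw [← Fintype.sum_prod_type (f := fun x : P × Fin 5 =>
        (if X.Capped x.1 x.2 then (1 : ℚ) else 0)), Nat.card_eq_fintype_card,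
        Fintype.card_subtype, Finset.sum_boole]
    rw [h4, Finset.sum_const, Finset.card_univ, Nat.card_eq_fintype_card, nsmul_eq_mul]
    ring
  have h5 : (5 * (Nat.card P : ℚ) + (X.K : ℚ)) =
      (ncl (fun x y : P × TF => y = X.gamT x ∨ y = nu x) : ℚ) := by
    rw [← h3]; exact h
  exact_mod_cast h5.symm

/-! ### the orbits of `iota`, `nu` -/

/-- swap on `TF` -/
def io (x : TF) : TF := ⟨(x.1.2, x.1.1), x.2.symm⟩

/-- reversal on `TF` -/
def nv (x : TF) : TF :=
  ⟨(x.1.1, rev x.1.1 x.1.2), fun h => rev_ne' x.1.1 x.1.2 x.2.symm h.symm⟩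

/-- the two orbits of `io`, `nv` -/
def cls (x : TF) : Bool := decide (x.1.1 = 0 ∨ x.1.1 = 4 ∨ x.1.2 = 0 ∨ x.1.2 = 4)

theorem cls_io (x : TF) : cls (io x) = cls x := by revert x; decide

theorem cls_nv (x : TF) : cls (nv x) = cls x := by revert x; decide

/-- base points of the two orbits -/
def bs : Bool → TF
  | true => ⟨(0, 1), by decide⟩
  | false => ⟨(1, 2), by decide⟩

theorem cls_bs (b : Bool) : cls (bs b) = b := by revert b; decide

/-- the walk in an orbit -/
def wk (b : Bool) : ℕ → TF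
  | 0 => bs b
  | n + 1 => nv (io (wk b n))

theorem reach (x : TF) : ∃ n : Fin 7, x = wk (cls x) n.val ∨ x = io (wk (cls x) n.val) := by
  revert x; decide

theorem eqv_wk {P : Type} (p : P) (b : Bool) (n : ℕ) :
    Relation.EqvGen (fun x y : P × TF => y = iota x ∨ y = nu x) (p, bs b) (p, wk b n) := by
  induction n with
  | zero => exact Relation.EqvGen.refl _
  | succ n ih =>
    refine Relation.EqvGen.trans _ _ _ ih (Relation.EqvGen.trans _ (p, io (wk b n)) _ ?_ ?_)
    · exact Relation.EqvGen.rel _ _ (Or.inl rfl)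
    · exact Relation.EqvGen.rel _ _ (Or.inr rfl)

theorem eqv_bs {P : Type} (p : P) (x : TF) :
    Relation.EqvGen (fun x y : P × TF => y = iota x ∨ y = nu x) (p, bs (cls x)) (p, x) := by
  obtain ⟨n, h | h⟩ := reach x
  · have h1 := eqv_wk p (cls x) n.val
    rw [← h] at h1
    exact h1
  · have h1 := eqv_wk p (cls x) n.val
    refine Relation.EqvGen.trans _ _ _ h1 (Relation.EqvGen.rel _ _ (Or.inl ?_))
    exact Prod.ext rfl h

theorem orb_in (P : Type) [Finite P] :
    ncl (fun x y : P × TF => y = iota x ∨ y = nu x) = 2 * Nat.card P := by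
  have hresp : ∀ x y : P × TF, (y = iota x ∨ y = nu x) → (x.1, cls x.2) = (y.1, cls y.2) := by
    rintro x y (rfl | rfl)
    · exact Prod.ext rfl (cls_io x.2).symm
    · exact Prod.ext rfl (cls_nv x.2).symm
  let F : Quot (fun x y : P × TF => y = iota x ∨ y = nu x) → P × Bool :=
    Quot.lift (fun x => (x.1, cls x.2)) hresp
  have hbij : Function.Bijective F := by
    constructor
    · intro a b hab
      induction a using Quot.ind with
      | mk x =>
        induction b using Quot.ind with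
        | mk y =>
          obtain ⟨p, x⟩ := x
          obtain ⟨q, y⟩ := y
          have h1 : (p, cls x) = (q, cls y) := hab
          have h2 : p = q := congrArg Prod.fst h1
          have h3 : cls x = cls y := congrArg Prod.snd h1
          subst h2
          have h4 := eqv_bs p x
          have h5 := eqv_bs p y
          rw [← h3] at h5
          exact Quot.eqvGen_sound (Relation.EqvGen.trans _ _ _ (Relation.EqvGen.symm _ _ h4) h5)
    · rintro ⟨p, b⟩
      refine ⟨Quot.mk _ (p, bs b), ?_⟩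
      show (p, cls (bs b)) = (p, b)
      rw [cls_bs]
  unfold ncl
  rw [Nat.card_congr (Equiv.ofBijective F hbij), Nat.card_prod]
  simp [mul_comm]

end ParAux

open ParAux in
/-- parity -/
theorem T_Par (hB : S_B) (hW : S_W') : S_Par := by
  intro P _ X hO
  obtain ⟨ε, h1, h2⟩ := hO
  have h := hB (P × TF) (fun x => decide (val ε x = 1)) CG.iota X.gamT CG.nu CG.iota_iota
    (fun x => dec_neg (val_pm ε h1 x) (val_iota ε x)) X.gamT_gamT
    (fun x => dec_neg (val_pm ε h1 x) (val_gamT X ε h2 x)) CG.nu_nu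
    (fun x => dec_neg (val_pm ε h1 x) (val_nu ε x))
  have hTF : Nat.card TF = 20 := by
    rw [Nat.card_eq_fintype_card]; decide
  rw [← X.T_eq, orb_gn hW P X, orb_in P, Nat.card_prod, hTF] at h
  rw [Nat.even_iff]
  omega

end Pool.Agent.H830.OT
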