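import Pool.Agent.H830.OT.Stm

/-!
# The pentachoron with five capped facets (S_Pure)
-/

namespace Pool.Agent.H830.OT

namespace PureX

/-- swap on `TF` -/
def io (x : TF) : TF := ⟨(x.1.2, x.1.1), x.2.symm⟩

/-- reversal on `TF` -/
def nuT (x : TF) : TF := ⟨(x.1.1, rev x.1.1 x.1.2), fun h => rev_ne' x.1.1 x.1.2 x.2.symm h.symm⟩

def r1 : TF := ⟨(0, 1), by decide⟩
def r2 : TF := ⟨(1, 2), by decide⟩

/-- the composition -/
def st (x : TF) : TF := io (nuT x)

theorem reach : ∀ x : TF, ∃ k : Fin 7, st^[k.val] x = r1 ∨ st^[k.val] x = r2 ∨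
    st^[k.val] (io x) = r1 ∨ st^[k.val] (io x) = r2 := by
  decide

theorem inv_cc : ∀ j k a b : Fin 5, j ≠ k → j ≠ a → j ≠ b → k ≠ a → k ≠ b → a < b →
    ((cc j k a = 0 ∧ cc j k b = 4) ↔ (a = 0 ∧ b = 4)) := by
  decide

theorem third : ∀ j j' : Fin 5, ∃ c : Fin 5, c ≠ j ∧ c ≠ j' := by decide

variable {P : Type} (X : CG P)

section
variable (hc : ∀ p j, X.Capped p j)
include hc

theorem tr_eq (p : P) (j k a : Fin 5) : X.tr p j k a = cc j k a := by
  unfold CG.tr
  rw [if_pos (hc p j)]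

omit hc in
theorem mk_io (p : P) (x : TF) : (Quot.mk X.relT (p, x)) = Quot.mk X.relT (p, io x) :=
  Quot.sound (Or.inl ⟨rfl, rfl⟩)

theorem mk_nu (p : P) (x : TF) : (Quot.mk X.relT (p, x)) = Quot.mk X.relT (p, nuT x) := by
  apply Quot.sound
  right
  refine ⟨(hc p x.1.1).1.symm, ?_⟩
  show (x.1.1, rev x.1.1 x.1.2) = _
  rw [tr_eq X hc, tr_eq X hc, cc_self, cc_k _ _ x.2]

theorem mk_st (p : P) (x : TF) : (Quot.mk X.relT (p, x)) = Quot.mk X.relT (p, st x) := by
  rw [mk_nu X hc, mk_io X]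
  rfl

theorem mk_iter (p : P) (x : TF) (k : ℕ) :
    (Quot.mk X.relT (p, x)) = Quot.mk X.relT (p, st^[k] x) := by
  induction k with
  | zero => rfl
  | succ k ih => rw [Function.iterate_succ_apply', ih, mk_st X hc]

theorem mk_rep (p : P) (x : TF) :
    Quot.mk X.relT (p, x) = Quot.mk X.relT (p, r1) ∨
      Quot.mk X.relT (p, x) = Quot.mk X.relT (p, r2) := by
  obtain ⟨k, h | h | h | h⟩ := reach x
  · left
    rw [← h]
    exact mk_iter X hc p x k
  · right
    rw [← h]
    exact mk_iter X hc p x k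
  · left
    rw [mk_io X p x, ← h]
    exact mk_iter X hc p _ k
  · right
    rw [mk_io X p x, ← h]
    exact mk_iter X hc p _ k

theorem T_le (p : P) (hp : ∀ q, q = p) : X.T ≤ 2 := by
  have h : Function.Surjective (fun b : Bool => Quot.mk X.relT (p, if b then r1 else r2)) := by
    intro q
    induction q using Quot.ind with
    | mk q =>
      obtain ⟨q, x⟩ := q
      obtain rfl := hp q
      rcases mk_rep X hc q x with h | h
      · exact ⟨true, h.symm⟩
      · exact ⟨false, h.symm⟩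
  have h1 := Nat.card_le_card_of_surjective _ h
  rw [Nat.card_eq_fintype_card (α := Bool), Fintype.card_bool] at h1
  exact h1

theorem E_ge [Finite P] (p : P) : 2 ≤ X.E := by
  let φ : P × EF → Bool := fun x => decide (x.2.1.1 = 0 ∧ x.2.1.2 = 4)
  have hφ : ∀ x y, X.relE x y → φ x = φ y := by
    rintro ⟨p, ⟨⟨a, b⟩, hab⟩⟩ ⟨q, ⟨⟨a', b'⟩, hab'⟩⟩ ⟨j, k, h1, h2, h3, h4, h5, -, h6⟩
    simp only at h2 h3 h4 h5 h6 hab
    rw [tr_eq X hc, tr_eq X hc, Prod.mk.injEq] at h6
    obtain ⟨rfl, rfl⟩ := h6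
    simp only [φ]
    rw [decide_eq_decide]
    exact (inv_cc j k a b h1 h2 h3 h4 h5 hab).symm
  have h : Function.Surjective (Quot.lift φ hφ) := by
    intro b
    cases b
    · exact ⟨Quot.mk _ (p, ⟨(0, 1), by decide⟩), by simp [φ]⟩
    · exact ⟨Quot.mk _ (p, ⟨(0, 4), by decide⟩), by simp [φ]⟩
  have h1 := Nat.card_le_card_of_surjective _ h
  rw [Nat.card_eq_fintype_card (α := Bool), Fintype.card_bool] at h1
  exact h1

theorem K_eq (p : P) (hp : ∀ q, q = p) : X.K = 5 := by
  unfold CG.K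
  have : Nat.card {x : P × Fin 5 // X.Capped x.1 x.2} = Nat.card (Fin 5) := by
    refine Nat.card_congr ⟨fun x => x.1.2, fun j => ⟨(p, j), hc p j⟩, ?_, fun j => rfl⟩
    rintro ⟨⟨q, j⟩, h⟩
    obtain rfl := hp q
    rfl
  rw [this, Nat.card_eq_fintype_card, Fintype.card_fin]

end

end PureX

open PureX in
theorem T_Pure : S_Pure := by
  intro P _ X hconn hNF ⟨p, j, j', hjj, hj, hj'⟩
  -- all cocycles vanish on `p`
  have hz : ∀ z ∈ X.Z, ∀ a b, z p a b = 0 := by
    intro z hz a b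
    obtain ⟨h1, h2, -⟩ := hz
    have e1 : ∀ a b, a ≠ j → b ≠ j → z p a b = 0 := h2 p j hj
    have e2 : ∀ a b, a ≠ j' → b ≠ j' → z p a b = 0 := h2 p j' hj'
    obtain ⟨c, hc1, hc2⟩ : ∃ c : Fin 5, c ≠ j ∧ c ≠ j' := PureX.third j j'
    have key : ∀ a, z p a c = 0 := by
      intro a
      by_cases ha : a = j
      · exact e2 a c (by rw [ha]; exact hjj) hc2
      · exact e1 a c ha hc1
    have key' : ∀ a, z p c a = 0 := by
      intro a
      by_cases ha : a = j
      · exact e2 c a hc2 (by rw [ha]; exact hjj)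
      · exact e1 c a hc1 ha
    rw [← h1 p a c b, key, key', add_zero]
  have hcap : ∀ i, X.Capped p i := by
    intro i
    by_contra h
    exact hNF p i h (fun z hz' a b _ _ => hz z hz' a b)
  have huniv : ({p} : Set P) = Set.univ := by
    apply hconn {p} ⟨p, rfl⟩
    rintro q rfl j
    exact (hcap j).1
  have hp : ∀ q, q = p := fun q => by
    have : q ∈ ({p} : Set P) := by rw [huniv]; trivial
    exact this
  have hc : ∀ q j, X.Capped q j := fun q j => by
    obtain rfl := hp q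
    exact hcap j
  have hw : X.w = 0 := by
    have : X.Z = ⊥ := by
      rw [eq_bot_iff]
      intro z hz'
      rw [Submodule.mem_bot]
      funext q a b
      obtain rfl := hp q
      exact hz z hz' a b
    unfold CG.w
    rw [this, finrank_bot]
  have hT := T_le X hc p hp
  have hE := E_ge X hc p
  have hK := K_eq X hc p hp
  have hm : Nat.card P = 1 := by
    have : Unique P := ⟨⟨p⟩, hp⟩
    exact Nat.card_unique
  unfold CG.Psi
  rw [hw, hK, hm]
  omega

end Pool.Agent.H830.OT
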