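import Pool.Agent.H830.OT.Stm

namespace Pool.Agent.H830.OT

namespace S1aux

open CG Finset

variable {P : Type} {X : CG P} {F : P → Fin 5 → Prop} {hF : ∀ p j, F p j → F (X.nb p j) (X.ix p j)}

theorem F_iff (hF : ∀ p j, F p j → F (X.nb p j) (X.ix p j)) (p : P) (j : Fin 5) :
    F (X.nb p j) (X.ix p j) ↔ F p j := by
  constructor
  · intro h
    have := hF _ _ h
    rwa [X.nb_nb, X.ix_ix] at this
  · exact hF p j

theorem capped_iff (hX : ∀ p j, ¬ X.Capped p j) (p : P) (j : Fin 5) :
    (X.cap F hF).Capped p j ↔ F p j := by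
  constructor
  · intro h
    by_contra hn
    obtain ⟨h1, h2⟩ := h
    simp only [cap, if_neg hn] at h1 h2
    exact hX p j ⟨h1, h2⟩
  · intro h
    refine ⟨?_, ?_⟩
    · simp only [cap, if_pos h]
    · simp only [cap, if_pos h]

theorem gamT_F (hX : ∀ p j, ¬ X.Capped p j) (x : P × TF) (h : F x.1 x.2.1.1) :
    (X.cap F hF).gamT x = nu x := by
  obtain ⟨p, ⟨⟨j, k⟩, hjk⟩⟩ := x
  simp only at h hjk
  have hc : (X.cap F hF).Capped p j := (capped_iff hX p j).2 h
  refine ext_TF hc.1 ?_ ?_
  · show (X.cap F hF).tr p j k j = j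
    rw [tr_self]; exact hc.2
  · show (X.cap F hF).tr p j k k = rev j k
    unfold tr
    rw [if_pos hc, cc_k j k hjk]

theorem gamT_nF (hX : ∀ p j, ¬ X.Capped p j) (x : P × TF) (h : ¬ F x.1 x.2.1.1) :
    (X.cap F hF).gamT x = X.gamT x := by
  obtain ⟨p, ⟨⟨j, k⟩, hjk⟩⟩ := x
  simp only at h hjk
  have hc : ¬ (X.cap F hF).Capped p j := fun hc => h ((capped_iff hX p j).1 hc)
  have h1 : (X.cap F hF).nb p j = X.nb p j := by simp only [cap, if_neg h]
  have h2 : (X.cap F hF).ix p j = X.ix p j := by simp only [cap, if_neg h]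
  have htr : ∀ a, (X.cap F hF).tr p j k a = X.tr p j k a := by
    intro a
    unfold tr
    rw [if_neg hc, if_neg (hX p j), h2]
  exact ext_TF h1 (htr j) (htr k)

theorem gamT_val (hX : ∀ p j, ¬ X.Capped p j) (x : P × TF) :
    (X.gamT x).1 = X.nb x.1 x.2.1.1 ∧ (X.gamT x).2.1.1 = X.ix x.1 x.2.1.1 ∧
      (X.gamT x).2.1.2 = gm x.2.1.1 (X.ix x.1 x.2.1.1) x.2.1.2 := by
  obtain ⟨p, ⟨⟨j, k⟩, hjk⟩⟩ := x
  refine ⟨rfl, X.tr_self p j k, ?_⟩
  show X.tr p j k k = gm j (X.ix p j) k
  unfold tr
  rw [if_neg (hX p j)]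

theorem F_gamT (hX : ∀ p j, ¬ X.Capped p j) (hF : ∀ p j, F p j → F (X.nb p j) (X.ix p j))
    (x : P × TF) : F (X.gamT x).1 (X.gamT x).2.1.1 ↔ F x.1 x.2.1.1 := by
  obtain ⟨h1, h2, -⟩ := gamT_val hX x
  rw [h1, h2]
  exact F_iff hF _ _

theorem nu_gamT (hX : ∀ p j, ¬ X.Capped p j) (x : P × TF) : nu (X.gamT x) = X.gamT (nu x) := by
  obtain ⟨h1, h2, h3⟩ := gamT_val hX x
  obtain ⟨h4, h5, h6⟩ := gamT_val hX (nu x)
  refine ext_TF ?_ ?_ ?_
  · rw [h4]; exact h1
  · rw [h5]; exact h2
  · rw [h6]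
    show rev (X.gamT x).2.1.1 (X.gamT x).2.1.2 =
      gm x.2.1.1 (X.ix x.1 x.2.1.1) (rev x.2.1.1 x.2.1.2)
    rw [h2, h3, gm_rev]

theorem sum_TF (f : Fin 5 → ℚ) : ∑ t : TF, f t.1.1 = 4 * ∑ j, f j := by
  have h : ∑ x ∈ univ.filter (fun x : Fin 5 × Fin 5 => x.1 ≠ x.2), f x.1 = ∑ t : TF, f t.1.1 :=
    Finset.sum_subtype (p := fun x : Fin 5 × Fin 5 => x.1 ≠ x.2) _ (by simp) (fun x => f x.1)
  rw [← h, Finset.sum_filter, Fintype.sum_prod_type]
  simp only [Fin.sum_univ_five]
  simp
  ring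

open Classical in
/-- the weights -/
noncomputable def wt (F : P → Fin 5 → Prop) (x : P × TF) : ℚ := if F x.1 x.2.1.1 then 1 / 4 else 1 / 2

open Classical in
/-- the neighbourhoods -/
noncomputable def Nn (X : CG P) (F : P → Fin 5 → Prop) (x : P × TF) : Finset (P × TF) :=
  if F x.1 x.2.1.1 then {x, X.gamT x, nu x, X.gamT (nu x)} else {x, X.gamT x}

theorem orb [Finite P] (hW : S_W) (hX : ∀ p j, ¬ X.Capped p j)
    (hF : ∀ p j, F p j → F (X.nb p j) (X.ix p j)) :
    10 * Nat.card P ≤ (X.cap F hF).K +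
      ncl (fun x y => y = X.gamT x ∨ y = (X.cap F hF).gamT x) := by
  classical
  have : Fintype P := Fintype.ofFinite P
  have hcl : ∀ x y, y ∈ Nn X F x → X.gamT y ∈ Nn X F x ∧ (X.cap F hF).gamT y ∈ Nn X F x := by
    intro x y hy
    by_cases hx : F x.1 x.2.1.1
    · have hN : Nn X F x = {x, X.gamT x, nu x, X.gamT (nu x)} := by unfold Nn; rw [if_pos hx]
      rw [hN] at hy ⊢
      have hgn : ∀ z, nu (X.gamT z) = X.gamT (nu z) := nu_gamT hX
      have hFy : F y.1 y.2.1.1 := by
        simp only [mem_insert, mem_singleton] at hy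
        rcases hy with rfl | rfl | rfl | rfl
        · exact hx
        · exact (F_gamT hX hF x).2 hx
        · exact hx
        · exact (F_gamT hX hF (nu x)).2 hx
      rw [gamT_F hX y hFy]
      simp only [mem_insert, mem_singleton] at hy ⊢
      rcases hy with rfl | rfl | rfl | rfl
      · simp
      · rw [X.gamT_gamT, hgn]; simp
      · rw [nu_nu]; simp
      · rw [X.gamT_gamT, hgn, nu_nu]; simp
    · have hN : Nn X F x = {x, X.gamT x} := by unfold Nn; rw [if_neg hx]
      rw [hN] at hy ⊢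
      simp only [mem_insert, mem_singleton] at hy ⊢
      rcases hy with rfl | rfl
      · rw [gamT_nF hX _ hx]; simp
      · have : ¬ F (X.gamT x).1 (X.gamT x).2.1.1 := fun h => hx ((F_gamT hX hF x).1 h)
        rw [gamT_nF hX _ this, X.gamT_gamT]; simp
  have key := hW (P × TF) (fun x y => y = X.gamT x ∨ y = (X.cap F hF).gamT x) (wt F) (Nn X F)
    ?_ ?_ ?_ ?_ ?_
  · -- total weight
    have hsum : ∑ x : P × TF, wt F x = 10 * (Fintype.card P : ℚ) -
        ∑ p : P, ∑ j : Fin 5, (if F p j then (1 : ℚ) else 0) := by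
      rw [Fintype.sum_prod_type]
      have : ∀ p : P, ∑ t : TF, wt F (p, t) = 10 - ∑ j : Fin 5, (if F p j then (1 : ℚ) else 0) := by
        intro p
        have h1 := sum_TF (fun j => if F p j then (1 : ℚ) / 4 else 1 / 2)
        have h2 : ∑ t : TF, wt F (p, t) = ∑ t : TF, (fun j => if F p j then (1 : ℚ) / 4 else 1 / 2) t.1.1 :=
          rfl
        rw [h2, h1, Finset.mul_sum]
        have h3 : ∀ j : Fin 5, 4 * (if F p j then (1 : ℚ) / 4 else 1 / 2) =
            2 - (if F p j then (1 : ℚ) else 0) := by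
          intro j
          split_ifs <;> norm_num
        rw [Finset.sum_congr rfl fun j _ => h3 j, Finset.sum_sub_distrib]
        simp
        norm_num
      rw [Finset.sum_congr rfl fun p _ => this p, Finset.sum_sub_distrib]
      simp
      ring
    have hK : ((X.cap F hF).K : ℚ) = ∑ p : P, ∑ j : Fin 5, (if F p j then (1 : ℚ) else 0) := by
      unfold K
      rw [Nat.card_eq_fintype_card, Fintype.card_subtype, Finset.card_filter]
      push_cast
      rw [Fintype.sum_prod_type]
      refine Finset.sum_congr rfl fun p _ => Finset.sum_congr rfl fun j _ => ?_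
      simp only [capped_iff hX]
    rw [hsum, ← hK] at key
    rw [Nat.card_eq_fintype_card]
    have : (10 * (Fintype.card P : ℚ)) ≤ (X.cap F hF).K +
      ncl (fun x y => y = X.gamT x ∨ y = (X.cap F hF).gamT x) := by linarith
    exact_mod_cast this
  · intro x
    unfold Nn
    split_ifs <;> simp
  · rintro x y z hy (rfl | rfl)
    · exact (hcl x y hy).1
    · exact (hcl x y hy).2
  · rintro x y z hy (h | h)
    · have : z = X.gamT y := by rw [h, X.gamT_gamT]
      rw [this]; exact (hcl x y hy).1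
    · have : z = (X.cap F hF).gamT y := by rw [h, (X.cap F hF).gamT_gamT]
      rw [this]; exact (hcl x y hy).2
  · intro x
    unfold wt
    split_ifs <;> norm_num
  · intro x
    by_cases hx : F x.1 x.2.1.1
    · have hN : Nn X F x = {x, X.gamT x, nu x, X.gamT (nu x)} := by unfold Nn; rw [if_pos hx]
      have hw : ∀ y ∈ Nn X F x, wt F y = 1 / 4 := by
        intro y hy
        rw [hN] at hy
        simp only [mem_insert, mem_singleton] at hy
        unfold wt
        rw [if_pos]
        rcases hy with rfl | rfl | rfl | rfl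
        · exact hx
        · exact (F_gamT hX hF x).2 hx
        · exact hx
        · exact (F_gamT hX hF (nu x)).2 hx
      rw [Finset.sum_congr rfl hw, Finset.sum_const, nsmul_eq_mul]
      have hc : ((Nn X F x).card : ℚ) ≤ 4 := by
        rw [hN]
        exact_mod_cast Finset.card_le_four
      linarith
    · have hN : Nn X F x = {x, X.gamT x} := by unfold Nn; rw [if_neg hx]
      have hw : ∀ y ∈ Nn X F x, wt F y = 1 / 2 := by
        intro y hy
        rw [hN] at hy
        simp only [mem_insert, mem_singleton] at hy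
        unfold wt
        rw [if_neg]
        rcases hy with rfl | rfl
        · exact hx
        · exact fun h => hx ((F_gamT hX hF x).1 h)
      rw [Finset.sum_congr rfl hw, Finset.sum_const, nsmul_eq_mul]
      have hc : ((Nn X F x).card : ℚ) ≤ 2 := by
        rw [hN]
        exact_mod_cast Finset.card_le_two
      linarith

end S1aux

open S1aux in
theorem T_S1 (hA : S_A) (hW : S_W) : S_S1 := by
  intro P _ X hX F hF
  have h1 := orb (F := F) hW hX hF
  have h2 := hA (P × TF) CG.iota X.gamT (X.cap F hF).gamT CG.iota_iota CG.iota_ne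
    X.gamT_gamT X.gamT_ne (X.cap F hF).gamT_gamT (X.cap F hF).gamT_ne
  rw [← X.T_eq, ← (X.cap F hF).T_eq] at h2
  have h3 : Nat.card (P × TF) = 20 * Nat.card P := by
    rw [Nat.card_prod]
    have : Nat.card TF = 20 := by
      rw [Nat.card_eq_fintype_card]; decide
    rw [this]; ring
  rw [h3] at h2
  omega

end Pool.Agent.H830.OT
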