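import Pool.Agent.H830.OT.Stm

/-!
# S_S2 (linear algebra with the long edge map), by helper52
-/

namespace Pool.Agent.H830.OT

namespace S2aux

open Module

/-- the functions invariant under a relation -/
def Inv {D : Type} (r : D → D → Prop) : Submodule ℚ (D → ℚ) where
  carrier := {f | ∀ x y, r x y → f x = f y}
  add_mem' := by
    intro f g hf hg x y h
    simp [hf x y h, hg x y h]
  zero_mem' := by
    intro x y _; rfl
  smul_mem' := by
    intro c f hf x y h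
    simp [hf x y h]

theorem mem_Inv {D : Type} {r : D → D → Prop} {f : D → ℚ} :
    f ∈ Inv r ↔ ∀ x y, r x y → f x = f y := Iff.rfl

/-- invariant functions are the functions on the quotient -/
def invEquiv {D : Type} (r : D → D → Prop) : Inv r ≃ₗ[ℚ] (Quot r → ℚ) where
  toFun f := Quot.lift f.1 (fun x y h => f.2 x y h)
  map_add' f g := by
    funext q
    induction q using Quot.ind
    rfl
  map_smul' c f := by
    funext q
    induction q using Quot.ind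
    rfl
  invFun g := ⟨fun x => g (Quot.mk r x), fun x y h => congrArg g (Quot.sound h)⟩
  left_inv f := rfl
  right_inv g := by
    funext q
    induction q using Quot.ind
    rfl

theorem finrank_Inv {D : Type} [Finite D] (r : D → D → Prop) : finrank ℚ (Inv r) = ncl r := by
  have : Fintype (Quot r) := Fintype.ofFinite _
  rw [(invEquiv r).finrank_eq, Module.finrank_pi]
  unfold ncl
  rw [Nat.card_eq_fintype_card]

/-- the linear algebra -/
theorem lin {V W : Type} [AddCommGroup V] [Module ℚ V] [AddCommGroup W] [Module ℚ W]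
    [FiniteDimensional ℚ V] [FiniteDimensional ℚ W] (Θ : V →ₗ[ℚ] W) (Ec Eg : Submodule ℚ V)
    (Tc Tg : Submodule ℚ W) (hT : Tg ≤ Tc) (h1 : ∀ v ∈ Ec, Θ v ∈ Tc)
    (h2 : ∀ v ∈ Ec, Θ v ∈ Tg → v ∈ Eg) :
    finrank ℚ Tg + finrank ℚ Ec ≤ finrank ℚ Tc + finrank ℚ Eg := by
  set Ψ : Ec →ₗ[ℚ] W ⧸ Tg := Tg.mkQ ∘ₗ Θ ∘ₗ Ec.subtype with hΨ
  have e1 := LinearMap.finrank_range_add_finrank_ker Ψ
  have e2 := LinearMap.finrank_range_add_finrank_ker (Tg.mkQ ∘ₗ Tc.subtype)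
  have e3 : finrank ℚ (LinearMap.ker (Tg.mkQ ∘ₗ Tc.subtype)) = finrank ℚ Tg := by
    rw [LinearMap.ker_comp, Submodule.ker_mkQ]
    exact (Submodule.comapSubtypeEquivOfLe hT).finrank_eq
  have e4 : finrank ℚ (LinearMap.range Ψ) ≤ finrank ℚ (LinearMap.range (Tg.mkQ ∘ₗ Tc.subtype)) := by
    apply Submodule.finrank_mono
    rintro _ ⟨v, rfl⟩
    exact ⟨⟨Θ v.1, h1 v.1 v.2⟩, rfl⟩
  have e5 : finrank ℚ (LinearMap.ker Ψ) ≤ finrank ℚ Eg := by
    rw [← Submodule.finrank_map_subtype_eq Ec (LinearMap.ker Ψ)]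
    apply Submodule.finrank_mono
    rintro _ ⟨v, hv, rfl⟩
    refine h2 _ v.2 ?_
    have h3 : Tg.mkQ (Θ v.1) = 0 := hv
    rwa [Submodule.mkQ_apply, Submodule.Quotient.mk_eq_zero] at h3
  omega

/-- smallest element of `V \ {j,k}` -/
def mn (j k : Fin 5) : Fin 5 := if j ≠ 0 ∧ k ≠ 0 then 0 else if j ≠ 1 ∧ k ≠ 1 then 1 else 2

/-- largest element of `V \ {j,k}` -/
def mx (j k : Fin 5) : Fin 5 := if j ≠ 4 ∧ k ≠ 4 then 4 else if j ≠ 3 ∧ k ≠ 3 then 3 else 2

theorem mn_lt_mx (j k : Fin 5) : j ≠ k → mn j k < mx j k := by revert j k; decide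

theorem mn_ne (j k : Fin 5) : j ≠ mn j k ∧ k ≠ mn j k := by revert j k; decide

theorem mx_ne (j k : Fin 5) : j ≠ mx j k ∧ k ≠ mx j k := by revert j k; decide

theorem mn_comm (j k : Fin 5) : mn j k = mn k j := by revert j k; decide

theorem mx_comm (j k : Fin 5) : mx j k = mx k j := by revert j k; decide

theorem cc_mn (j k : Fin 5) : j ≠ k → cc j k (mn j k) = mn (cc j k j) (cc j k k) := by
  revert j k; decide

theorem cc_mx (j k : Fin 5) : j ≠ k → cc j k (mx j k) = mx (cc j k j) (cc j k k) := by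
  revert j k; decide

theorem gm_mn (i j k : Fin 5) : j ≠ k → gm j i (mn j k) = mn (gm j i j) (gm j i k) := by
  revert i j k; decide

theorem gm_mx (i j k : Fin 5) : j ≠ k → gm j i (mx j k) = mx (gm j i j) (gm j i k) := by
  revert i j k; decide

theorem tr_mn {P : Type} (Y : CG P) (p : P) (j k : Fin 5) (h : j ≠ k) :
    Y.tr p j k (mn j k) = mn (Y.tr p j k j) (Y.tr p j k k) := by
  unfold CG.tr
  split_ifs
  · exact cc_mn j k h
  · exact gm_mn _ j k h

theorem tr_mx {P : Type} (Y : CG P) (p : P) (j k : Fin 5) (h : j ≠ k) :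
    Y.tr p j k (mx j k) = mx (Y.tr p j k j) (Y.tr p j k k) := by
  unfold CG.tr
  split_ifs
  · exact cc_mx j k h
  · exact gm_mx _ j k h

/-- the long edge map -/
def Th (P : Type) : (P × EF → ℚ) →ₗ[ℚ] (P × TF → ℚ) where
  toFun φ x := φ (x.1, ⟨(mn x.2.1.1 x.2.1.2, mx x.2.1.1 x.2.1.2), mn_lt_mx _ _ x.2.2⟩)
  map_add' _ _ := rfl
  map_smul' _ _ := rfl

theorem ext_EF {P : Type} {x y : P × EF} (h1 : x.1 = y.1) (h2 : x.2.1.1 = y.2.1.1)
    (h3 : x.2.1.2 = y.2.1.2) : x = y := by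
  obtain ⟨p, ⟨⟨j, k⟩, h⟩⟩ := x
  obtain ⟨p', ⟨⟨j', k'⟩, h'⟩⟩ := y
  simp only at h1 h2 h3
  subst h1 h2 h3
  rfl

theorem Th_iota {P : Type} (φ : P × EF → ℚ) (x : P × TF) : Th P φ x = Th P φ (CG.iota x) := by
  show φ _ = φ _
  congr 1
  exact ext_EF rfl (mn_comm _ _) (mx_comm _ _)

theorem Th_gamT {P : Type} (Y : CG P) {φ : P × EF → ℚ} (hφ : φ ∈ Inv Y.relE) (x : P × TF) :
    Th P φ x = Th P φ (Y.gamT x) := by
  obtain ⟨p, ⟨⟨j, k⟩, h⟩⟩ := x
  refine hφ _ _ ⟨j, k, h, (mn_ne j k).1, (mx_ne j k).1, (mn_ne j k).2, (mx_ne j k).2, rfl, ?_⟩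
  exact Prod.ext (tr_mn Y p j k h).symm (tr_mx Y p j k h).symm

/-- the third vertex of the triangle used to detect the value on the edge `(a,b)` -/
def kk (j a b : Fin 5) : Fin 5 := if a = el j 0 ∧ b = el j 3 then el j 1 else el j 0

theorem kk_ne (j a b : Fin 5) : j ≠ kk j a b := by revert j a b; decide

theorem gm_kk (i j a b : Fin 5) : a ≠ j → b ≠ j → a < b →
    gm j i (kk j a b) = kk i (gm j i a) (gm j i b) := by
  revert i j a b; decide

theorem cases6 (j a b : Fin 5) : j ≠ a → j ≠ b → a < b →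
    (a = el j 0 ∧ b = el j 3 ∧ mn j (kk j a b) = el j 0 ∧ mx j (kk j a b) = el j 3) ∨
    ((a = el j 0 ∧ b = el j 1 ∨ a = el j 0 ∧ b = el j 2 ∨ a = el j 1 ∧ b = el j 2 ∨
      a = el j 1 ∧ b = el j 3 ∨ a = el j 2 ∧ b = el j 3) ∧
      mn j (kk j a b) = el j 1 ∧ mx j (kk j a b) = el j 3) := by
  revert j a b; decide

theorem ccel (j : Fin 5) : cc j (el j 3) (el j 0) = el j 1 ∧ cc j (el j 3) (el j 1) = el j 2 ∧
    cc j (el j 3) (el j 2) = el j 3 ∧ cc j (el j 1) (el j 0) = el j 0 ∧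
    cc j (el j 1) (el j 2) = el j 1 ∧ cc j (el j 1) (el j 3) = el j 3 := by
  revert j; decide

theorem el_ne (j : Fin 5) : j ≠ el j 0 ∧ j ≠ el j 1 ∧ j ≠ el j 2 ∧ j ≠ el j 3 := by
  revert j; decide

theorem el_lt (j : Fin 5) : el j 0 < el j 1 ∧ el j 1 < el j 2 ∧ el j 2 < el j 3 := by
  revert j; decide

theorem five (j : Fin 5) (g : Fin 5 → Fin 5 → ℚ)
    (hg : ∀ k a b, j ≠ k → j ≠ a → j ≠ b → k ≠ a → k ≠ b → a < b →
      g a b = g (cc j k a) (cc j k b)) (a b : Fin 5) (ha : j ≠ a) (hb : j ≠ b) (hab : a < b) :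
    g a b = g (mn j (kk j a b)) (mx j (kk j a b)) := by
  obtain ⟨c1, c2, c3, c4, c5, c6⟩ := ccel j
  obtain ⟨n0, n1, n2, n3⟩ := el_ne j
  obtain ⟨l1, l2, l3⟩ := el_lt j
  have q1 := hg (el j 3) (el j 0) (el j 1) n3 n0 n1 (l1.trans (l2.trans l3)).ne' (l2.trans l3).ne' l1
  have q2 := hg (el j 3) (el j 0) (el j 2) n3 n0 n2 (l1.trans (l2.trans l3)).ne' l3.ne'
    (l1.trans l2)
  have q3 := hg (el j 3) (el j 1) (el j 2) n3 n1 n2 (l2.trans l3).ne' l3.ne' l2
  have q4 := hg (el j 1) (el j 0) (el j 2) n1 n0 n2 l1.ne' l2.ne (l1.trans l2)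
  have q5 := hg (el j 1) (el j 2) (el j 3) n1 n2 n3 l2.ne (l2.trans l3).ne l3
  rw [c1, c2] at q1
  rw [c1, c3] at q2
  rw [c2, c3] at q3
  rw [c4, c5] at q4
  rw [c5, c6] at q5
  rcases cases6 j a b ha hb hab with ⟨e1, e2, e3, e4⟩ | ⟨hh, e3, e4⟩
  · rw [e3, e4, e1, e2]
  · rw [e3, e4]
    rcases hh with ⟨e1, e2⟩ | ⟨e1, e2⟩ | ⟨e1, e2⟩ | ⟨e1, e2⟩ | ⟨e1, e2⟩ <;> rw [e1, e2] <;> linarith

/-- values on the edges of a capped facet -/
theorem capval {P : Type} (Y : CG P) {φ : P × EF → ℚ} (hφ : φ ∈ Inv Y.relE) (p : P) (j : Fin 5)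
    (hc : Y.Capped p j) (a b : Fin 5) (ha : j ≠ a) (hb : j ≠ b) (hab : a < b) :
    φ (p, ⟨(a, b), hab⟩) = Th P φ (p, ⟨(j, kk j a b), kk_ne j a b⟩) := by
  classical
  have h := five j (fun a b => if h : a < b then φ (p, ⟨(a, b), h⟩) else 0) (by
    intro k a b hk ha hb hka hkb hab
    have hcc : cc j k a < cc j k b := cc_lt j k a b ha.symm hka.symm hb.symm hkb.symm hk hab
    simp only [dif_pos hab, dif_pos hcc]
    refine hφ _ _ ⟨j, k, hk, ha, hb, hka, hkb, hc.1.symm, ?_⟩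
    have e : ∀ c, Y.tr p j k c = cc j k c := fun c => by unfold CG.tr; rw [if_pos hc]
    show (cc j k a, cc j k b) = (Y.tr p j k a, Y.tr p j k b)
    rw [e, e]) a b ha hb hab
  simp only [dif_pos hab, dif_pos (mn_lt_mx j (kk j a b) (kk_ne j a b))] at h
  exact h

theorem step {P : Type} (X : CG P) (hX : ∀ p j, ¬ X.Capped p j) (F : P → Fin 5 → Prop)
    (hF : ∀ p j, F p j → F (X.nb p j) (X.ix p j)) (φ : P × EF → ℚ)
    (hφ : φ ∈ Inv (X.cap F hF).relE)
    (hT : Th P φ ∈ Inv (fun x y => y = CG.iota x ∨ y = X.gamT x ∨ y = (X.cap F hF).gamT x)) :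
    φ ∈ Inv X.relE := by
  rintro ⟨p, ⟨⟨a, b⟩, hab⟩⟩ ⟨q, ⟨⟨a', b'⟩, hab'⟩⟩ ⟨j, k, hjk, hja, hjb, hka, hkb, hq, hy⟩
  simp only at hja hjb hka hkb hq hy hab hab'
  have e : ∀ k c, X.tr p j k c = gm j (X.ix p j) c := fun k c => by
    unfold CG.tr; rw [if_neg (hX p j)]
  have ha' : a' = gm j (X.ix p j) a := by
    have := congrArg Prod.fst hy
    simpa only [e] using this
  have hb' : b' = gm j (X.ix p j) b := by
    have := congrArg Prod.snd hy
    simpa only [e] using this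
  by_cases hFp : F p j
  · have hFq := hF p j hFp
    have hcp : (X.cap F hF).Capped p j := ⟨by simp [CG.cap, hFp], by simp [CG.cap, hFp]⟩
    have hcq : (X.cap F hF).Capped (X.nb p j) (X.ix p j) :=
      ⟨by simp [CG.cap, hFq], by simp [CG.cap, hFq]⟩
    subst hq
    have h1 := capval _ hφ p j hcp a b hja hjb hab
    have h2 := capval _ hφ (X.nb p j) (X.ix p j) hcq a' b'
      (by rw [ha']; exact (gm_ne hja.symm).symm) (by rw [hb']; exact (gm_ne hjb.symm).symm) hab'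
    rw [h1, h2, hT _ _ (Or.inr (Or.inl rfl))]
    refine congrArg (Th P φ) (CG.ext_TF rfl ?_ ?_)
    · show X.tr p j _ j = X.ix p j
      exact X.tr_self p j _
    · show X.tr p j _ (kk j a b) = kk (X.ix p j) a' b'
      rw [e, gm_kk _ _ _ _ hja.symm hjb.symm hab, ha', hb']
  · refine hφ _ _ ⟨j, k, hjk, hja, hjb, hka, hkb, ?_, ?_⟩
    · show q = (X.cap F hF).nb p j
      simp [CG.cap, hFp, hq]
    · have hnc : ¬ (X.cap F hF).Capped p j := by
        rintro ⟨g1, g2⟩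
        simp only [CG.cap, if_neg hFp] at g1 g2
        exact hX p j ⟨g1, g2⟩
      have hix : (X.cap F hF).ix p j = X.ix p j := by simp [CG.cap, hFp]
      have e' : ∀ k c, (X.cap F hF).tr p j k c = gm j (X.ix p j) c := fun k c => by
        unfold CG.tr; rw [if_neg hnc, hix]
      show (a', b') = ((X.cap F hF).tr p j k a, (X.cap F hF).tr p j k b)
      rw [e', e', ha', hb']

end S2aux

open S2aux in
theorem T_S2 : S_S2 := by
  intro P _ X hX F hF
  have h := lin (Th P) (Inv (X.cap F hF).relE) (Inv X.relE)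
    (Inv (fun x y => y = CG.iota x ∨ y = (X.cap F hF).gamT x))
    (Inv (fun x y => y = CG.iota x ∨ y = X.gamT x ∨ y = (X.cap F hF).gamT x))
    (fun f hf x y hxy => hf x y (by tauto))
    (fun φ hφ x y hxy => by
      rcases hxy with rfl | rfl
      · exact Th_iota φ x
      · exact Th_gamT _ hφ x)
    (fun φ hφ hT => step X hX F hF φ hφ hT)
  rw [finrank_Inv, finrank_Inv, finrank_Inv, finrank_Inv, ← CG.T_eq] at h
  exact h

end Pool.Agent.H830.OT
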