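import Pool.Agent.H830.OT.Stm

namespace Pool.Agent.H830.OT

theorem eqvGen_mem_iff {D : Type} {r : D → D → Prop} {N : Finset D}
    (h1 : ∀ y z, y ∈ N → r y z → z ∈ N) (h2 : ∀ y z, y ∈ N → r z y → z ∈ N) {y z : D}
    (h : Relation.EqvGen r y z) : y ∈ N ↔ z ∈ N := by
  induction h with
  | rel a b hab => exact ⟨fun ha => h1 a b ha hab, fun hb => h2 b a hb hab⟩
  | refl a => exact Iff.rfl
  | symm a b _ ih => exact ih.symm
  | trans a b c _ _ ih1 ih2 => exact ih1.trans ih2

theorem T_W : S_W := by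
  classical
  intro D _ r w N h0 h1 h2 hw hN
  have : Finite (Quot r) := Quot.finite r
  have : Fintype (Quot r) := Fintype.ofFinite _
  have hq : ∑ q : Quot r, ∑ x ∈ Finset.univ.filter (fun x => Quot.mk r x = q), w x = ∑ x, w x := by
    exact Finset.sum_fiberwise Finset.univ (fun x => Quot.mk r x) w
  rw [← hq]
  have hle : ∀ q : Quot r, ∑ x ∈ Finset.univ.filter (fun x => Quot.mk r x = q), w x ≤ 1 := by
    intro q
    obtain ⟨x, rfl⟩ := Quot.exists_rep q
    refine le_trans (Finset.sum_le_sum_of_subset_of_nonneg ?_ (fun y _ _ => hw y)) (hN x)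
    intro y hy
    have hy' : Quot.mk r y = Quot.mk r x := by simpa using hy
    have := Quot.eqvGen_exact hy'
    exact (eqvGen_mem_iff (N := N x) (fun a b => h1 x a b) (fun a b => h2 x a b) this).2 (h0 x)
  calc ∑ q : Quot r, ∑ x ∈ Finset.univ.filter (fun x => Quot.mk r x = q), w x
      ≤ ∑ _q : Quot r, (1 : ℚ) := Finset.sum_le_sum (fun q _ => hle q)
    _ = (ncl r : ℚ) := by
        simp [ncl, Nat.card_eq_fintype_card]

theorem T_W' : S_W' := by
  classical
  intro D _ r N hN
  have : Finite (Quot r) := Quot.finite r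
  have : Fintype (Quot r) := Fintype.ofFinite _
  have hq : ∑ q : Quot r, ∑ x ∈ Finset.univ.filter (fun x => Quot.mk r x = q),
      (1 : ℚ) / (N x).card = ∑ x, (1 : ℚ) / (N x).card := by
    exact Finset.sum_fiberwise Finset.univ (fun x => Quot.mk r x) _
  rw [← hq]
  have hcl : ∀ x y : D, Quot.mk r y = Quot.mk r x → N y = N x := by
    intro x y hxy
    have h := Quot.eqvGen_exact hxy
    ext z
    rw [hN, hN]
    exact ⟨fun hz => (h.symm).trans _ _ _ hz, fun hz => h.trans _ _ _ hz⟩
  have heq : ∀ q : Quot r, ∑ x ∈ Finset.univ.filter (fun x => Quot.mk r x = q),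
      (1 : ℚ) / (N x).card = 1 := by
    intro q
    obtain ⟨x, rfl⟩ := Quot.exists_rep q
    have hset : Finset.univ.filter (fun y => Quot.mk r y = Quot.mk r x) = N x := by
      ext y
      simp only [Finset.mem_filter, Finset.mem_univ, true_and]
      rw [hN]
      exact ⟨fun h => Quot.eqvGen_exact h.symm, fun h => (Quot.eqvGen_sound h).symm⟩
    rw [hset]
    have hne : (N x).Nonempty := ⟨x, (hN x x).2 (Relation.EqvGen.refl x)⟩
    have : ∀ y ∈ N x, (1 : ℚ) / (N y).card = 1 / (N x).card := by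
      intro y hy
      rw [hcl x y (Quot.eqvGen_sound ((hN x y).1 hy)).symm]
    rw [Finset.sum_congr rfl this, Finset.sum_const, nsmul_eq_mul]
    have hc : ((N x).card : ℚ) ≠ 0 := by
      exact_mod_cast (Finset.card_pos.2 hne).ne'
    field_simp
  rw [Finset.sum_congr rfl (fun q _ => heq q)]
  simp [ncl, Nat.card_eq_fintype_card]

end Pool.Agent.H830.OT
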