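import Pool.Agent.H830.OT.Stm
import Pool.Agent.H830.OT.Def

/-!
# Ordered triangulations and their Betti numbers: statements of the lemmas
-/

namespace Pool.Agent.H830.OT

/-- the same gluing as a `CG` -/
def OrderedTriangulation.toCG {P : Type} (X : OrderedTriangulation P) : CG P where
  nb := X.nb
  ix := X.ix
  nb_nb := X.nb_nb
  ix_ix := X.ix_ix

open OrderedTriangulation (coboundary)

/-- **S_c2**. `f ↦ (p,(j,k)) ↦ f p {j,k}ᶜ` is injective on `cochains 2` with values in the
functions invariant under `relT` (`≃ (Quot relT → ℚ)`, dimension `T`). For the crossing of facet `j`: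
`{j,k}ᶜ = t.map j.succAboveEmb` for a `t : Finset (Fin 4)` and then
`t.map (ix p j).succAboveEmb = {ix p j, gm j (ix p j) k}ᶜ` (`decide`). -/
def S_c2 : Prop := ∀ (P : Type) [Finite P] (X : OrderedTriangulation P),
  Module.finrank ℚ (X.cochains 2) ≤ X.toCG.T

/-- **S_c1**. `φ : Quot relE → ℚ` gives the cochain `f p s = φ (p, (min s, max s))` for
`s.card = 2`; this is linear and injective. (`gm j (ix p j)` maps `j.succAbove r` to
`(ix p j).succAbove r`; in `relE` take any `k` different from `j`, `a`, `b`.) -/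
def S_c1 : Prop := ∀ (P : Type) [Finite P] (X : OrderedTriangulation P),
  X.toCG.E ≤ Module.finrank ℚ (X.cochains 1)

/-- **S_z1**. `f ↦ z p a b = (0 if a = b, f p {a,b} if a < b, - f p {a,b} if b < a)` maps
`cocycles 1` injectively to `CG.Z`. -/
def S_z1 : Prop := ∀ (P : Type) [Finite P] (X : OrderedTriangulation P),
  Module.finrank ℚ (X.cocycles 1) ≤ X.toCG.w

/-- **S_c3**. The functions `g` on `P × Fin 5` invariant under the fixed point free involution
`(p,i) ↦ (nb p i, ix p i)` embed in `cochains 3` by `f p s = g (p, i)` for `s = {i}ᶜ`; the number of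
classes is at least `5 n / 2` (`S_W` with `w = 1/2`). -/
def S_c3 : Prop := ∀ (P : Type) [Finite P] (X : OrderedTriangulation P),
  5 * Nat.card P ≤ 2 * Module.finrank ℚ (X.cochains 3)

/-- **S_r3**. For `f ∈ cochains 3` the cochain `d f` is determined by `d f p univ`, `p : P`,
and `∑ p, ε p * d f p univ = ∑ (p,i), ε p (-1)^i f p {i}ᶜ = 0` (the terms of `(p,i)` and
`(nb p i, ix p i)` cancel, `Finset.sum_involution`). So the rank is at most `n - 1`. -/
def S_r3 : Prop := ∀ (P : Type) [Finite P] [Nonempty P] (X : OrderedTriangulation P),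
  X.Orientable → Module.finrank ℚ ((X.cochains 3).map coboundary) + 1 ≤ Nat.card P

/-- **S_b2**. `coboundaries 2 ≤ cocycles 2` (`d f` is a cochain and `d (d f) = 0`), and
rank-nullity. -/
def S_b2 : Prop := ∀ (P : Type) [Finite P] (X : OrderedTriangulation P),
  X.betti 2 + Module.finrank ℚ ((X.cochains 2).map coboundary) +
    Module.finrank ℚ ((X.cochains 1).map coboundary) = Module.finrank ℚ (X.cochains 2)

/-- **S_b3**. Rank-nullity (`d² = 0` is not needed). -/
def S_b3 : Prop := ∀ (P : Type) [Finite P] (X : OrderedTriangulation P),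
  Module.finrank ℚ (X.cochains 3) ≤ X.betti 3 +
    Module.finrank ℚ ((X.cochains 3).map coboundary) +
    Module.finrank ℚ ((X.cochains 2).map coboundary)

/-- **S_Final**.  Follows from `S_Main` and the statements above:
`betti 2 - betti 3 ≤ c₂ - rank d₁ - c₃ + rank d₃`, `rank d₁ = c₁ - finrank (cocycles 1) ≥ E - w`,
`2 (betti 2 - betti 3) ≤ 2 T - 2 E + 2 w - 5 n + 2 (n - 1) ≤ n - 2`. -/
def S_Final : Prop := ∀ (P : Type) [Finite P] [Nonempty P] (X : OrderedTriangulation P),
  X.Connected → X.Orientable → 2 * X.betti 2 + 2 ≤ Nat.card P + 2 * X.betti 3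

end Pool.Agent.H830.OT
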